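import Pool.Agent.Lib.MP_774a52_lc.HighCore

/-! The table of chosen candidates, with natural numbers as letters. -/

namespace Pool.Agent.Lib.MP_774a52_lc.AP

open Filter
open High (ls pr_ls ls_le ls_not ls_found le_ls ls_congr pos bet bnd wt cnt_card pigeon bnd_le)

/-- letter `i` of the word number `s`, given the table `f` of chosen candidates -/
noncomputable def ltr (f : ℕ → ℕ → ℕ) (s i : ℕ) : ℕ := bet (f s (ls s fun e => pos (f s e) = i))

/-- word number `y` shows the letter that the candidate `c` claims to be omitted -/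
def dis (f : ℕ → ℕ → ℕ) (c y : ℕ) : Prop := ltr f y (pos c) = bet c

/-- the candidate `c` is refuted by a member of `P` below `w` -/
def rf (f : ℕ → ℕ → ℕ) (P : ℕ → Prop) (w c : ℕ) : Prop :=
  BEx w fun y => bnd c < y ∧ P y ∧ dis f c y

noncomputable def choice (θ : ℕ → ℕ → ℕ → Prop) (f : ℕ → ℕ → ℕ) (s e : ℕ) : ℕ :=
  ls s fun c => ¬ rf f (fun y => apU (Nat.unpair e).1 y s) (wt θ (Nat.unpair e).2 s) c ∧
    BAll e fun e' => pos (f s e') ≠ pos c

theorem ltr_congr {f g : ℕ → ℕ → ℕ} {s : ℕ} (h : ∀ e ≤ s, f s e = g s e) (i : ℕ) :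
    ltr f s i = ltr g s i := by
  unfold ltr
  rw [h _ (ls_le _ _), ls_congr (q := fun e => pos (g s e) = i) fun e he => by rw [h e he.le]]

theorem rf_congr {f g : ℕ → ℕ → ℕ} {P Q : ℕ → Prop} {w : ℕ}
    (h : ∀ y < w, ∀ e ≤ y, f y e = g y e) (h' : ∀ y < w, (P y ↔ Q y)) (c : ℕ) :
    rf f P w c ↔ rf g Q w c := by
  refine BEx_congr fun y hy => ?_
  unfold dis
  rw [h' y hy, ltr_congr (h y hy)]

theorem rf_mono {f : ℕ → ℕ → ℕ} {P : ℕ → Prop} {w w' c : ℕ} (h : w ≤ w') (hr : rf f P w c) :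
    rf f P w' c := by
  obtain ⟨y, hy, h1⟩ := hr
  exact ⟨y, by omega, h1⟩

theorem exists_table {θ : ℕ → ℕ → ℕ → Prop}
    (hθ : Sg 0 fun z : ℕ × ℕ × ℕ => θ z.1 z.2.1 z.2.2) :
    ∃ f : ℕ → ℕ → ℕ, Primrec (fun z : ℕ × ℕ => f z.1 z.2) ∧ ∀ s e, f s e = choice θ f s e := by
  have hap := apU_sg
  obtain ⟨F, hF, hrec⟩ := exists_rec (α := ℕ × ℕ) (fun x => x.1 * x.1 + x.2)
    (fun l => Nat.pair l l + 1) (by fun_prop) (by fun_prop) (by
      rintro ⟨a, b⟩ l hl
      simp only at hl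
      have := Nat.le_mul_self a
      show Nat.pair a b < _
      exact Nat.lt_succ_of_le (pair_mono (by omega) (by omega))) (0, 0)
    (fun x g => choice θ (fun s e => g (s, e)) x.1 x.2) (by
      unfold choice wt rf dis ltr pos bet bnd
      fun_prop) (by
      rintro ⟨s, e⟩ f g h
      simp only at h ⊢
      refine ls_congr fun c _ => and_congr (not_congr (rf_congr (fun y hy e' he' => ?_)
        (fun _ _ => Iff.rfl) c)) (BAll_congr fun e' he' => ?_)
      · have h1 : y < s := lt_of_lt_of_le hy (ls_le _ _)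
        refine h (y, e') ?_
        have : (y + 1) * (y + 1) ≤ s * s := Nat.mul_le_mul h1 h1
        simp only
        nlinarith
      · beta_reduce
        rw [h (s, e') (by simp only; omega)])
  exact ⟨fun s e => F (s, e), hF, fun s e => hrec (s, e)⟩

/-- more than `e` positions carry a candidate below `B` that is not refuted below `w` -/
def many (f : ℕ → ℕ → ℕ) (P : ℕ → Prop) (e B w : ℕ) : Prop :=
  e < cnt B fun i => BEx B fun c => pos c = i ∧ ¬ rf f P w c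

theorem many_congr {f : ℕ → ℕ → ℕ} {P Q : ℕ → Prop} {w : ℕ} (h : ∀ y < w, (P y ↔ Q y))
    (e B : ℕ) : many f P e B w ↔ many f Q e B w := by
  unfold many
  rw [cnt_congr fun i _ => BEx_congr fun c _ => and_congr_right fun _ =>
    not_congr (rf_congr (fun _ _ _ _ => rfl) h c)]

theorem exists_good {f : ℕ → ℕ → ℕ} {H : Set ℕ}
    (hinf : {i | ∃ c, pos c = i ∧ ∀ t, ¬ rf f (· ∈ H) t c}.Infinite) (e : ℕ) :
    ∃ B w, (∀ t, ∀ c < B, rf f (· ∈ H) t c → rf f (· ∈ H) w c) ∧ many f (· ∈ H) e B w := by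
  classical
  obtain ⟨T, hT, hcard⟩ := hinf.exists_subset_card_eq (e + 1)
  have h1 : ∀ i, ∃ c, i ∈ T → pos c = i ∧ ∀ t, ¬ rf f (· ∈ H) t c := by
    intro i
    by_cases hi : i ∈ T
    · obtain ⟨c, hc⟩ := hT hi
      exact ⟨c, fun _ => hc⟩
    · exact ⟨0, fun h => absurd h hi⟩
  choose C hC using h1
  obtain ⟨w, hw⟩ := exists_bound (fun c u => (∃ t, rf f (· ∈ H) t c) → rf f (· ∈ H) u c)
    (T.sup C + 1) (fun c _ => by
      by_cases h : ∃ t, rf f (· ∈ H) t c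
      · obtain ⟨t, ht⟩ := h
        exact ⟨t, fun _ => ht⟩
      · exact ⟨0, fun h' => absurd h' h⟩)
  refine ⟨T.sup C + 1, w, fun t c hc ht => ?_, ?_⟩
  · obtain ⟨u, hu, h⟩ := hw c hc
    exact rf_mono hu.le (h ⟨t, ht⟩)
  · unfold many
    rw [cnt_card]
    refine lt_of_lt_of_le (by omega : e < T.card) (Finset.card_le_card fun i hi => ?_)
    have h2 : C i ≤ T.sup C := Finset.le_sup hi
    have h3 : pos (C i) ≤ C i := Nat.unpair_left_le _
    obtain ⟨h4, h5⟩ := hC i hi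
    rw [Finset.mem_filter, Finset.mem_range]
    exact ⟨by omega, C i, by omega, h4, h5 w⟩

theorem dis_self {f : ℕ → ℕ → ℕ} {s e : ℕ} (he : e < s)
    (h : BAll e fun e' => pos (f s e') ≠ pos (f s e)) : dis f (f s e) s := by
  have : ls s (fun e' => pos (f s e') = pos (f s e)) = e :=
    le_antisymm (ls_found (p := fun e' => pos (f s e') = pos (f s e)) he rfl).1 (le_ls he.le h)
  unfold dis ltr
  rw [this]

theorem small_witness {θ : ℕ → ℕ → ℕ → Prop} {f : ℕ → ℕ → ℕ}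
    (hf : ∀ s e, f s e = choice θ f s e) {H : Set ℕ} (hH : H.Infinite) {u x B w : ℕ}
    (hu : ∀ y, ∀ᶠ s in atTop, (apU u y s ↔ y ∈ H))
    (h1 : ∀ t, ∀ c < B, rf f (· ∈ H) t c → rf f (· ∈ H) w c)
    (h2 : many f (· ∈ H) (Nat.pair u x) B w) (hx : ∃ w', ∀ v, θ x w' v) :
    ∃ w' < w, ∀ v, θ x w' v := by
  classical
  by_contra hc
  let w0 := Nat.find hx
  have hw0 : ∀ v, θ x w0 v := Nat.find_spec hx
  have hww : w ≤ w0 := by
    by_contra h
    exact hc ⟨w0, not_le.1 h, hw0⟩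
  have e1 : ∀ᶠ s in atTop, ∀ w' < w0, BEx s fun v => ¬ θ x w' v :=
    ev_ball w0 fun w' hw' => ev_bex (by simpa using Nat.find_min hx hw')
  have e2 := ev_ball w0 fun y _ => hu y
  obtain ⟨S, hS⟩ := eventually_atTop.1 (e1.and e2)
  obtain ⟨s, hsH, hs⟩ := hH.exists_gt (S + w0 + B + Nat.pair u x)
  obtain ⟨e3, e4⟩ := hS s (by omega)
  have hwt : wt θ x s = w0 := by
    refine le_antisymm (ls_found (by omega) fun v _ => hw0 v).1 (le_ls (by omega) ?_)
    intro i hi h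
    obtain ⟨v, hv, hv'⟩ := e3 i hi
    exact hv' (h v hv)
  have hrf : ∀ c, rf f (fun y => apU u y s) w0 c ↔ rf f (· ∈ H) w0 c :=
    rf_congr (fun _ _ _ _ => rfl) e4
  obtain ⟨i, _, ⟨c, hc1, hc2, hc3⟩, hi⟩ := pigeon h2 fun e' => pos (f s e')
  have h3 := ls_found (n := s) (j := c)
    (p := fun c => ¬ rf f (fun y => apU (Nat.unpair (Nat.pair u x)).1 y s)
      (wt θ (Nat.unpair (Nat.pair u x)).2 s) c ∧
      BAll (Nat.pair u x) fun e' => pos (f s e') ≠ pos c) (by omega) (by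
    simp only [Nat.unpair_pair, hwt, hrf]
    exact ⟨fun h => hc3 (h1 _ c hc1 h), fun e' he' => hc2 ▸ hi e' he'⟩)
  change choice θ f s (Nat.pair u x) ≤ c ∧ (¬ rf f _ _ (choice θ f s (Nat.pair u x)) ∧
    BAll _ fun e' => pos (f s e') ≠ pos (choice θ f s (Nat.pair u x))) at h3
  rw [← hf] at h3
  simp only [Nat.unpair_pair, hwt, hrf] at h3
  obtain ⟨h4, h5, h6⟩ := h3
  have h7 := bnd_le (f s (Nat.pair u x))
  exact h5 (rf_mono hww (h1 (s + 1) _ (by omega)
    ⟨s, by omega, by omega, hsH, dis_self (by omega) h6⟩))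

/-- The negation of the two-quantifier fact, with two quantifiers relative to `H`. -/
theorem co_S2 {θ : ℕ → ℕ → ℕ → Prop} (hθ : Sg 0 fun z : ℕ × ℕ × ℕ => θ z.1 z.2.1 z.2.2)
    {f : ℕ → ℕ → ℕ} (hfp : Primrec fun z : ℕ × ℕ => f z.1 z.2)
    (hf : ∀ s e, f s e = choice θ f s e) {H : Set ℕ} (hH : H.Infinite) {u : ℕ}
    (hu : ∀ y, ∀ᶠ s in atTop, (apU u y s ↔ y ∈ H))
    (hinf : {i | ∃ c, pos c = i ∧ ∀ t, ¬ rf f (· ∈ H) t c}.Infinite) :
    ∃ q : ℕ × ℕ → Prop, S1 H (fun z => q (Nat.unpair z)) ∧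
      ∀ x, (¬ ∃ w, ∀ v, θ x w v) ↔ ∃ k, ¬ q (x, k) := by
  let G : (ℕ → Prop) → ℕ → ℕ → ℕ → Prop := fun P t x k =>
    (Nat.unpair (Nat.unpair k).2).1 ≤ t ∧
    ¬ ((BAll (Nat.unpair k).1 fun c => Imp (rf f P t c)
        (rf f P (Nat.unpair (Nat.unpair k).2).1 c)) ∧
      many f P (Nat.pair u x) (Nat.unpair k).1 (Nat.unpair (Nat.unpair k).2).1 ∧
      BAll (Nat.unpair (Nat.unpair k).2).1 fun w =>
        BEx (Nat.unpair (Nat.unpair k).2).2 fun v => ¬ θ x w v)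
  refine ⟨fun z => ∃ t, G (· ∈ H) t z.1 z.2, ⟨fun z => G (fun y => z.2.getD y 0 = 1) z.2.length
    (Nat.unpair z.1).1 (Nat.unpair z.1).2, Sg.lift ?_, fun a => exists_congr fun t => ?_⟩,
    fun x => ⟨fun hx => ?_, ?_⟩⟩
  · simp only [G]
    unfold many rf dis ltr pos bet bnd
    fun_prop
  · simp only [G, tab_length]
    refine and_congr_right fun ht => not_congr (and_congr (BAll_congr fun c _ => ?_)
      (and_congr_left fun _ => many_congr (fun y hy => ?_) _ _))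
    · unfold Imp
      rw [rf_congr (g := f) (fun _ _ _ _ => rfl) (fun y hy => (tab_getD_one H hy).symm),
        rf_congr (g := f) (w := (Nat.unpair (Nat.unpair (Nat.unpair a).2).2).1)
          (fun _ _ _ _ => rfl) (fun y hy => (tab_getD_one H (lt_of_lt_of_le hy ht)).symm)]
    · exact (tab_getD_one H (lt_of_lt_of_le hy ht)).symm
  · obtain ⟨B, w, h1, h2⟩ := exists_good hinf (Nat.pair u x)
    push Not at hx
    obtain ⟨V, hV⟩ := exists_bound (fun w v => ¬ θ x w v) w fun w' _ => hx w'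
    refine ⟨Nat.pair B (Nat.pair w V), ?_⟩
    rintro ⟨t, -, h3⟩
    simp only [Nat.unpair_pair] at h3
    exact h3 ⟨fun c hc => h1 t c hc, h2, hV⟩
  · rintro ⟨k, hk⟩ hx
    have h0 : ∀ t, (Nat.unpair (Nat.unpair k).2).1 ≤ t → _ :=
      fun t ht => not_not.1 fun h => hk ⟨t, ht, h⟩
    obtain ⟨-, h2, h3⟩ := h0 _ le_rfl
    obtain ⟨w', hw', h4⟩ := small_witness hf hH hu (fun t c hc ht => by
      rcases Nat.le_total t (Nat.unpair (Nat.unpair k).2).1 with h | h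
      · exact rf_mono h ht
      · exact (h0 t h).1 c hc ht) h2 hx
    obtain ⟨v, _, hv⟩ := h3 w' hw'
    exact hv (h4 v)

end Pool.Agent.Lib.MP_774a52_lc.AP
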