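import Pool.Agent.Lib.MP_774a52_lc.AP1

/-! A stable colouring in which every infinite limit-computable set that is not high realizes
every finite pattern. -/

namespace Pool.Agent.Lib.MP_774a52_lc.AP

open Filter
open High (ls pr_ls ls_not ls_congr pos bet bnd len len_mono len_large S1_ev le_of_S1 S1_of_sg
  S1_jump jump_mono)

def Chain (R : ℕ × List ℕ → Prop) (i0 c : ℕ) (l : List (List ℕ × ℕ × ℕ))
    (j : List ℕ × ℕ × ℕ) : Prop :=
  (j.2.1 = i0 ∧ j.2.2 = c) ∨ ∃ i t : ℕ, (j.1, i, t) ∈ l ∧ j.2.1 = i + 1 ∧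
    R (Nat.pair i (Nat.pair t j.2.2), j.1)

theorem chainK {k : ℕ × ℕ → Prop} (hk0 : Sg 0 k) {K : ℕ → Prop} (hk : ∀ x, K x ↔ ∃ v, k (x, v))
    {G : Set ℕ} {R : ℕ × List ℕ → Prop} (hR0 : Sg 1 R) {i0 : ℕ}
    (snd : ∀ i t t' u, R (Nat.pair i (Nat.pair t t'), tab G u) → i ≤ len k K t →
      i + 1 ≤ len k K t')
    (cmp : ∀ i ≥ i0, ∀ t, ∃ t', ∀ᶠ u in atTop, R (Nat.pair i (Nat.pair t t'), tab G u)) :
    S1 G fun x => ¬ K x := by
  obtain ⟨c, hc⟩ := len_large hk i0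
  have hR : Sg 1 fun x : List (List ℕ × ℕ × ℕ) × (List ℕ × ℕ × ℕ) => Chain R i0 c x.1 x.2 := by
    unfold Chain
    fun_prop
  have hG := Sg.gen hR
  have sound : ∀ u j, Gen (Chain R i0 c) j → j.1 = tab G u → j.2.1 ≤ len k K j.2.2 := by
    intro u j hj
    induction hj with
    | mk l j _ hR ih =>
      intro hL
      rcases hR with ⟨h1, h2⟩ | ⟨i, t, h1, h2, h3⟩
      · rw [h1, h2]; exact hc
      · rw [h2]
        exact snd i t _ u (hL ▸ h3) (ih _ h1 hL)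
  have comp : ∀ n, ∃ t, ∀ᶠ u in atTop, Gen (Chain R i0 c) (tab G u, i0 + n, t) := by
    intro n
    induction n with
    | zero => exact ⟨c, Eventually.of_forall fun u => Gen.mk [] _ (by simp) (Or.inl ⟨rfl, rfl⟩)⟩
    | succ n ih =>
      obtain ⟨t, ht⟩ := ih
      obtain ⟨t', ht'⟩ := cmp (i0 + n) (by omega) t
      refine ⟨t', ?_⟩
      filter_upwards [ht, ht'] with u hu hu'
      exact Gen.mk [(tab G u, i0 + n, t)] _ (by simpa using hu)
        (Or.inr ⟨i0 + n, t, by simp, rfl, hu'⟩)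
  refine ⟨fun z => ∃ t : ℕ, Gen (Chain R i0 c) (z.2, i0 + (z.1 + 1), t) ∧
    ¬ BEx t fun v => k (z.1, v), by fun_prop, fun x => ⟨fun hx => ?_, ?_⟩⟩
  · obtain ⟨t, ht⟩ := comp (x + 1)
    obtain ⟨u, hu⟩ := ht.exists
    refine ⟨u, t, hu, ?_⟩
    rintro ⟨v, _, hv⟩
    exact hx ((hk x).2 ⟨v, hv⟩)
  · rintro ⟨u, t, h1, h2⟩ hx
    have h3 := sound u _ h1 rfl
    simp only at h3
    exact ls_not (show x < len k K t by omega) ⟨hx, h2⟩

theorem sg_fin {β : Type} [Primcodable β] {R : ℕ → β → Prop} (l : ℕ)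
    (h : ∀ j < l, Sg 1 (R j)) : Sg 1 fun w : ℕ × β => w.1 < l ∧ R w.1 w.2 := by
  induction l with
  | zero => exact (Sg.const False).of_eq (by simp)
  | succ l ih =>
    have h1 := ih fun j hj => h j (by omega)
    have h2 := h l (by omega)
    have h3 : Sg 1 fun w : ℕ × β => w.1 = l ∧ R l w.2 := by fun_prop
    refine (h1.or h3).of_eq fun w => ⟨?_, ?_⟩
    · rintro (⟨h4, h5⟩ | ⟨h4, h5⟩)
      · exact ⟨by omega, h5⟩
      · exact ⟨by omega, h4 ▸ h5⟩
    · rintro ⟨h4, h5⟩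
      rcases Nat.lt_or_ge w.1 l with h6 | h6
      · exact Or.inl ⟨h6, h5⟩
      · obtain rfl : l = w.1 := by omega
        exact Or.inr ⟨rfl, h5⟩

theorem pr_fin (a : ℕ → ℕ) (l : ℕ) : ∃ b : ℕ → ℕ, Primrec b ∧ ∀ j < l, b j = a j :=
  ⟨fun j => ((List.range l).map a).getD j 0, by fun_prop, fun j hj => by
    simp [List.getD_eq_getElem?_getD, List.getElem?_range hj]⟩

theorem rec_inter {G H : Set ℕ} (h : TuringReducible (chi H) (chi G)) {p : ℕ → Prop}
    (hp : Sg 0 p) : TuringReducible (chi {y | y ∈ H ∧ p y}) (chi G) := by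
  obtain ⟨⟨R1, h1, e1⟩, ⟨R0, h0, e0⟩⟩ := S1_of_le h
  have hp1 : Sg 1 p := hp.lift
  refine le_of_S1 ⟨fun z => R1 z ∧ p z.1, by fun_prop, fun a => ?_⟩
    ⟨fun z => R0 z ∨ ¬ p z.1, by fun_prop, fun a => ?_⟩
  · simp [e1]
  · simp only [Set.mem_ofPred_eq, not_and_or, e0, exists_or, exists_const]

theorem realize {f : ℕ → ℕ → ℕ} (hfp : Primrec fun z : ℕ × ℕ => f z.1 z.2)
    {k : ℕ × ℕ → Prop} (hk0 : Sg 0 k) {K : ℕ → Prop} (hk : ∀ x, K x ↔ ∃ v, k (x, v))
    {c : ℕ → ℕ → ℕ} (hc : Primrec fun z : ℕ × ℕ => c z.1 z.2)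
    (hlim : ∀ x, ∀ᶠ y in atTop, c x y = ltr f x (len k K x)) {G : Set ℕ}
    (hG : ¬ S1 G fun x => ¬ K x)
    (full : ∀ H : Set ℕ, H.Infinite → TuringReducible (chi H) (chi G) →
      ∀ᶠ i in atTop, ∀ a t, ∃ y ∈ H, t ≤ y ∧ ltr f y i = a) (p : ℕ → ℕ → ℕ) (l : ℕ) :
    ∀ Hs : ℕ → Set ℕ, (∀ j < l, (Hs j).Infinite ∧ TuringReducible (chi (Hs j)) (chi G)) →
      ∃ x : ℕ → ℕ, ∀ j < l, x j ∈ Hs j ∧ ∀ i < j, x i < x j ∧ c (x i) (x j) = p i j := by
  have hl : Primrec fun z : ℕ × ℕ => ltr f z.1 z.2 := by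
    unfold ltr pos bet
    fun_prop
  induction l with
  | zero => exact fun _ _ => ⟨fun _ => 0, fun j hj => absurd hj (Nat.not_lt_zero j)⟩
  | succ l ih =>
    intro Hs hH
    by_contra hn
    have h1 : ∀ j, ∃ R : ℕ × List ℕ → Prop, j < l → Sg 1 R ∧ (∀ a u, R (a, tab G u) → a ∈ Hs j) ∧
        ∀ a, a ∈ Hs j → ∀ᶠ u in atTop, R (a, tab G u) := by
      intro j
      by_cases hj : j < l
      · obtain ⟨R, hR⟩ := S1_ev (S1_of_le (hH j (by omega)).2).1
        exact ⟨R, fun _ => hR⟩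
      · exact ⟨fun _ => True, fun h => absurd h hj⟩
    choose R hR using h1
    have h2 := sg_fin l fun j hj => (hR j hj).1
    obtain ⟨P, hP, eP⟩ := pr_fin (fun z => p (Nat.unpair z).1 (Nat.unpair z).2) (Nat.pair l l + 1)
    have eP' : ∀ i ≤ l, ∀ j ≤ l, P (Nat.pair i j) = p i j := fun i hi j hj => by
      rw [eP _ (Nat.lt_succ_of_le (pair_mono hi hj))]; simp
    obtain ⟨i0, h0⟩ := eventually_atTop.1
      (ev_ball l fun j hj => full _ (hH j (by omega)).1 (hH j (by omega)).2)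
    refine hG (chainK hk0 hk (R := fun z => ∃ x : List ℕ, BAll l fun j =>
      (j < l ∧ R j (x.getD j 0, z.2)) ∧ (Nat.unpair (Nat.unpair z.1).2).1 ≤ x.getD j 0 ∧
      x.getD j 0 ≤ (Nat.unpair (Nat.unpair z.1).2).2 ∧
      ltr f (x.getD j 0) (Nat.unpair z.1).1 = P (Nat.pair j l) ∧ BAll j fun i =>
        x.getD i 0 < x.getD j 0 ∧ c (x.getD i 0) (x.getD j 0) = P (Nat.pair i j)) ?_
      (i0 := i0) ?_ ?_)
    · refine Sg.ex (Sg.ball (by fun_prop) (Sg.and ?_ (by fun_prop)))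
      exact h2.comp (f := fun w : ((ℕ × List ℕ) × List ℕ) × ℕ =>
        (w.2, (w.1.2.getD w.2 0, w.1.1.2))) (by fun_prop)
    · rintro i t t' u ⟨x, hx⟩ hi
      simp only [Nat.unpair_pair] at hx
      by_contra h3
      have h4 : ∀ᶠ y in atTop, ∀ j < l, x.getD j 0 < y ∧ c (x.getD j 0) y = p j l := by
        refine ev_ball l fun j hj => ?_
        obtain ⟨-, h5, h6, h7, -⟩ := hx j hj
        have e1 := len_mono (k := k) (K := K) h5
        have e2 := len_mono (k := k) (K := K) h6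
        filter_upwards [hlim (x.getD j 0), eventually_gt_atTop (x.getD j 0)] with y h8 h9
        rw [h8, show len k K (x.getD j 0) = i by omega, h7, eP' j hj.le l le_rfl]
        exact ⟨h9, rfl⟩
      obtain ⟨y0, h5⟩ := eventually_atTop.1 h4
      obtain ⟨y, h6, h7⟩ := (hH l (by omega)).1.exists_gt y0
      refine hn ⟨fun j => if j < l then x.getD j 0 else y, fun j hj => ?_⟩
      beta_reduce
      by_cases h8 : j < l
      · obtain ⟨⟨-, h9⟩, -, -, -, h10⟩ := hx j h8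
        refine ⟨by rw [if_pos h8]; exact (hR j h8).2.1 _ u h9, fun i' hi' => ?_⟩
        rw [if_pos h8, if_pos (hi'.trans h8), ← eP' i' (by omega) j h8.le]
        exact h10 i' hi'
      · obtain rfl : j = l := by omega
        refine ⟨by rw [if_neg h8]; exact h6, fun i' hi' => ?_⟩
        rw [if_neg h8, if_pos hi']
        exact h5 y h7.le i' hi'
    · intro i hi t
      obtain ⟨x, hx⟩ := ih (fun j => {y | y ∈ Hs j ∧ (t ≤ y ∧ ltr f y i = p j l)}) fun j hj =>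
        ⟨Set.infinite_of_forall_exists_gt fun n => by
          obtain ⟨y, h3, h4, h5⟩ := h0 i hi j hj (p j l) (n + 1 + t)
          exact ⟨y, ⟨h3, by omega, h5⟩, by omega⟩,
        rec_inter (hH j (by omega)).2 (by fun_prop)⟩
      obtain ⟨b, hb⟩ := exists_bound (fun j u => x j = u) l fun j _ => ⟨_, rfl⟩
      have e : ∀ j < l, ((List.range l).map x).getD j 0 = x j := fun j hj => by
        simp [List.getD_eq_getElem?_getD, List.getElem?_range hj]
      refine ⟨b, ?_⟩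
      filter_upwards [ev_ball l fun j hj => (hR j hj).2.2 _ (hx j hj).1.1] with u hu
      refine ⟨(List.range l).map x, fun j hj => ?_⟩
      obtain ⟨⟨-, h3, h4⟩, h5⟩ := hx j hj
      obtain ⟨_, h6, rfl⟩ := hb j hj
      simp only [Nat.unpair_pair, e j hj, eP' j hj.le l le_rfl]
      refine ⟨⟨hj, hu j hj⟩, h3, h6.le, h4, fun i' hi' => ?_⟩
      beta_reduce
      rw [e i' (hi'.trans hj), eP' i' (by omega) j hj.le]
      exact h5 i' hi'

theorem core : ∃ c : ℕ → ℕ → ℕ, (Primrec fun z : ℕ × ℕ => c z.1 z.2) ∧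
    (∀ x, ∃ a, ∀ᶠ y in atTop, c x y = a) ∧ ∀ G : Set ℕ,
      TuringReducible (chi G) (chi (jump ∅)) →
      ¬ TuringReducible (chi (jump (jump ∅))) (chi (jump G)) → ∀ (p : ℕ → ℕ → ℕ) (l : ℕ)
      (Hs : ℕ → Set ℕ), (∀ j < l, (Hs j).Infinite ∧ TuringReducible (chi (Hs j)) (chi G)) →
      ∃ x : ℕ → ℕ, ∀ j < l, x j ∈ Hs j ∧ ∀ i < j, x i < x j ∧ c (x i) (x j) = p i j := by
  have hK : Sg 1 fun n => n ∈ jump ∅ :=
    (jump_S1 ∅).sg ((Sg.const False).of_eq (by simp)) ((Sg.const True).of_eq (by simp))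
  have hJ : Sg 2 fun n => n ∈ jump (jump ∅) := (jump_S1 _).sg hK.lift hK.not_succ
  obtain ⟨k, hk0, hk⟩ := hK.exists_prim
  obtain ⟨q, hq, eq⟩ := sg_succ.1 hJ
  obtain ⟨r, hr, er⟩ := hq.exists_prim
  have hθ : Sg 0 fun z : ℕ × ℕ × ℕ => ¬ r ((z.1, z.2.1), z.2.2) := by fun_prop
  have eθ : ∀ x, x ∈ jump (jump ∅) ↔ ∃ w, ∀ v, ¬ r ((x, w), v) := fun x => by
    simp only [eq, er, not_exists]
  obtain ⟨f, hfp, hf⟩ := exists_table (θ := fun x w v => ¬ r ((x, w), v)) hθ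
  have hc : Primrec fun z : ℕ × ℕ =>
      ltr f z.1 (len k (fun x => BEx z.2 fun v => k (x, v)) z.1) := by
    unfold ltr pos bet len
    fun_prop
  have hlim : ∀ y, ∀ᶠ s in atTop, ltr f y (len k (fun x => BEx s fun v => k (x, v)) y) =
      ltr f y (len k (· ∈ jump ∅) y) := by
    intro y
    have h1 : ∀ᶠ s in atTop, ∀ x < y, ((BEx s fun v => k (x, v)) ↔ x ∈ jump ∅) := by
      refine ev_ball y fun x _ => ?_
      by_cases hx : x ∈ jump ∅
      · filter_upwards [ev_bex ((hk x).1 hx)] with s hs using iff_of_true hs hx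
      · exact Eventually.of_forall fun s =>
          iff_of_false (fun ⟨v, _, hv⟩ => hx ((hk x).2 ⟨v, hv⟩)) hx
    filter_upwards [h1] with s hs
    have : len k (fun x => BEx s fun v => k (x, v)) y = len k (· ∈ jump ∅) y :=
      ls_congr fun x hx => and_congr_left fun _ => hs x hx
    rw [this]
  refine ⟨fun y s => ltr f y (len k (fun x => BEx s fun v => k (x, v)) y), hc,
    fun y => ⟨_, hlim y⟩, fun G h1 h2 => realize hfp hk0 hk hc hlim
      (fun h => h2 (jump_mono (le_of_S1 (S1_of_sg hK) h))) fun H hH h3 => ?_⟩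
  have hfin : ¬ {i | ∃ c, pos c = i ∧ ∀ t, ¬ rf f (· ∈ H) t c}.Infinite := by
    intro hinf
    have h4 := h3.trans h1
    have hH1 : Sg 2 fun n => n ∈ H := (S1_of_le h4).1.sg hK.lift hK.not_succ
    have hH0 : Sg 2 fun n => n ∉ H := (S1_of_le h4).2.sg hK.lift hK.not_succ
    obtain ⟨h, hh, hl⟩ := limit_lemma hH1 hH0
    obtain ⟨u, hu⟩ := exists_apU hh hl
    obtain ⟨q', hq', e'⟩ := co_S2 hθ hfp hf hH hu hinf
    have e1 : (fun n => n ∈ jump (jump ∅)) = fun n => ∃ u, ¬ q (n, u) :=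
      funext fun n => propext (eq n)
    have e0 : (fun n => n ∉ jump (jump ∅)) = fun n => ∃ u, ¬ q' (n, u) :=
      funext fun n => propext ((not_congr (eθ n)).trans (e' n))
    exact h2 ((le_of_S1 (e1 ▸ S1_jump (S1_of_sg (by fun_prop))) (e0 ▸ S1_jump hq')).trans
      (jump_mono h3))
  obtain ⟨b, hb⟩ := (Set.not_infinite.1 hfin).bddAbove
  filter_upwards [eventually_gt_atTop b] with i hi a t
  by_contra hc
  have : i ≤ b := hb ⟨Nat.pair i (Nat.pair a t), by simp [pos], fun t' ⟨y, _, h2, h3, h4⟩ =>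
    hc ⟨y, h3, by simp only [bnd, Nat.unpair_pair] at h2; omega, by
      simpa only [dis, pos, bet, Nat.unpair_pair] using h4⟩⟩
  omega

end Pool.Agent.Lib.MP_774a52_lc.AP
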