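import Pool.Agent.Lib.MP_774a52_lc.Kit

namespace Pool.Agent.Lib.MP_774a52_lc

def same (b : ℕ → ℕ → ℕ) (m y y' : ℕ) : Prop := BAll m fun m' => bt (b m' y) m = bt (b m' y') m

noncomputable def cn (Y : ℕ → ℕ → ℕ → ℕ) (b : ℕ → ℕ → ℕ) (m k s y : ℕ) : ℕ :=
  cnt k fun i => Y m i s ≠ 0 ∧ Y m i s ≤ s ∧ same b m (Y m i s - 1) y

def okk (ap : ℕ → ℕ → ℕ → Prop) (Y : ℕ → ℕ → ℕ → ℕ) (m k s : ℕ) : Prop :=
  k ≤ s ∧ BAll k fun i => Y m i s ≠ 0 ∧ ap m (Y m i s - 1) s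

def cd (m k s : ℕ) : ℕ := Nat.pair m (Nat.pair k s)

def cand (ap fi : ℕ → ℕ → ℕ → Prop) (St Y : ℕ → ℕ → ℕ → ℕ) (b : ℕ → ℕ → ℕ) (m k s y : ℕ) :
    Prop :=
  St m k s < y ∧ (BEx (s + 1) fun t => y < t ∧ fi m (cd m k (St m k s)) t) ∧ ap m y s ∧
    b m y = (Nat.unpair (cn Y b m k s y)).1

noncomputable def nextSt (ap : ℕ → ℕ → ℕ → Prop) (St Y : ℕ → ℕ → ℕ → ℕ) (m k s : ℕ) : ℕ :=
  ITE (okk ap Y m k s) (St m k s) (s + 1)

noncomputable def nextY (ap fi : ℕ → ℕ → ℕ → Prop) (St Y : ℕ → ℕ → ℕ → ℕ) (b : ℕ → ℕ → ℕ)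
    (m k s : ℕ) : ℕ :=
  ITE (okk ap Y m k s) (ITE (Y m k s ≠ 0) (ITE (ap m (Y m k s - 1) s) (Y m k s) 0)
    (bs s (cand ap fi St Y b m k s))) 0

structure ColSpec (ap fi : ℕ → ℕ → ℕ → Prop) (St Y : ℕ → ℕ → ℕ → ℕ) (b : ℕ → ℕ → ℕ) : Prop where
  St0 : ∀ m k, St m k 0 = 0
  Y0 : ∀ m k, Y m k 0 = 0
  StS : ∀ m k s, St m k (s + 1) = nextSt ap St Y m k s
  YS : ∀ m k s, Y m k (s + 1) = nextY ap fi St Y b m k s
  bS : ∀ m s, b m s = (Nat.unpair (cn Y b m s s s)).1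

theorem cn_congr {Y Y' : ℕ → ℕ → ℕ → ℕ} {b b' : ℕ → ℕ → ℕ} {m k s y : ℕ}
    (hY : ∀ i < k, Y m i s = Y' m i s) (hb : ∀ m' < m, ∀ z ≤ s, b m' z = b' m' z) (hy : y ≤ s) :
    cn Y b m k s y = cn Y' b' m k s y := by
  refine cnt_congr fun i hi => ?_
  rw [hY i hi]
  refine and_congr_right fun _ => and_congr_right fun h => BAll_congr fun m' hm' => ?_
  rw [hb m' hm' _ (by omega), hb m' hm' y hy]

theorem okk_congr {ap : ℕ → ℕ → ℕ → Prop} {Y Y' : ℕ → ℕ → ℕ → ℕ} {m k s : ℕ}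
    (hY : ∀ i < k, Y m i s = Y' m i s) : okk ap Y m k s ↔ okk ap Y' m k s := by
  refine and_congr_right fun _ => BAll_congr fun i hi => ?_
  rw [hY i hi]

noncomputable def colStep (ap fi : ℕ → ℕ → ℕ → Prop) (x : N4) (f : N4 → ℕ) : ℕ :=
  ITE (x.1 = 2)
    (Nat.unpair (cn (fun m k s => f (1, m, k, s)) (fun m y => f (2, m, 0, y))
      x.2.1 x.2.2.2 x.2.2.2 x.2.2.2)).1
    (ITE (x.2.2.2 = 0) 0 (ITE (x.1 = 0)
      (nextSt ap (fun m k s => f (0, m, k, s)) (fun m k s => f (1, m, k, s))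
        x.2.1 x.2.2.1 (x.2.2.2 - 1))
      (nextY ap fi (fun m k s => f (0, m, k, s)) (fun m k s => f (1, m, k, s))
        (fun m y => f (2, m, 0, y)) x.2.1 x.2.2.1 (x.2.2.2 - 1))))

theorem exists_col {ap fi : ℕ → ℕ → ℕ → Prop}
    (hap : Sg 0 fun z : ℕ × ℕ × ℕ => ap z.1 z.2.1 z.2.2)
    (hfi : Sg 0 fun z : ℕ × ℕ × ℕ => fi z.1 z.2.1 z.2.2) :
    ∃ (St Y : ℕ → ℕ → ℕ → ℕ) (b : ℕ → ℕ → ℕ),
      Primrec (fun z : ℕ × ℕ × ℕ => St z.1 z.2.1 z.2.2) ∧
      Primrec (fun z : ℕ × ℕ × ℕ => Y z.1 z.2.1 z.2.2) ∧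
      Primrec (fun z : ℕ × ℕ => b z.1 z.2) ∧ ColSpec ap fi St Y b := by
  obtain ⟨F, hF, hrec⟩ := exists_rec4
    (fun x => 3 * (x.2.1 + x.2.2.2) + x.1 + (x.2.2.1 - x.2.2.2)) (by fun_prop)
    (fun x => by omega) (colStep ap fi) (by
      unfold colStep nextSt nextY cand okk cn same cd
      fun_prop) (by
      rintro ⟨tg, m, k, s⟩ f g h
      simp only at h
      unfold colStep
      refine ITE_congr Iff.rfl (fun ht => ?_) (fun ht => ITE_congr Iff.rfl (fun _ => rfl)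
        fun hs => ?_)
      · simp only at ht ⊢
        rw [cn_congr (Y' := fun m k s => g (1, m, k, s)) (b' := fun m y => g (2, m, 0, y))
          (fun i hi => h _ (by simp only; omega)) (fun m' hm' z hz => h _ (by simp only; omega))
          le_rfl]
      · simp only at ht hs ⊢
        obtain ⟨s, rfl⟩ : ∃ s', s = s' + 1 := ⟨s - 1, by omega⟩
        simp only [Nat.add_sub_cancel]
        have e0 : f (0, m, k, s) = g (0, m, k, s) := h _ (by simp only; omega)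
        have e1 : f (1, m, k, s) = g (1, m, k, s) := h _ (by simp only; omega)
        have e2 : okk ap (fun m k s => f (1, m, k, s)) m k s ↔
            okk ap (fun m k s => g (1, m, k, s)) m k s :=
          okk_congr fun i hi => h _ (by simp only; omega)
        refine ITE_congr Iff.rfl (fun _ => ITE_congr e2 (fun _ => e0) fun _ => rfl) fun _ => ?_
        unfold nextY
        refine ITE_congr e2 (fun _ => ?_) fun _ => rfl
        simp only [e1]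
        refine ITE_congr Iff.rfl (fun _ => rfl) fun _ => bs_congr fun y hy => ?_
        unfold cand
        simp only [e0]
        rw [h (2, m, 0, y) (by simp only; omega),
          cn_congr (Y' := fun m k s => g (1, m, k, s)) (b' := fun m y => g (2, m, 0, y))
          (fun i hi => h _ (by simp only; omega)) (fun m' hm' z hz => h _ (by simp only; omega))
          hy.le])
  refine ⟨fun m k s => F (0, m, k, s), fun m k s => F (1, m, k, s), fun m y => F (2, m, 0, y),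
    by fun_prop, by fun_prop, by fun_prop, ?_, ?_, ?_, ?_, ?_⟩
  · intro m k
    rw [hrec, colStep, ITE_neg (by simp), ITE_pos rfl]
  · intro m k
    rw [hrec, colStep, ITE_neg (by simp), ITE_pos rfl]
  · intro m k s
    rw [hrec, colStep, ITE_neg (by simp), ITE_neg (by simp), ITE_pos rfl]
    rfl
  · intro m k s
    rw [hrec, colStep, ITE_neg (by simp), ITE_neg (by simp), ITE_neg (by simp)]
    rfl
  · intro m s
    rw [hrec, colStep, ITE_pos rfl]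

end Pool.Agent.Lib.MP_774a52_lc
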