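import Pool.Agent.Lib.MP_774a52_lc.Jump

namespace Pool.Agent.Lib.MP_774a52_lc

open Filter Nat.Partrec

theorem ev_ball {p : ℕ → ℕ → Prop} (n : ℕ) (h : ∀ x < n, ∀ᶠ s in atTop, p x s) :
    ∀ᶠ s in atTop, ∀ x < n, p x s := by
  have : ∀ᶠ s in atTop, ∀ x ∈ Finset.range n, p x s :=
    (Finset.eventually_all _).2 fun x hx => h x (Finset.mem_range.1 hx)
  filter_upwards [this] with s hs x hx using hs x (Finset.mem_range.2 hx)

theorem ev_bex {p : ℕ → Prop} (h : ∃ k, p k) : ∀ᶠ s in atTop, BEx s p := by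
  obtain ⟨k, hk⟩ := h
  filter_upwards [eventually_gt_atTop k] with s hs using ⟨k, hs, hk⟩

/-- Limit lemma. -/
theorem limit_lemma {p : ℕ → Prop} (h1 : Sg 2 p) (h0 : Sg 2 fun y => ¬ p y) :
    ∃ h : ℕ × ℕ → Prop, Sg 0 h ∧ ∀ y, ∀ᶠ s in atTop, (h (y, s) ↔ p y) := by
  obtain ⟨q1, hq1, e1⟩ := sg_succ.1 h1
  obtain ⟨q0, hq0, e0⟩ := sg_succ.1 h0
  obtain ⟨r1, hr1, f1⟩ := hq1.exists_prim
  obtain ⟨r0, hr0, f0⟩ := hq0.exists_prim
  refine ⟨fun z => BEx z.2 fun u => (¬ BEx z.2 fun k => r1 ((z.1, u), k)) ∧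
    BAll (u + 1) fun u' => BEx z.2 fun k => r0 ((z.1, u'), k), by fun_prop, fun y => ?_⟩
  by_cases hy : p y
  · obtain ⟨u, hu⟩ := (e1 y).1 hy
    have h2 : ∀ u', ∃ k, r0 ((y, u'), k) := by
      intro u'
      rw [← f0]
      by_contra hc
      exact (e0 y).2 ⟨u', hc⟩ hy
    filter_upwards [eventually_gt_atTop u, ev_ball (u + 1) fun u' _ => ev_bex (h2 u')] with s h3 h4
    refine ⟨fun _ => hy, fun _ => ⟨u, h3, ?_, h4⟩⟩
    rintro ⟨k, _, hk⟩
    exact hu ((f1 _).2 ⟨k, hk⟩)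
  · obtain ⟨u0, hu⟩ := (e0 y).1 hy
    have h2 : ∀ u', ∃ k, r1 ((y, u'), k) := by
      intro u'
      rw [← f1]
      by_contra hc
      exact hy ((e1 y).2 ⟨u', hc⟩)
    filter_upwards [ev_ball u0 fun u' _ => ev_bex (h2 u')] with s h4
    refine ⟨?_, fun h => absurd h hy⟩
    rintro ⟨u, _, h5, h6⟩
    exfalso
    rcases Nat.lt_or_ge u u0 with h7 | h7
    · exact h5 (h4 u h7)
    · obtain ⟨k, _, hk⟩ := h6 u0 (by omega)
      exact hu ((f0 _).2 ⟨k, hk⟩)

theorem exists_step {p : ℕ → Prop} (h0 : ¬ p 0) {s : ℕ} (h : p s) : ∃ t, ¬ p t ∧ p (t + 1) := by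
  induction s with
  | zero => exact absurd h h0
  | succ s ih =>
    by_cases hs : p s
    · exact ih hs
    · exact ⟨s, hs, h⟩

/-- A total Sigma-two relation is dominated by the last of finitely many computable events. -/
theorem modulus {Φ : ℕ × ℕ → Prop} (hΦ : Sg 2 Φ) (htot : ∀ n, ∃ t, Φ (n, t)) :
    ∃ fire : ℕ × ℕ → Prop, Sg 0 fire ∧ (∀ n, ∃ T, ∀ s, fire (n, s) → s < T) ∧
      ∀ n, ∃ t s, t ≤ s ∧ Φ (n, t) ∧ fire (n, s) := by
  classical
  obtain ⟨q, hq, e⟩ := sg_succ.1 hΦ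
  obtain ⟨r, hr, f⟩ := hq.exists_prim
  let M : ℕ → ℕ → ℕ → Prop := fun n x s => x < s ∧ BAll x fun x' => BEx s fun k =>
    r (((n, (Nat.unpair x').1), (Nat.unpair x').2), k)
  have hM : Sg 0 fun z : ℕ × ℕ × ℕ => M z.1 z.2.1 z.2.2 := by
    simp only [M]; fun_prop
  have hmono : ∀ n x s s', s ≤ s' → M n x s → M n x s' := by
    rintro n x s s' hs ⟨h1, h2⟩
    refine ⟨by omega, fun x' hx' => ?_⟩
    obtain ⟨k, hk, hk'⟩ := h2 x' hx'
    exact ⟨k, by omega, hk'⟩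
  have hex : ∀ n, ∃ x, ¬ q ((n, (Nat.unpair x).1), (Nat.unpair x).2) := by
    intro n
    obtain ⟨t, ht⟩ := htot n
    obtain ⟨u, hu⟩ := (e _).1 ht
    exact ⟨Nat.pair t u, by simpa using hu⟩
  have hev : ∀ n x, x ≤ Nat.find (hex n) → ∀ᶠ s in atTop, M n x s := by
    intro n x hx
    filter_upwards [eventually_gt_atTop x, ev_ball x fun x' hx' => ev_bex ((f _).1
      (not_not.1 (Nat.find_min (hex n) (lt_of_lt_of_le hx' hx))))] with s h1 h2 using ⟨h1, h2⟩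
  refine ⟨fun z => BEx (z.2 + 1) fun x => M z.1 x (z.2 + 1) ∧ ¬ M z.1 x z.2, ?_, fun n => ?_,
    fun n => ?_⟩
  · refine Sg.bex (by fun_prop) (Sg.and (hM.comp (f := fun z : (ℕ × ℕ) × ℕ =>
      (z.1.1, z.2, z.1.2 + 1)) (by fun_prop)) (Sg.not0 (hM.comp (f := fun z : (ℕ × ℕ) × ℕ =>
      (z.1.1, z.2, z.1.2)) (by fun_prop))))
  · obtain ⟨T, hT⟩ := eventually_atTop.1
      (ev_ball (Nat.find (hex n) + 1) fun x hx => hev n x (by omega))
    refine ⟨T, ?_⟩
    rintro s ⟨x, _, h1, h2⟩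
    by_contra hs
    apply h2 (hT s (by omega) x _)
    by_contra hx
    obtain ⟨k, _, hk⟩ := h1.2 (Nat.find (hex n)) (by omega)
    exact Nat.find_spec (hex n) ((f _).2 ⟨k, hk⟩)
  · obtain ⟨s, hs⟩ := (hev n _ le_rfl).exists
    obtain ⟨t, h1, h2⟩ := exists_step (p := M n (Nat.find (hex n))) (fun h => by
      have := h.1; omega) hs
    have h3 := h2.1
    have h4 := Nat.unpair_left_le (Nat.find (hex n))
    exact ⟨(Nat.unpair (Nat.find (hex n))).1, t, by omega, (e _).2 ⟨_, Nat.find_spec (hex n)⟩,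
      _, h3, h2, h1⟩

theorem exists_code_pred {α : Type} [Primcodable α] (a0 : α) {P : α → Prop} (hP : Sg 0 P) :
    ∃ e : ℕ, ∀ z, Code.eval (Denumerable.ofNat Code e) (Encodable.encode z) =
      Part.some (ITE (P z) 1 0) := by
  have h1 : Primrec fun x : ℕ => (Encodable.decode (α := α) x).getD a0 :=
    Primrec.option_getD.comp Primrec.decode (Primrec.const a0)
  have h2 : Primrec fun x : ℕ => ITE (P ((Encodable.decode (α := α) x).getD a0)) 1 0 := by
    fun_prop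
  obtain ⟨c, hc⟩ := Code.exists_code.1 (Nat.Partrec.of_primrec (Primrec.nat_iff.1 h2))
  exact ⟨Encodable.encode c, fun z => by simp [hc]⟩

def Un (e x : ℕ) : Prop := ∃ k, Code.evaln k (Denumerable.ofNat Code e) x = some 1

theorem Un_sg : Sg 1 fun z : ℕ × ℕ => Un z.1 z.2 := by
  unfold Un; fun_prop

theorem Un_iff {e x : ℕ} {p : Prop}
    (h : Code.eval (Denumerable.ofNat Code e) x = Part.some (ITE p 1 0)) : Un e x ↔ p := by
  have : Un e x ↔ 1 ∈ Code.eval (Denumerable.ofNat Code e) x := Code.evaln_complete.symm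
  rw [this, h, Part.mem_some_iff]
  by_cases hp : p
  · rw [ITE_pos hp]; simp [hp]
  · rw [ITE_neg hp]; simp [hp]

def Tot (H : Set ℕ) (e : ℕ) : Prop := ∀ n : ℕ, ∃ s, Un e (Encodable.encode (n, s, tab H s))

theorem tot_sg {H : Set ℕ}
    (h2 : TuringReducible (chi (jump (jump H))) (chi (jump (jump ∅))))
    (hJ : Sg 2 fun n => n ∈ jump (jump ∅)) : Sg 3 (Tot H) := by
  have hU := Un_sg
  have hC : S1 H fun z => ∃ s, Un (Nat.unpair z).1
      (Encodable.encode ((Nat.unpair z).2, s, tab H s)) := by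
    refine ⟨fun w => Un (Nat.unpair w.1).1
      (Encodable.encode ((Nat.unpair w.1).2, w.2.length, w.2)), by fun_prop, fun a => ?_⟩
    simp only [tab_length]
  obtain ⟨r1, hr1, e1⟩ := hC.red
  have hN : S1 (jump H) fun e => ¬ Tot H e := by
    refine ⟨fun w => ∃ n : ℕ, r1 (Nat.pair w.1 n) < w.2.length ∧
      w.2.getD (r1 (Nat.pair w.1 n)) 0 ≠ 1, by fun_prop, fun e => ?_⟩
    simp only [tab_length, Tot, not_forall]
    constructor
    · rintro ⟨n, hn⟩
      refine ⟨r1 (Nat.pair e n) + 1, n, by omega, ?_⟩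
      rw [Ne, tab_getD_one _ (by omega), ← e1]
      simpa using hn
    · rintro ⟨u, n, h3, h4⟩
      rw [Ne, tab_getD_one _ h3, ← e1] at h4
      exact ⟨n, by simpa using h4⟩
  obtain ⟨r2, hr2, e2⟩ := hN.red
  have h3 := ((S1_of_le h2).2.comp hr2).sg (n := 2) hJ.lift hJ.not_succ
  exact h3.of_eq fun e => by rw [← e2, not_not]

def apU (e y s : ℕ) : Prop :=
  BEx (s + 1) fun t => Code.evaln s (Denumerable.ofNat Code e) (Nat.pair y t) = some 1 ∧
    BAll (s + 1) fun t' => Imp (t < t')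
      (Code.evaln s (Denumerable.ofNat Code e) (Nat.pair y t') ≠ some 0)

def fiU (e n s : ℕ) : Prop :=
  BEx (s + 1) fun t => Code.evaln (s + 1) (Denumerable.ofNat Code e) (Nat.pair n t) = some 1 ∧
    Code.evaln s (Denumerable.ofNat Code e) (Nat.pair n t) = Option.none

theorem apU_sg : Sg 0 fun z : ℕ × ℕ × ℕ => apU z.1 z.2.1 z.2.2 := by
  unfold apU; fun_prop

theorem fiU_sg : Sg 0 fun z : ℕ × ℕ × ℕ => fiU z.1 z.2.1 z.2.2 := by
  unfold fiU; fun_prop

theorem ev_evaln {c : Code} {x v : ℕ} (h : c.eval x = Part.some v) :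
    ∀ᶠ s in atTop, c.evaln s x = some v := by
  obtain ⟨k, hk⟩ := Code.evaln_complete.1 (show v ∈ c.eval x by simp [h])
  filter_upwards [eventually_ge_atTop k] with s hs using Code.evaln_mono hs hk

theorem evaln_val {c : Code} {x v w s : ℕ} (h : c.eval x = Part.some v)
    (h' : c.evaln s x = some w) : w = v := by
  have := Code.evaln_sound (show w ∈ c.evaln s x from h')
  simpa [h] using this

theorem exists_apU {h : ℕ × ℕ → Prop} (hh : Sg 0 h) {p : ℕ → Prop}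
    (hl : ∀ y, ∀ᶠ s in atTop, (h (y, s) ↔ p y)) :
    ∃ e, ∀ y, ∀ᶠ s in atTop, (apU e y s ↔ p y) := by
  obtain ⟨e, he⟩ := exists_code_pred (0, 0) hh
  have he' : ∀ y t, Code.eval (Denumerable.ofNat Code e) (Nat.pair y t) =
      Part.some (ITE (h (y, t)) 1 0) := fun y t => he (y, t)
  refine ⟨e, fun y => ?_⟩
  obtain ⟨t0, ht0⟩ := eventually_atTop.1 (hl y)
  filter_upwards [ev_evaln (he' y t0), eventually_ge_atTop t0] with s h1 h2
  by_cases hy : p y
  · refine ⟨fun _ => hy, fun _ => ⟨t0, by omega, ?_, fun t' _ ht' h3 => ?_⟩⟩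
    · rw [h1, ITE_pos ((ht0 _ le_rfl).2 hy)]
    · have := evaln_val (he' y t') h3
      rw [ITE_pos ((ht0 _ ht'.le).2 hy)] at this
      omega
  · refine ⟨?_, fun h => absurd h hy⟩
    rintro ⟨t, _, h3, h4⟩
    exfalso
    rcases Nat.lt_or_ge t t0 with h5 | h5
    · apply h4 t0 (by omega) h5
      rw [h1, ITE_neg (mt (ht0 _ le_rfl).1 hy)]
    · have := evaln_val (he' y t) h3
      rw [ITE_neg (mt (ht0 _ h5).1 hy)] at this
      omega

theorem exists_fiU {f : ℕ × ℕ → Prop} (hf : Sg 0 f) (hfin : ∀ n, ∃ T, ∀ s, f (n, s) → s < T) :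
    ∃ e, (∀ n, ∃ T, ∀ s, fiU e n s → s < T) ∧ ∀ n t, f (n, t) → ∃ s, t ≤ s ∧ fiU e n s := by
  obtain ⟨e, he⟩ := exists_code_pred (0, 0) hf
  have he' : ∀ y t, Code.eval (Denumerable.ofNat Code e) (Nat.pair y t) =
      Part.some (ITE (f (y, t)) 1 0) := fun y t => he (y, t)
  refine ⟨e, fun n => ?_, fun n t ht => ?_⟩
  · obtain ⟨T, hT⟩ := hfin n
    obtain ⟨S, hS⟩ := eventually_atTop.1 (ev_ball T fun t _ => ev_evaln (he' n t))
    refine ⟨S, ?_⟩
    rintro s ⟨t, _, h1, h2⟩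
    by_contra hs
    have h3 : f (n, t) := by
      by_contra h4
      have := evaln_val (he' n t) h1
      rw [ITE_neg h4] at this
      omega
    rw [hS s (by omega) t (hT t h3)] at h2
    simp at h2
  · obtain ⟨s, hs⟩ := (ev_evaln (he' n t)).exists
    rw [ITE_pos ht] at hs
    obtain ⟨s, h1, h2⟩ := exists_step
      (p := fun s => Code.evaln s (Denumerable.ofNat Code e) (Nat.pair n t) = some 1)
      (by simp [Code.evaln]) hs
    have h3 := Code.evaln_bound (show 1 ∈ Code.evaln (s + 1) _ _ from h2)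
    have h4 := Nat.right_le_pair n t
    refine ⟨s, by omega, t, by omega, h2, ?_⟩
    cases h5 : Code.evaln s (Denumerable.ofNat Code e) (Nat.pair n t) with
    | none => rfl
    | some w =>
      have := evaln_val (he' n t) h5
      rw [ITE_pos ht] at this
      exact absurd (this ▸ h5) h1

theorem dom {H : Set ℕ} (h1 : TuringReducible (chi H) (chi (jump ∅)))
    (h2 : TuringReducible (chi (jump (jump H))) (chi (jump (jump ∅)))) :
    ∃ e1 e2, (∀ y, ∀ᶠ s in atTop, (apU e1 y s ↔ y ∈ H)) ∧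
      (∀ n, ∃ T, ∀ s, fiU e2 n s → s < T) ∧
      ∀ P : ℕ × ℕ × List ℕ → Prop, Sg 0 P → (∀ n, ∃ s, P (n, s, tab H s)) →
        ∃ N, ∀ n ≥ N, ∃ s t, s ≤ t ∧ P (n, s, tab H s) ∧ fiU e2 n t := by
  have hK : Sg 1 fun n => n ∈ jump ∅ :=
    (jump_S1 ∅).sg ((Sg.const False).of_eq (by simp)) ((Sg.const True).of_eq (by simp))
  have hJ : Sg 2 fun n => n ∈ jump (jump ∅) := (jump_S1 _).sg hK.lift hK.not_succ
  have hH1 : Sg 2 fun n => n ∈ H := (S1_of_le h1).1.sg hK.lift hK.not_succ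
  have hH0 : Sg 2 fun n => n ∉ H := (S1_of_le h1).2.sg hK.lift hK.not_succ
  obtain ⟨h, hh, hl⟩ := limit_lemma hH1 hH0
  obtain ⟨e1, he1⟩ := exists_apU hh hl
  obtain ⟨q, hq, eq⟩ := sg_succ.1 (tot_sg h2 hJ)
  have hT := isTab_sg hH1 hH0
  have hU : Sg 2 fun z : ℕ × ℕ => Un z.1 z.2 := Un_sg.lift
  let Φ : ℕ × ℕ → Prop := fun z => BAll (z.1 + 1) fun e => BAll (z.1 + 1) fun u =>
    (BEx (z.2 + 1) fun s => ∃ σ : List ℕ, IsTab H σ ∧ σ.length = s ∧
      Un e (Encodable.encode (z.1, s, σ))) ∨ q (e, u)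
  have hΦ : Sg 2 Φ := by simp only [Φ]; fun_prop
  have htot : ∀ n, ∃ t, Φ (n, t) := by
    intro n
    obtain ⟨b, hb⟩ := exists_bound (fun e s => Tot H e → Un e (Encodable.encode (n, s, tab H s)))
      (n + 1) (fun e _ => by
        by_cases he : Tot H e
        · obtain ⟨s, hs⟩ := he n
          exact ⟨s, fun _ => hs⟩
        · exact ⟨0, fun h => absurd h he⟩)
    refine ⟨b, fun e he u _ => ?_⟩
    by_cases hqu : q (e, u)
    · exact Or.inr hqu
    · obtain ⟨s, hs, hs'⟩ := hb e he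
      exact Or.inl ⟨s, by omega, tab H s, by rw [isTab_iff, tab_length], tab_length _ _,
        hs' ((eq e).2 ⟨u, hqu⟩)⟩
  obtain ⟨f, hf, hfin, hdom⟩ := modulus hΦ htot
  obtain ⟨e2, hfin2, he2⟩ := exists_fiU hf hfin
  refine ⟨e1, e2, he1, hfin2, fun P hP hPt => ?_⟩
  obtain ⟨e, he⟩ := exists_code_pred (0, 0, []) hP
  have hTot : Tot H e := fun n => by
    obtain ⟨s, hs⟩ := hPt n
    exact ⟨s, (Un_iff (he _)).2 hs⟩
  obtain ⟨u, hu⟩ := (eq e).1 hTot
  refine ⟨max e u, fun n hn => ?_⟩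
  obtain ⟨t, s, hts, h3, h4⟩ := hdom n
  obtain ⟨s', hs', h5⟩ := he2 n s h4
  have h6 := le_max_left e u
  have h7 := le_max_right e u
  rcases h3 e (by simp only; omega) u (by simp only; omega) with ⟨s0, h8, σ, h9, h10, h11⟩ | h8
  · rw [isTab_iff, h10] at h9
    subst h9
    exact ⟨s0, s', by simp only at h8; omega, (Un_iff (he _)).1 h11, h5⟩
  · exact absurd h8 hu

end Pool.Agent.Lib.MP_774a52_lc
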