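import Pool.Agent.Lib.MP_774a52_lc.ColDef
import Pool.Agent.Lib.MP_774a52_lc.Dom
import Mathlib.Data.Nat.Nth

namespace Pool.Agent.Lib.MP_774a52_lc

open Filter

def QC (H : Set ℕ) (St Y : ℕ → ℕ → ℕ → ℕ) (b : ℕ → ℕ → ℕ) (m k s0 s : ℕ) : Prop :=
  s0 ≤ s ∧ (St m k s ≠ s0 ∨ ∃ y < s, y ∈ H ∧ s0 < y ∧ b m y = (Nat.unpair (cn Y b m k s y)).1)

theorem okk_mono {ap : ℕ → ℕ → ℕ → Prop} {Y : ℕ → ℕ → ℕ → ℕ} {m k s i : ℕ} (h : okk ap Y m k s)
    (hi : i ≤ k) : okk ap Y m i s :=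
  ⟨hi.trans h.1, fun j hj => h.2 j (by omega)⟩

namespace ColSpec
variable {ap fi : ℕ → ℕ → ℕ → Prop} {St Y : ℕ → ℕ → ℕ → ℕ} {b : ℕ → ℕ → ℕ}
  (C : ColSpec ap fi St Y b) {m : ℕ}
include C

theorem St_ok {k s : ℕ} (h : okk ap Y m k s) : St m k (s + 1) = St m k s := by
  rw [C.StS, nextSt, ITE_pos h]

theorem St_nok {k s : ℕ} (h : ¬ okk ap Y m k s) : St m k (s + 1) = s + 1 := by
  rw [C.StS, nextSt, ITE_neg h]

theorem Y_nok {k s : ℕ} (h : ¬ okk ap Y m k s) : Y m k (s + 1) = 0 := by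
  rw [C.YS, nextY, ITE_neg h]

theorem Y_keep {k s : ℕ} (h : okk ap Y m k s) (h1 : Y m k s ≠ 0) (h2 : ap m (Y m k s - 1) s) :
    Y m k (s + 1) = Y m k s := by
  rw [C.YS, nextY, ITE_pos h, ITE_pos h1, ITE_pos h2]

theorem Y_drop {k s : ℕ} (h : okk ap Y m k s) (h1 : Y m k s ≠ 0) (h2 : ¬ ap m (Y m k s - 1) s) :
    Y m k (s + 1) = 0 := by
  rw [C.YS, nextY, ITE_pos h, ITE_pos h1, ITE_neg h2]

theorem Y_new {k s : ℕ} (h : okk ap Y m k s) (h1 : Y m k s = 0) :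
    Y m k (s + 1) = bs s (cand ap fi St Y b m k s) := by
  rw [C.YS, nextY, ITE_pos h, ITE_neg (not_not.2 h1)]

theorem St_le (k s : ℕ) : St m k s ≤ s := by
  induction s with
  | zero => rw [C.St0]
  | succ s ih =>
    by_cases h : okk ap Y m k s
    · rw [C.St_ok h]; omega
    · rw [C.St_nok h]

theorem St_mono (k : ℕ) {s s' : ℕ} (h : s ≤ s') : St m k s ≤ St m k s' := by
  induction h with
  | refl => rfl
  | @step s' _ ih =>
    have := C.St_le (m := m) k s'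
    by_cases h : okk ap Y m k s'
    · rw [C.St_ok h]; omega
    · rw [C.St_nok h]; omega

theorem St_self (k s : ℕ) : St m k (St m k s) = St m k s := by
  induction s with
  | zero => rw [C.St0, C.St0]
  | succ s ih =>
    by_cases h : okk ap Y m k s
    · rw [C.St_ok h, ih]
    · rw [C.St_nok h, C.St_nok h]

theorem St_ge (k : ℕ) : k ≤ St m k k := by
  cases k with
  | zero => omega
  | succ k => rw [C.St_nok (fun h => by have := h.1; omega)]

theorem Y_cases {k s y : ℕ} (h : Y m k (s + 1) = y + 1) : okk ap Y m k s ∧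
    ((Y m k s = y + 1 ∧ ap m y s) ∨ (y < s ∧ cand ap fi St Y b m k s y)) := by
  by_cases h0 : okk ap Y m k s
  · refine ⟨h0, ?_⟩
    by_cases h1 : Y m k s = 0
    · rw [C.Y_new h0 h1] at h
      exact Or.inr (bs_spec h)
    · by_cases h2 : ap m (Y m k s - 1) s
      · rw [C.Y_keep h0 h1 h2] at h
        rw [h] at h2
        exact Or.inl ⟨h, h2⟩
      · rw [C.Y_drop h0 h1 h2] at h
        omega
  · rw [C.Y_nok h0] at h
    omega

theorem Y_le (k s : ℕ) : Y m k s ≤ s := by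
  induction s with
  | zero => rw [C.Y0]
  | succ s ih =>
    rcases h : Y m k (s + 1) with _ | y
    · omega
    · rcases (C.Y_cases h).2 with h1 | h1
      · omega
      · omega

theorem Y_low {k s i : ℕ} (h : okk ap Y m k s) (hi : i < k) : Y m i (s + 1) = Y m i s :=
  C.Y_keep (okk_mono h hi.le) (h.2 i hi).1 (h.2 i hi).2

theorem cn_low {k s : ℕ} (h : okk ap Y m k s) (y : ℕ) :
    cn Y b m k (s + 1) y = cn Y b m k s y := by
  refine cnt_congr fun i hi => ?_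
  have := C.Y_le (m := m) i s
  rw [C.Y_low h hi]
  exact and_congr_right fun _ => and_congr_left fun _ => by omega

theorem inv {k s y : ℕ} (h : Y m k s = y + 1) : St m k s < y ∧ y < s ∧
    b m y = (Nat.unpair (cn Y b m k s y)).1 ∧ ∃ t, y < t ∧ fi m (cd m k (St m k s)) t := by
  induction s with
  | zero => rw [C.Y0] at h; omega
  | succ s ih =>
    obtain ⟨h0, h1⟩ := C.Y_cases h
    rw [C.St_ok h0, C.cn_low h0]
    rcases h1 with ⟨h1, _⟩ | ⟨h1, h2, ⟨t, _, h3⟩, _, h4⟩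
    · obtain ⟨e1, e2, e3, e4⟩ := ih h1
      exact ⟨e1, by omega, e3, e4⟩
    · exact ⟨h2, by omega, h4, t, h3⟩

theorem stab {k s0 : ℕ} (h : ∀ s ≥ s0, okk ap Y m k s) {s : ℕ} (hs : s0 ≤ s) :
    St m k s = St m k s0 ∧ ∀ y, cn Y b m k s y = cn Y b m k s0 y := by
  induction hs with
  | refl => simp
  | @step s hs ih =>
    rw [C.St_ok (h s hs)]
    exact ⟨ih.1, fun y => by rw [C.cn_low (h s hs), ih.2]⟩

theorem ok_of_St {k s0 : ℕ} (h : ∀ s ≥ s0, St m k s = s0) : ∀ s ≥ s0, okk ap Y m k s := by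
  intro s hs
  by_contra hc
  have := C.St_nok hc
  rw [h (s + 1) (by omega)] at this
  omega

theorem true_elt {H : Set ℕ} {k s0 T S : ℕ} (h : ∀ s ≥ s0, St m k s = s0)
    (hT : ∀ s, fi m (cd m k s0) s → s < T) (hS : s0 ≤ S)
    (hap : ∀ s ≥ S, ∀ y < T, (ap m y s ↔ y ∈ H)) {s y : ℕ} (hs : S ≤ s)
    (hy : Y m k (s + 1) = y + 1) : y < T ∧ y ∈ H := by
  obtain ⟨_, _, _, t, h1, h2⟩ := C.inv hy
  rw [h _ (by omega)] at h2
  have h3 := hT t h2
  refine ⟨by omega, (hap s hs y (by omega)).1 ?_⟩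
  rcases (C.Y_cases hy).2 with h4 | h4
  · exact h4.2
  · exact h4.2.2.2.1

theorem total {H : Set ℕ} (hH : H.Infinite) (hap : ∀ y, ∀ᶠ s in atTop, (ap m y s ↔ y ∈ H))
    (hfi : ∀ n, ∃ T, ∀ s, fi m n s → s < T) (k s0 : ℕ) : ∃ s, QC H St Y b m k s0 s := by
  by_contra hc
  push Not at hc
  have h1 : ∀ s ≥ s0, St m k s = s0 := by
    intro s hs
    by_contra h
    exact hc s ⟨hs, Or.inl h⟩
  have hok := C.ok_of_St h1
  obtain ⟨T, hT⟩ := hfi (cd m k s0)
  obtain ⟨S, hS⟩ := eventually_atTop.1 ((ev_ball T fun y _ => hap y).and (eventually_ge_atTop s0))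
  have hS0 : s0 ≤ S := (hS S le_rfl).2
  have h2 : ∀ s ≥ S, Y m k (s + 1) = 0 := by
    intro s hs
    rcases h : Y m k (s + 1) with _ | y
    · rfl
    · exfalso
      obtain ⟨_, h3⟩ := C.true_elt h1 hT hS0 (fun s hs => (hS s hs).1) hs h
      obtain ⟨e1, e2, e3, _⟩ := C.inv h
      rw [h1 _ (by omega)] at e1
      exact hc (s + 1) ⟨by omega, Or.inr ⟨y, e2, h3, e1, e3⟩⟩
  obtain ⟨y, hy, hy'⟩ := hH.exists_gt (S + 2)
  have hk := (hok s0 le_rfl).1
  have h3 : cn Y b m y y y = cn Y b m k y y := by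
    refine cnt_stab (by omega) fun i h4 _ h5 => h5.1 ?_
    obtain ⟨s, rfl⟩ : ∃ s, y = s + 2 := ⟨y - 2, by omega⟩
    rcases Nat.eq_or_lt_of_le h4 with h6 | h6
    · rw [← h6]; exact h2 (s + 1) (by omega)
    · exact C.Y_nok fun h7 => (h7.2 k h6).1 (h2 s (by omega))
  refine hc (y + 1) ⟨by omega, Or.inr ⟨y, by omega, hy, by omega, ?_⟩⟩
  rw [C.bS, h3, C.cn_low (hok y (by omega))]

theorem level {H : Set ℕ} (hap : ∀ y, ∀ᶠ s in atTop, (ap m y s ↔ y ∈ H))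
    (hfi : ∀ n, ∃ T, ∀ s, fi m n s → s < T)
    (hdom : ∀ k s0, ∃ s t, s ≤ t ∧ QC H St Y b m k s0 s ∧ fi m (cd m k s0) t) {k : ℕ}
    (hk : ∀ᶠ s in atTop, okk ap Y m k s) : ∃ y ∈ H, ∀ᶠ s in atTop, Y m k s = y + 1 := by
  obtain ⟨S0, hS0⟩ := eventually_atTop.1 hk
  have h1 : ∀ s ≥ St m k S0, St m k s = St m k S0 := by
    intro s hs
    rcases Nat.le_total s S0 with h | h
    · have e1 := C.St_mono (m := m) k hs
      have e2 := C.St_mono (m := m) k h
      rw [C.St_self] at e1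
      omega
    · exact (C.stab hS0 h).1
  generalize St m k S0 = s0 at h1
  have hok := C.ok_of_St h1
  obtain ⟨T, hT⟩ := hfi (cd m k s0)
  obtain ⟨S, hS⟩ := eventually_atTop.1 ((ev_ball T fun y _ => hap y).and
    ((eventually_ge_atTop s0).and (eventually_ge_atTop T)))
  have hS0 : s0 ≤ S := (hS S le_rfl).2.1
  have hST : T ≤ S := (hS S le_rfl).2.2
  obtain ⟨s1, t, h2, ⟨h3, h4⟩, h5⟩ := hdom k s0
  obtain ⟨z, h6, h7, h8, h9⟩ := h4.resolve_left (not_not.2 (h1 s1 h3))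
  have htT := hT t h5
  have h10 : ∃ s ≥ S, Y m k (s + 1) ≠ 0 := by
    by_cases h : Y m k (S + 1) = 0
    · refine ⟨S + 1, by omega, ?_⟩
      rw [C.Y_new (hok _ (by omega)) h]
      refine bs_ne_zero (y := z) (by omega) ⟨?_, ⟨t, by omega, by omega, ?_⟩, ?_, ?_⟩
      · rw [h1 _ (by omega)]; exact h8
      · rw [h1 _ (by omega)]; exact h5
      · exact ((hS _ (by omega)).1 z (by omega)).2 h7
      · rw [h9, (C.stab hok h3).2, (C.stab hok (show s0 ≤ S + 1 by omega)).2]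
    · exact ⟨S, le_rfl, h⟩
  obtain ⟨s, hs, h11⟩ := h10
  obtain ⟨y, hy⟩ := Nat.exists_eq_succ_of_ne_zero h11
  obtain ⟨h12, h13⟩ := C.true_elt h1 hT hS0 (fun s hs => (hS s hs).1) hs hy
  refine ⟨y, h13, eventually_atTop.2 ⟨s + 1, fun s' hs' => ?_⟩⟩
  induction hs' with
  | refl => exact hy
  | @step s' hs' ih =>
    have hs'' : s + 1 ≤ s' := hs'
    rw [C.Y_keep (hok s' (by omega)) (by omega) (by
      rw [ih]; exact ((hS s' (by omega)).1 y h12).2 h13), ih]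

theorem levels {H : Set ℕ} (hap : ∀ y, ∀ᶠ s in atTop, (ap m y s ↔ y ∈ H))
    (hfi : ∀ n, ∃ T, ∀ s, fi m n s → s < T)
    (hdom : ∀ k s0, ∃ s t, s ≤ t ∧ QC H St Y b m k s0 s ∧ fi m (cd m k s0) t) (k : ℕ) :
    ∃ y ∈ H, ∀ᶠ s in atTop, Y m k s = y + 1 := by
  induction k using Nat.strong_induction_on with
  | _ k ih =>
    apply C.level hap hfi hdom
    have : ∀ i < k, ∀ᶠ s in atTop, Y m i s ≠ 0 ∧ ap m (Y m i s - 1) s := by
      intro i hi
      obtain ⟨y, hy, h⟩ := ih i hi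
      filter_upwards [h, hap y] with s h1 h2
      rw [h1]
      exact ⟨by omega, h2.2 hy⟩
    filter_upwards [eventually_ge_atTop k, ev_ball k this] with s h1 h2 using ⟨h1, h2⟩

theorem colors {H : Set ℕ} (hap : ∀ y, ∀ᶠ s in atTop, (ap m y s ↔ y ∈ H))
    (hfi : ∀ n, ∃ T, ∀ s, fi m n s → s < T)
    (hdom : ∀ k s0, ∃ s t, s ≤ t ∧ QC H St Y b m k s0 s ∧ fi m (cd m k s0) t) :
    ∃ a, ∀ j N, ∃ y ∈ H, N ≤ y ∧ same b m y a ∧ b m y = j := by
  classical
  choose y hyH hy using C.levels hap hfi hdom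
  have h1 : ∀ k, k < y k ∧ b m (y k) = (Nat.unpair (cnt k fun i => same b m (y i) (y k))).1 := by
    intro k
    obtain ⟨s, h2, h3, h4⟩ := ((hy k).and ((ev_ball k fun i _ => hy i).and
      (eventually_ge_atTop k))).exists
    obtain ⟨e1, _, e3, _⟩ := C.inv h2
    have e4 := C.St_ge (m := m) k
    have e5 := C.St_mono (m := m) k h4
    refine ⟨by omega, ?_⟩
    rw [e3, cn]
    congr 2
    refine cnt_congr fun i hi => ?_
    have := C.Y_le (m := m) i s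
    rw [h3 i hi] at this ⊢
    simp [this]
  let σ : ℕ → Fin m → Fin 2 := fun k i => ⟨bt (b i (y k)) m, bt_lt _ _⟩
  have hσ : ∀ i k, same b m (y i) (y k) ↔ σ i = σ k := by
    intro i k
    constructor
    · intro h
      funext m'
      exact Fin.ext (h m' m'.2)
    · intro h m' hm'
      exact congrArg Fin.val (congrFun h ⟨m', hm'⟩)
  obtain ⟨v, hv⟩ := Finite.exists_infinite_fiber σ
  have hinf : {k | σ k = v}.Infinite := Set.infinite_coe_iff.1 hv
  obtain ⟨k0, hk0⟩ := hinf.nonempty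
  refine ⟨y k0, fun j N => ?_⟩
  let k := Nat.nth (fun k => σ k = v) (Nat.pair j N)
  have hk : σ k = v := Nat.nth_mem_of_infinite hinf _
  have hk2 : Nat.pair j N ≤ k := (Nat.nth_strictMono hinf).id_le _
  have hk3 := Nat.right_le_pair j N
  refine ⟨y k, hyH k, by have := (h1 k).1; omega, (hσ _ _).2 (hk.trans hk0.symm), ?_⟩
  rw [(h1 k).2, cnt_congr (q := fun i => σ i = v) (fun i _ => by rw [hσ, hk]), cnt_eq_count]
  have := Nat.count_nth_of_infinite hinf (Nat.pair j N)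
  have h5 : @Nat.count (fun i => σ i = v) (fun a => Classical.propDecidable _) k =
      Nat.pair j N := by
    rw [← this]
    congr
  rw [h5, Nat.unpair_pair]

end ColSpec

end Pool.Agent.Lib.MP_774a52_lc
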