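import Pool.Agent.Lib.MP_774a52_lc.Wit

namespace Pool.Agent.Lib.MP_774a52_lc

open Filter

/-- A limit-computable set meeting, and not containing, every infinite set `H` with
`H` computable from the halting set and `H''` computable from `0''`. -/
theorem core : ∃ (A : ℕ × ℕ → Prop) (L : ℕ → Prop), Sg 0 A ∧
    (∀ y, ∀ᶠ s in atTop, (A (y, s) ↔ L y)) ∧ ∀ H : Set ℕ, H.Infinite →
      TuringReducible (chi H) (chi (jump ∅)) →
      TuringReducible (chi (jump (jump H))) (chi (jump (jump ∅))) →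
      (∃ y ∈ H, L y) ∧ ∃ y ∈ H, ¬ L y := by
  let side : ℕ → ℕ := fun m => (Nat.unpair (Nat.unpair m).1).1
  let ap : ℕ → ℕ → ℕ → Prop := fun m => apU (Nat.unpair (Nat.unpair (Nat.unpair m).1).2).1
  let fi : ℕ → ℕ → ℕ → Prop := fun m => fiU (Nat.unpair (Nat.unpair (Nat.unpair m).1).2).2
  have h1 := apU_sg
  have h2 := fiU_sg
  have hap : Sg 0 fun z : ℕ × ℕ × ℕ => ap z.1 z.2.1 z.2.2 := by simp only [ap]; fun_prop
  have hfi : Sg 0 fun z : ℕ × ℕ × ℕ => fi z.1 z.2.1 z.2.2 := by simp only [fi]; fun_prop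
  have hside : Primrec side := by simp only [side]; fun_prop
  obtain ⟨St, Y, b, hSt, hY, hb, C⟩ := exists_col hap hfi
  obtain ⟨inc, rnd, hinc, hrnd, W⟩ := exists_work hfi
  refine ⟨_, AA (rigidL fi inc rnd) b rnd side, AA_sg hfi hb hinc hrnd hside,
    fun y => W.AA_lim b side y, fun H hH h3 h4 => ?_⟩
  obtain ⟨e1, e2, hl, hfin, hdom⟩ := dom h3 h4
  have key : ∀ i : ℕ, ∃ y ∈ H, (AA (rigidL fi inc rnd) b rnd side y ↔ i = 0) := by
    intro i
    let β := Nat.pair i (Nat.pair e1 e2)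
    have eap : ∀ m, (Nat.unpair m).1 = β → ap m = apU e1 := by
      intro m hm; simp only [ap, hm, β, Nat.unpair_pair]
    have efi : ∀ m, (Nat.unpair m).1 = β → fi m = fiU e2 := by
      intro m hm; simp only [fi, hm, β, Nat.unpair_pair]
    let P1 : ℕ × ℕ × List ℕ → Prop := fun z => (Nat.unpair (Nat.unpair z.1).1).1 ≠ β ∨
      ((Nat.unpair (Nat.unpair z.1).2).2 ≤ z.2.1 ∧
        (St (Nat.unpair z.1).1 (Nat.unpair (Nat.unpair z.1).2).1 z.2.1 ≠
          (Nat.unpair (Nat.unpair z.1).2).2 ∨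
        BEx z.2.1 fun y => z.2.2.getD y 0 = 1 ∧ (Nat.unpair (Nat.unpair z.1).2).2 < y ∧
          b (Nat.unpair z.1).1 y = (Nat.unpair (cn Y b (Nat.unpair z.1).1
            (Nat.unpair (Nat.unpair z.1).2).1 z.2.1 y)).1))
    have hP1 : Sg 0 P1 := by
      simp only [P1]
      unfold cn same
      fun_prop
    have eP1 : ∀ n s, P1 (n, s, tab H s) ↔ ((Nat.unpair (Nat.unpair n).1).1 ≠ β ∨
        QC H St Y b (Nat.unpair n).1 (Nat.unpair (Nat.unpair n).2).1
          (Nat.unpair (Nat.unpair n).2).2 s) := by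
      intro n s
      refine or_congr Iff.rfl (and_congr Iff.rfl (or_congr Iff.rfl (BEx_congr fun y hy => ?_)))
      exact and_congr_left fun _ => tab_getD_one H hy
    obtain ⟨N, hN⟩ := hdom P1 hP1 (fun n => by
      simp only [eP1]
      by_cases hn : (Nat.unpair (Nat.unpair n).1).1 = β
      · obtain ⟨s, hs⟩ := C.total (m := (Nat.unpair n).1) hH (by rw [eap _ hn]; exact hl)
          (by rw [efi _ hn]; exact hfin) (Nat.unpair (Nat.unpair n).2).1
          (Nat.unpair (Nat.unpair n).2).2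
        exact ⟨s, Or.inr hs⟩
      · exact ⟨0, Or.inl hn⟩)
    obtain ⟨m, hm, hmN⟩ : ∃ m, (Nat.unpair m).1 = β ∧ N ≤ m :=
      ⟨Nat.pair β N, by rw [Nat.unpair_pair], Nat.right_le_pair _ _⟩
    obtain ⟨a, ha⟩ := C.colors (m := m) (H := H) (by rw [eap _ hm]; exact hl)
      (by rw [efi _ hm]; exact hfin) (fun k s0 => by
        obtain ⟨s, t, e1, e2, e3⟩ := hN (cd m k s0) (hmN.trans (Nat.left_le_pair _ _))
        rw [eP1] at e2
        simp only [cd, Nat.unpair_pair] at e2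
        exact ⟨s, t, e1, e2.resolve_left (not_not.2 hm), by rw [efi _ hm]; exact e3⟩)
    let P2 : ℕ × ℕ × List ℕ → Prop := fun z =>
      ¬ (blk (Nat.unpair z.1).1 = m ∧ ter (Nat.unpair z.1).1 = a) ∨
      ((Nat.unpair z.1).2 ≤ z.2.1 ∧ BAll (2 ^ rnd (Nat.unpair z.1).1 z.2.1) fun j =>
        BEx z.2.1 fun y => z.2.2.getD y 0 = 1 ∧ rnd (Nat.unpair z.1).1 z.2.1 ≤ y ∧
          same b (blk (Nat.unpair z.1).1) y (ter (Nat.unpair z.1).1) ∧
          b (blk (Nat.unpair z.1).1) y = j)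
    have hP2 : Sg 0 P2 := by
      simp only [P2]
      unfold same blk ter
      fun_prop
    have eP2 : ∀ n s, P2 (n, s, tab H s) ↔
        (¬ (blk (Nat.unpair n).1 = m ∧ ter (Nat.unpair n).1 = a) ∨
          QW H b rnd (Nat.unpair n).1 (Nat.unpair n).2 s) := by
      intro n s
      refine or_congr Iff.rfl (and_congr Iff.rfl (BAll_congr fun j _ => BEx_congr fun y hy => ?_))
      exact and_congr_left fun _ => tab_getD_one H hy
    obtain ⟨N2, hN2⟩ := hdom P2 hP2 (fun n => by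
      simp only [eP2]
      by_cases hn : blk (Nat.unpair n).1 = m ∧ ter (Nat.unpair n).1 = a
      · obtain ⟨s, hs⟩ := W.QW_total (H := H) (b := b) (w := (Nat.unpair n).1)
          (by rw [hn.1, efi _ hm]; exact hfin) (by rw [hn.1, hn.2]; exact ha) (Nat.unpair n).2
        exact ⟨s, Or.inr hs⟩
      · exact ⟨0, Or.inl hn⟩)
    obtain ⟨w, hw1, hw2, hw3⟩ : ∃ w, blk w = m ∧ ter w = a ∧ N2 ≤ w :=
      ⟨Nat.pair m (Nat.pair a N2), by simp [blk], by simp [ter],
        (Nat.right_le_pair _ _).trans (Nat.right_le_pair _ _)⟩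
    obtain ⟨y, hy, h5⟩ := W.win (H := H) (b := b) (side := side) (w := w)
      (by rw [hw1, efi _ hm]; exact hfin) (fun s0 _ => by
        obtain ⟨s, t, e1, e2, e3⟩ := hN2 (Nat.pair w s0) (hw3.trans (Nat.left_le_pair _ _))
        rw [eP2] at e2
        simp only [Nat.unpair_pair] at e2
        exact ⟨s, t, e1, e2.resolve_left (not_not.2 ⟨hw1, hw2⟩), by
          rw [hw1, efi _ hm]; exact e3⟩)
    refine ⟨y, hy, ?_⟩
    rw [h5, hw1]
    simp only [side, hm, β, Nat.unpair_pair]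
  obtain ⟨y0, hy0, h0⟩ := key 0
  obtain ⟨y1, hy1, h1⟩ := key 1
  exact ⟨⟨y0, hy0, h0.2 rfl⟩, y1, hy1, fun h => by simpa using h1.1 h⟩

end Pool.Agent.Lib.MP_774a52_lc
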