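import Mathlib.Computability.TuringDegree

/-! Oracle programs, their Goedel numbers, and the Turing jump. -/

namespace Pool.Agent.Lib.MP_774a52_lc

/-- Programs for oracle computations: one constructor for each clause of Mathlib's
`Nat.RecursiveIn`. -/
inductive OCode : Type
  | zero : OCode
  | succ : OCode
  | left : OCode
  | right : OCode
  | oracle : OCode
  | pair : OCode → OCode → OCode
  | comp : OCode → OCode → OCode
  | prec : OCode → OCode → OCode
  | rfind : OCode → OCode

/-- The function computed by a program with oracle `O`. -/
def OCode.eval (O : ℕ →. ℕ) : OCode → ℕ →. ℕ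
  | .zero => fun _ => Part.some 0
  | .succ => fun n => Part.some (n + 1)
  | .left => fun n => Part.some (Nat.unpair n).1
  | .right => fun n => Part.some (Nat.unpair n).2
  | .oracle => O
  | .pair f g => fun n => (f.eval O n).bind fun a => (g.eval O n).map fun b => Nat.pair a b
  | .comp f g => fun n => (g.eval O n).bind (f.eval O)
  | .prec f g => fun p => Nat.rec (motive := fun _ => Part ℕ) (f.eval O (Nat.unpair p).1)
      (fun y ih => ih.bind fun i => g.eval O (Nat.pair (Nat.unpair p).1 (Nat.pair y i)))
      (Nat.unpair p).2
  | .rfind f => fun a => Nat.rfind fun n => (f.eval O (Nat.pair a n)).map fun m => decide (m = 0)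

/-- The Goedel number of a program (a bijection onto the natural numbers). -/
def OCode.enc : OCode → ℕ
  | .zero => 0
  | .succ => 1
  | .left => 2
  | .right => 3
  | .oracle => 4
  | .pair f g => 4 * Nat.pair f.enc g.enc + 5
  | .comp f g => 4 * Nat.pair f.enc g.enc + 6
  | .prec f g => 4 * Nat.pair f.enc g.enc + 7
  | .rfind f => 4 * f.enc + 8

open Classical in
/-- The characteristic function of a set of natural numbers. -/
noncomputable def chi (X : Set ℕ) : ℕ →. ℕ := fun n => Part.some (if n ∈ X then 1 else 0)

/-- The Turing jump: the numbers `e` such that program number `e`, with oracle `X`, halts on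
input `e`. -/
def jump (X : Set ℕ) : Set ℕ := {e | ∃ c : OCode, c.enc = e ∧ (c.eval (chi X) e).Dom}

end Pool.Agent.Lib.MP_774a52_lc
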