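import Pool.Agent.Lib.MP_774a52_lc.Jump

/-! Basic facts on the Turing jump. -/

namespace Pool.Agent.Lib.MP_774a52_lc.High

open Filter

theorem S1_prim {X : Set ℕ} {p : ℕ → Prop} (hp : S1 X p) :
    ∃ g : ℕ → ℕ, RI (chi X) g ∧ ∀ a, p a ↔ ∃ w, g (Nat.pair a w) = 0 := by
  obtain ⟨R, hR, h⟩ := hp
  obtain ⟨q, hq, hq'⟩ := hR.exists_prim
  have h1 : RI (chi X) (fun z => Nat.pair z
      (Encodable.encode (tab X (Nat.unpair (Nat.unpair z).2).1))) :=
    (RI.of_prim Primrec.id).pair ((tab_RI X).comp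
      (RI.of_prim (g := fun z => (Nat.unpair (Nat.unpair z).2).1) (by fun_prop)))
  have h2 := (RI.of_prim (O := chi X) (g := fun w => ITE (q (((Nat.unpair (Nat.unpair w).1).1,
    decL (Nat.unpair w).2), (Nat.unpair (Nat.unpair (Nat.unpair w).1).2).2)) 0 1)
    (by fun_prop)).comp h1
  refine ⟨_, h2, fun a => ?_⟩
  simp only [h, Nat.unpair_pair, decL_encode, hq']
  constructor
  · rintro ⟨u, k, hk⟩
    exact ⟨Nat.pair u k, by simp [ITE_pos hk]⟩
  · rintro ⟨w, hw⟩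
    refine ⟨(Nat.unpair w).1, (Nat.unpair w).2, ?_⟩
    by_contra hn
    simp [ITE_neg hn] at hw

theorem le_of_S1 {A Y : Set ℕ} (h1 : S1 Y fun n => n ∈ A) (h0 : S1 Y fun n => n ∉ A) :
    TuringReducible (chi A) (chi Y) := by
  classical
  obtain ⟨g1, hg1, e1⟩ := S1_prim h1
  obtain ⟨g0, hg0, e0⟩ := S1_prim h0
  have h2 : RI (chi Y) fun z => g1 z * g0 z :=
    ((RI.of_prim (g := fun z => (Nat.unpair z).1 * (Nat.unpair z).2) (by fun_prop)).comp
      (hg1.pair hg0)).of_eq fun z => by simp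
  have hex : ∀ a, ∃ w, g1 (Nat.pair a w) * g0 (Nat.pair a w) = 0 := by
    intro a
    by_cases ha : a ∈ A
    · obtain ⟨w, hw⟩ := (e1 a).1 ha
      exact ⟨w, by simp [hw]⟩
    · obtain ⟨w, hw⟩ := (e0 a).1 ha
      exact ⟨w, by simp [hw]⟩
  have h3 : RI (chi Y) fun a => Nat.find (hex a) := by
    refine (Nat.RecursiveIn.rfind h2).of_eq fun a => ?_
    refine Part.eq_some_iff.2 (Nat.mem_rfind.2 ⟨?_, fun {m} hm => ?_⟩)
    · simpa using Nat.find_spec (hex a)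
    · simpa using Nat.find_min (hex a) hm
  have h4 := (RI.of_prim (O := chi Y) (g := fun z => 1 - z) (by fun_prop)).comp
    (hg1.comp ((RI.of_prim Primrec.id).pair h3))
  refine RecursiveIn.iff_nat.2 (Nat.RecursiveIn.of_eq h4 fun a => ?_)
  unfold chi
  congr 1
  have h5 := Nat.find_spec (hex a)
  simp only [id]
  by_cases ha : a ∈ A
  · have : g0 (Nat.pair a (Nat.find (hex a))) ≠ 0 := fun h => (e0 a).2 ⟨_, h⟩ ha
    rw [if_pos ha, (Nat.mul_eq_zero.1 h5).resolve_right this]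
  · have : g1 (Nat.pair a (Nat.find (hex a))) ≠ 0 := fun h => ha ((e1 a).2 ⟨_, h⟩)
    rw [if_neg ha]
    omega

theorem S1_ev {X : Set ℕ} {p : ℕ → Prop} (hp : S1 X p) :
    ∃ R : ℕ × List ℕ → Prop, Sg 1 R ∧ (∀ a u, R (a, tab X u) → p a) ∧
      ∀ a, p a → ∀ᶠ u in atTop, R (a, tab X u) := by
  obtain ⟨R, hR, h⟩ := hp
  refine ⟨fun z => BEx (z.2.length + 1) fun s => R (z.1, z.2.take s), by fun_prop, ?_, ?_⟩
  · rintro a u ⟨s, hs, h1⟩
    rw [tab_length] at hs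
    rw [tab_take X (by omega)] at h1
    exact (h a).2 ⟨s, h1⟩
  · intro a ha
    obtain ⟨s, hs⟩ := (h a).1 ha
    filter_upwards [eventually_ge_atTop s] with u hu
    exact ⟨s, by rw [tab_length]; omega, by beta_reduce; rwa [tab_take X hu]⟩

theorem S1_trans {X Y : Set ℕ} {p : ℕ → Prop} (hp : S1 X p) (h1 : S1 Y fun n => n ∈ X)
    (h0 : S1 Y fun n => n ∉ X) : S1 Y p := by
  obtain ⟨R, hR, h⟩ := hp
  obtain ⟨R1, hR1, s1, c1⟩ := S1_ev h1
  obtain ⟨R0, hR0, s0, c0⟩ := S1_ev h0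
  refine ⟨fun z => ∃ σ : List ℕ, R (z.1, σ) ∧ BAll σ.length fun i =>
    (σ.getD i 0 = 1 ∧ R1 (i, z.2)) ∨ (σ.getD i 0 = 0 ∧ R0 (i, z.2)), by fun_prop, fun a => ?_⟩
  rw [h]
  constructor
  · rintro ⟨s, hs⟩
    have h2 : ∀ᶠ u in atTop, ∀ i ∈ Finset.range s, ((tab X s).getD i 0 = 1 ∧ R1 (i, tab Y u)) ∨
        ((tab X s).getD i 0 = 0 ∧ R0 (i, tab Y u)) := by
      refine (Finset.eventually_all _).2 fun i hi => ?_
      rw [tab_getD X (Finset.mem_range.1 hi)]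
      by_cases h3 : i ∈ X
      · filter_upwards [c1 i h3] with u hu using Or.inl ⟨if_pos h3, hu⟩
      · filter_upwards [c0 i h3] with u hu using Or.inr ⟨if_neg h3, hu⟩
    obtain ⟨u, hu⟩ := h2.exists
    exact ⟨u, tab X s, hs, fun i hi => hu i (Finset.mem_range.2 (by rwa [tab_length] at hi))⟩
  · rintro ⟨u, σ, h2, h3⟩
    have h4 : IsTab X σ := fun i hi => (h3 i hi).imp (fun h => ⟨h.1, s1 _ _ h.2⟩)
      (fun h => ⟨h.1, s0 _ _ h.2⟩)
    rw [isTab_iff] at h4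
    exact ⟨σ.length, h4 ▸ h2⟩

theorem S1_self (X : Set ℕ) : S1 X (fun n => n ∈ X) ∧ S1 X (fun n => n ∉ X) :=
  S1_of_le TuringReducible.rfl

theorem jump_mono {A B : Set ℕ} (h : TuringReducible (chi A) (chi B)) :
    TuringReducible (chi (jump A)) (chi (jump B)) := by
  obtain ⟨r, hr, e⟩ := (S1_trans (jump_S1 A) (S1_of_le h).1 (S1_of_le h).2).red
  have e1 : (fun n => n ∈ jump A) = fun n => r n ∈ jump B := funext fun n => propext (e n)
  have e0 : (fun n => n ∉ jump A) = fun n => r n ∉ jump B :=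
    funext fun n => propext (not_congr (e n))
  exact le_of_S1 (e1 ▸ (S1_self _).1.comp hr) (e0 ▸ (S1_self _).2.comp hr)

theorem not_jump_le (X : Set ℕ) : ¬ TuringReducible (chi (jump X)) (chi X) := by
  intro h
  obtain ⟨g, hg, e⟩ := S1_prim (S1_of_le h).2
  obtain ⟨c, hc⟩ := exists_code.1 (Nat.RecursiveIn.rfind hg)
  have h1 : c.enc ∈ jump X ↔ (c.eval (chi X) c.enc).Dom :=
    ⟨fun ⟨d, hd, h2⟩ => enc_inj d c hd ▸ h2, fun h2 => ⟨c, rfl, h2⟩⟩
  have h2 := e c.enc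
  have h3 : (c.eval (chi X) c.enc).Dom ↔ ∃ w, g (Nat.pair c.enc w) = 0 := by
    rw [hc]
    beta_reduce
    rw [Nat.rfind_dom]
    simp
  rw [h1, h3] at h2
  exact iff_not_self h2.symm

theorem iter_mono {A B : Set ℕ} (h : TuringReducible (chi A) (chi B)) (n : ℕ) :
    TuringReducible (chi (jump^[n] A)) (chi (jump^[n] B)) := by
  induction n with
  | zero => exact h
  | succ n ih => rw [Function.iterate_succ_apply', Function.iterate_succ_apply']; exact jump_mono ih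

theorem not_low_of_high {H : Set ℕ}
    (h : TuringReducible (chi (jump (jump ∅))) (chi (jump H))) (n : ℕ) (hn : 1 ≤ n) :
    ¬ TuringEquivalent (chi (jump^[n] H)) (chi (jump^[n] ∅)) := by
  obtain ⟨n, rfl⟩ : ∃ m, n = m + 1 := ⟨n - 1, by omega⟩
  intro h1
  have h2 := (iter_mono h n).trans h1.1
  rw [← Function.iterate_succ_apply jump n (jump ∅), Function.iterate_succ_apply' jump n] at h2
  exact not_jump_le _ h2

theorem S1_jump {H : Set ℕ} {q : ℕ × ℕ → Prop} (hq : S1 H fun z => q (Nat.unpair z)) :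
    S1 (jump H) fun a => ∃ u, ¬ q (a, u) := by
  obtain ⟨r, hr, e⟩ := hq.red
  refine ⟨fun z => ∃ u : ℕ, r (Nat.pair z.1 u) < z.2.length ∧ z.2.getD (r (Nat.pair z.1 u)) 0 ≠ 1,
    by fun_prop, fun a => ⟨?_, ?_⟩⟩
  · rintro ⟨u, hu⟩
    refine ⟨r (Nat.pair a u) + 1, u, by simp [tab_length], ?_⟩
    rw [Ne, tab_getD_one _ (Nat.lt_succ_self _), ← e]
    simpa using hu
  · rintro ⟨t, u, h1, h2⟩
    rw [tab_length] at h1
    rw [Ne, tab_getD_one _ h1, ← e] at h2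
    exact ⟨u, by simpa using h2⟩

theorem S1_of_sg {H : Set ℕ} {p : ℕ → Prop} (hp : Sg 1 p) : S1 H p :=
  ⟨fun z => p z.1, by fun_prop, fun a => by simp⟩

end Pool.Agent.Lib.MP_774a52_lc.High
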