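import Pool.Agent.Lib.MP_774a52_lc.HighTwo
import Pool.Agent.Lib.MP_774a52_lc.HighJump

/-! A limit-computable set all of whose infinite limit-computable subsets, and those of its
complement, are high. -/

namespace Pool.Agent.Lib.MP_774a52_lc.High

open Filter

/-- the length, at most `y`, of the initial segment of `K` that is enumerated by stage `y` -/
noncomputable def len (k : ℕ × ℕ → Prop) (K : ℕ → Prop) (y : ℕ) : ℕ :=
  ls y fun x => K x ∧ ¬ BEx y fun v => k (x, v)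

theorem len_mono {k : ℕ × ℕ → Prop} {K : ℕ → Prop} {y y' : ℕ} (h : y ≤ y') :
    len k K y ≤ len k K y' := by
  refine le_ls ((ls_le _ _).trans h) fun i hi h1 => ls_not hi ⟨h1.1, ?_⟩
  rintro ⟨v, hv, h2⟩
  exact h1.2 ⟨v, by omega, h2⟩

theorem len_large {k : ℕ × ℕ → Prop} {K : ℕ → Prop} (hk : ∀ x, K x ↔ ∃ v, k (x, v)) (j : ℕ) :
    ∃ c, j ≤ len k K c := by
  have h1 : ∀ᶠ s in atTop, ∀ x < j, (K x → BEx s fun v => k (x, v)) := by
    refine ev_ball j fun x _ => ?_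
    by_cases hx : K x
    · filter_upwards [ev_bex ((hk x).1 hx)] with s hs _ using hs
    · exact Eventually.of_forall fun s h => absurd h hx
  obtain ⟨c, h2, h3⟩ := (h1.and (eventually_ge_atTop j)).exists
  exact ⟨c, le_ls h3 fun i hi h => h.2 (h2 i hi h.1)⟩

/-- chains of splittings -/
def Chain (f : ℕ → ℕ → ℕ) (i0 c : ℕ) (l : List (List ℕ × ℕ × ℕ)) (j : List ℕ × ℕ × ℕ) : Prop :=
  (j.2.1 = i0 ∧ j.2.2 = c) ∨ ∃ i t y y' : ℕ, (j.1, i, t) ∈ l ∧ j.2.1 = i + 1 ∧ t ≤ y ∧ t ≤ y' ∧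
    y ≤ j.2.2 ∧ y' ≤ j.2.2 ∧ j.1.getD y 0 = 1 ∧ j.1.getD y' 0 = 1 ∧ sg f y i ∧ ¬ sg f y' i

theorem tab_mem {H : Set ℕ} {u y : ℕ} (h : (tab H u).getD y 0 = 1) : y ∈ H := by
  rcases Nat.lt_or_ge y u with h1 | h1
  · exact (tab_getD_one H h1).1 h
  · rw [List.getD_eq_getElem?_getD, List.getElem?_eq_none (by rwa [tab_length])] at h
    simp at h

theorem halting_le {f : ℕ → ℕ → ℕ} (hfp : Primrec fun z : ℕ × ℕ => f z.1 z.2)
    {k : ℕ × ℕ → Prop} (hk0 : Sg 0 k) {K : ℕ → Prop} (hk : ∀ x, K x ↔ ∃ v, k (x, v))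
    {H : Set ℕ} (hom : ∀ y ∈ H, ∀ y' ∈ H, sg f y (len k K y) → sg f y' (len k K y')) {i0 : ℕ}
    (hsp : ∀ i ≥ i0, ∀ t, (∃ y ∈ H, t ≤ y ∧ sg f y i) ∧ ∃ y ∈ H, t ≤ y ∧ ¬ sg f y i) :
    S1 H fun x => ¬ K x := by
  obtain ⟨c, hc⟩ := len_large hk i0
  have hR : Sg 1 fun x : List (List ℕ × ℕ × ℕ) × (List ℕ × ℕ × ℕ) => Chain f i0 c x.1 x.2 := by
    have h1 : Sg 0 fun z : ℕ × ℕ => sg f z.1 z.2 := by
      unfold sg pos bet
      fun_prop
    have h2 : Sg 1 fun z : ℕ × ℕ => sg f z.1 z.2 := h1.lift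
    unfold Chain
    fun_prop
  have hG := Sg.gen hR
  have sound : ∀ j, Gen (Chain f i0 c) j → (∀ y, j.1.getD y 0 = 1 → y ∈ H) →
      j.2.1 ≤ len k K j.2.2 := by
    intro j hj
    induction hj with
    | mk l j _ hR ih =>
      intro hL
      rcases hR with ⟨h1, h2⟩ | ⟨i, t, y, y', h1, h2, h3, h4, h5, h6, h7, h8, h9, h10⟩
      · rw [h1, h2]; exact hc
      · have e0 : i ≤ len k K t := ih _ h1 hL
        have e1 := len_mono (k := k) (K := K) h3
        have e2 := len_mono (k := k) (K := K) h4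
        have e3 := len_mono (k := k) (K := K) h5
        have e4 := len_mono (k := k) (K := K) h6
        by_contra hn
        have e5 : len k K y = i := by omega
        have e6 : len k K y' = i := by omega
        exact h10 (e6 ▸ hom y (hL y h7) y' (hL y' h8) (e5 ▸ h9))
  have comp : ∀ n, ∃ t, ∀ᶠ u in atTop, Gen (Chain f i0 c) (tab H u, i0 + n, t) := by
    intro n
    induction n with
    | zero => exact ⟨c, Eventually.of_forall fun u => Gen.mk [] _ (by simp) (Or.inl ⟨rfl, rfl⟩)⟩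
    | succ n ih =>
      obtain ⟨t, ht⟩ := ih
      obtain ⟨⟨y, h1, h2, h3⟩, y', h4, h5, h6⟩ := hsp (i0 + n) (by omega) t
      refine ⟨y + y', ?_⟩
      filter_upwards [ht, eventually_gt_atTop (y + y')] with u hu hu'
      exact Gen.mk [(tab H u, i0 + n, t)] _ (by simpa using hu) (Or.inr ⟨i0 + n, t, y, y', by simp,
        rfl, h2, h5, by simp, by simp, (tab_getD_one H (by omega)).2 h1,
        (tab_getD_one H (by omega)).2 h4, h3, h6⟩)
  refine ⟨fun z => ∃ t : ℕ, Gen (Chain f i0 c) (z.2, i0 + (z.1 + 1), t) ∧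
    ¬ BEx t fun v => k (z.1, v), by fun_prop, fun x => ⟨fun hx => ?_, ?_⟩⟩
  · obtain ⟨t, ht⟩ := comp (x + 1)
    obtain ⟨u, hu⟩ := ht.exists
    refine ⟨u, t, hu, ?_⟩
    rintro ⟨v, _, hv⟩
    exact hx ((hk x).2 ⟨v, hv⟩)
  · rintro ⟨u, t, h1, h2⟩ hx
    have h3 := sound _ h1 fun y hy => tab_mem hy
    simp only at h3
    exact ls_not (show x < len k K t by omega) ⟨hx, h2⟩

theorem core : ∃ (A : ℕ × ℕ → Prop) (L : ℕ → Prop), Sg 0 A ∧
    (∀ y, ∀ᶠ s in atTop, (A (y, s) ↔ L y)) ∧ ∀ H : Set ℕ, H.Infinite →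
      (∀ y ∈ H, ∀ y' ∈ H, L y → L y') → TuringReducible (chi H) (chi (jump ∅)) →
      TuringReducible (chi (jump (jump ∅))) (chi (jump H)) := by
  have hK : Sg 1 fun n => n ∈ jump ∅ :=
    (jump_S1 ∅).sg ((Sg.const False).of_eq (by simp)) ((Sg.const True).of_eq (by simp))
  have hJ : Sg 2 fun n => n ∈ jump (jump ∅) := (jump_S1 _).sg hK.lift hK.not_succ
  obtain ⟨k, hk0, hk⟩ := hK.exists_prim
  obtain ⟨q, hq, eq⟩ := sg_succ.1 hJ
  obtain ⟨r, hr, er⟩ := hq.exists_prim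
  have hθ : Sg 0 fun z : ℕ × ℕ × ℕ => ¬ r ((z.1, z.2.1), z.2.2) := by fun_prop
  have eθ : ∀ x, x ∈ jump (jump ∅) ↔ ∃ w, ∀ v, ¬ r ((x, w), v) := fun x => by
    simp only [eq, er, not_exists]
  obtain ⟨f, hfp, hf⟩ := exists_table (θ := fun x w v => ¬ r ((x, w), v)) hθ
  refine ⟨fun z => sg f z.1 (len k (fun x => BEx z.2 fun v => k (x, v)) z.1),
    fun y => sg f y (len k (· ∈ jump ∅) y), ?_, fun y => ?_, fun H hH hom h1 => ?_⟩
  · unfold sg pos bet len
    fun_prop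
  · have h1 : ∀ᶠ s in atTop, ∀ x < y, ((BEx s fun v => k (x, v)) ↔ x ∈ jump ∅) := by
      refine ev_ball y fun x _ => ?_
      by_cases hx : x ∈ jump ∅
      · filter_upwards [ev_bex ((hk x).1 hx)] with s hs using iff_of_true hs hx
      · exact Eventually.of_forall fun s =>
          iff_of_false (fun ⟨v, _, hv⟩ => hx ((hk x).2 ⟨v, hv⟩)) hx
    filter_upwards [h1] with s hs
    have : len k (fun x => BEx s fun v => k (x, v)) y = len k (· ∈ jump ∅) y :=
      ls_congr fun x hx => and_congr_left fun _ => hs x hx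
    simp only [this]
  · by_cases hinf : {i | ∃ c, pos c = i ∧ ∀ t, ¬ rf f (· ∈ H) t c}.Infinite
    · have hH1 : Sg 2 fun n => n ∈ H := (S1_of_le h1).1.sg hK.lift hK.not_succ
      have hH0 : Sg 2 fun n => n ∉ H := (S1_of_le h1).2.sg hK.lift hK.not_succ
      obtain ⟨h, hh, hl⟩ := limit_lemma hH1 hH0
      obtain ⟨u, hu⟩ := exists_apU hh hl
      obtain ⟨q', hq', e'⟩ := co_S2 hθ hfp hf hH hu hinf
      have e1 : (fun n => n ∈ jump (jump ∅)) = fun n => ∃ u, ¬ q (n, u) :=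
        funext fun n => propext (eq n)
      have e0 : (fun n => n ∉ jump (jump ∅)) = fun n => ∃ u, ¬ q' (n, u) :=
        funext fun n => propext ((not_congr (eθ n)).trans (e' n))
      exact le_of_S1 (e1 ▸ S1_jump (S1_of_sg (by fun_prop))) (e0 ▸ S1_jump hq')
    · obtain ⟨b, hb⟩ := (Set.not_infinite.1 hinf).bddAbove
      have key : ∀ i ≥ b + 1, ∀ β t, ∃ y ∈ H, t ≤ y ∧
          ((sg f y i ∧ β = 0) ∨ (¬ sg f y i ∧ β ≠ 0)) := by
        intro i hi β t
        by_contra hc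
        have : i ≤ b := hb ⟨Nat.pair i (Nat.pair β t), by simp [pos], fun t' ⟨y, _, h2, h3, h4⟩ =>
          hc ⟨y, h3, by simp only [bnd, Nat.unpair_pair] at h2; omega, by
            simpa only [dis, pos, bet, Nat.unpair_pair] using h4⟩⟩
        omega
      refine jump_mono (le_of_S1 (S1_of_sg hK) (halting_le hfp hk0 hk hom (i0 := b + 1)
        fun i hi t => ⟨?_, ?_⟩))
      · simpa using key i hi 0 t
      · simpa using key i hi 1 t

end Pool.Agent.Lib.MP_774a52_lc.High
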