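import Pool.Agent.Lib.MP_774a52_lc.Dom

/-! The computable strings `σ s` used for the set all of whose limit-computable solutions are
high. -/

namespace Pool.Agent.Lib.MP_774a52_lc.High

open Filter

/-- bounded search: the least `y < n` with `p y`, or `n` -/
noncomputable def ls (n : ℕ) (p : ℕ → Prop) : ℕ := cnt n fun i => ¬ BEx (i + 1) p

@[fun_prop] theorem pr_ls {α : Type} [Primcodable α] {p : α → ℕ → Prop} {f : α → ℕ}
    (hf : Primrec f) (hp : Sg 0 fun x : α × ℕ => p x.1 x.2) :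
    Primrec (fun a => ls (f a) (p a)) := by
  unfold ls
  refine pr_cnt hf (Sg.not0 (Sg.bex (p := fun x : α × ℕ => p x.1) (by fun_prop) ?_))
  exact hp.comp (f := fun y : (α × ℕ) × ℕ => (y.1.1, y.2)) (by fun_prop)

theorem ls_spec (n : ℕ) (p : ℕ → Prop) :
    ls n p ≤ n ∧ (∀ j < ls n p, ¬ p j) ∧ (ls n p < n → p (ls n p)) := by
  induction n with
  | zero => simp [ls, cnt]
  | succ n ih =>
    obtain ⟨h1, h2, h3⟩ := ih
    have e : ls (n + 1) p = ls n p + ITE (¬ BEx (n + 1) p) 1 0 := cnt_succ _ _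
    by_cases h : BEx (n + 1) p
    · rw [ITE_neg (not_not.2 h), Nat.add_zero] at e
      rw [e]
      refine ⟨by omega, h2, fun _ => ?_⟩
      rcases Nat.lt_or_ge (ls n p) n with h4 | h4
      · exact h3 h4
      · obtain ⟨j, hj, hp⟩ := h
        have : j = ls n p := by
          by_contra hne
          exact h2 j (by omega) hp
        exact this ▸ hp
    · rw [ITE_pos h] at e
      have h4 : ls n p = n := by
        by_contra hne
        exact h ⟨_, by omega, h3 (by omega)⟩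
      rw [e, h4]
      exact ⟨le_rfl, fun j hj hp => h ⟨j, hj, hp⟩, fun h5 => absurd h5 (lt_irrefl _)⟩

theorem ls_le (n : ℕ) (p : ℕ → Prop) : ls n p ≤ n := (ls_spec n p).1

theorem ls_not {n j : ℕ} {p : ℕ → Prop} (h : j < ls n p) : ¬ p j := (ls_spec n p).2.1 j h

theorem ls_found {n j : ℕ} {p : ℕ → Prop} (hj : j < n) (hp : p j) :
    ls n p ≤ j ∧ p (ls n p) := by
  have h : ls n p ≤ j := by
    by_contra h
    exact ls_not (not_le.1 h) hp
  exact ⟨h, (ls_spec n p).2.2 (by omega)⟩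

theorem le_ls {n j : ℕ} {p : ℕ → Prop} (hj : j ≤ n) (hp : ∀ i < j, ¬ p i) : j ≤ ls n p := by
  by_contra h
  exact hp _ (not_le.1 h) ((ls_spec n p).2.2 (by omega))

theorem ls_congr {n : ℕ} {p q : ℕ → Prop} (h : ∀ y < n, (p y ↔ q y)) : ls n p = ls n q :=
  cnt_congr fun _ hy => not_congr (BEx_congr fun z hz => h z (by omega))

/-- position, bit and bound of a candidate -/
def pos (c : ℕ) : ℕ := (Nat.unpair c).1
def bet (c : ℕ) : ℕ := (Nat.unpair (Nat.unpair c).2).1
def bnd (c : ℕ) : ℕ := (Nat.unpair (Nat.unpair c).2).2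

/-- bit `i` of the string number `s`, given the table `f` of chosen candidates -/
def sg (f : ℕ → ℕ → ℕ) (s i : ℕ) : Prop :=
  BEx s fun e => pos (f s e) = i ∧ bet (f s e) = 0 ∧ BAll e fun e' => pos (f s e') ≠ i

/-- string number `y` disagrees with the candidate `c` -/
def dis (f : ℕ → ℕ → ℕ) (c y : ℕ) : Prop :=
  (sg f y (pos c) ∧ bet c = 0) ∨ (¬ sg f y (pos c) ∧ bet c ≠ 0)

/-- the candidate `c` is refuted by a member of `P` below `w` -/
def rf (f : ℕ → ℕ → ℕ) (P : ℕ → Prop) (w c : ℕ) : Prop :=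
  BEx w fun y => bnd c < y ∧ P y ∧ dis f c y

/-- the least witness not refuted at stage `s` -/
noncomputable def wt (θ : ℕ → ℕ → ℕ → Prop) (x s : ℕ) : ℕ :=
  ls s fun w => BAll s fun v => θ x w v

noncomputable def choice (θ : ℕ → ℕ → ℕ → Prop) (f : ℕ → ℕ → ℕ) (s e : ℕ) : ℕ :=
  ls s fun c => ¬ rf f (fun y => apU (Nat.unpair e).1 y s) (wt θ (Nat.unpair e).2 s) c ∧
    BAll e fun e' => pos (f s e') ≠ pos c

theorem sg_congr {f g : ℕ → ℕ → ℕ} {s : ℕ} (h : ∀ e < s, f s e = g s e) (i : ℕ) :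
    sg f s i ↔ sg g s i := by
  refine BEx_congr fun e he => ?_
  rw [h e he]
  refine and_congr_right fun _ => and_congr_right fun _ => BAll_congr fun e' he' => ?_
  rw [h e' (by omega)]

theorem rf_congr {f g : ℕ → ℕ → ℕ} {P Q : ℕ → Prop} {w : ℕ}
    (h : ∀ y < w, ∀ e < y, f y e = g y e) (h' : ∀ y < w, (P y ↔ Q y)) (c : ℕ) :
    rf f P w c ↔ rf g Q w c := by
  refine BEx_congr fun y hy => ?_
  unfold dis
  rw [h' y hy, sg_congr (h y hy)]

theorem rf_mono {f : ℕ → ℕ → ℕ} {P : ℕ → Prop} {w w' c : ℕ} (h : w ≤ w') (hr : rf f P w c) :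
    rf f P w' c := by
  obtain ⟨y, hy, h1⟩ := hr
  exact ⟨y, by omega, h1⟩

theorem exists_table {θ : ℕ → ℕ → ℕ → Prop}
    (hθ : Sg 0 fun z : ℕ × ℕ × ℕ => θ z.1 z.2.1 z.2.2) :
    ∃ f : ℕ → ℕ → ℕ, Primrec (fun z : ℕ × ℕ => f z.1 z.2) ∧ ∀ s e, f s e = choice θ f s e := by
  have hap := apU_sg
  obtain ⟨F, hF, hrec⟩ := exists_rec (α := ℕ × ℕ) (fun x => x.1 * x.1 + x.2)
    (fun l => Nat.pair l l + 1) (by fun_prop) (by fun_prop) (by
      rintro ⟨a, b⟩ l hl
      simp only at hl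
      have := Nat.le_mul_self a
      show Nat.pair a b < _
      exact Nat.lt_succ_of_le (pair_mono (by omega) (by omega))) (0, 0)
    (fun x g => choice θ (fun s e => g (s, e)) x.1 x.2) (by
      unfold choice wt rf dis sg pos bet bnd
      fun_prop) (by
      rintro ⟨s, e⟩ f g h
      simp only at h ⊢
      refine ls_congr fun c _ => and_congr (not_congr (rf_congr (fun y hy e' he' => ?_)
        (fun _ _ => Iff.rfl) c)) (BAll_congr fun e' he' => ?_)
      · have h1 : y < s := lt_of_lt_of_le hy (ls_le _ _)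
        refine h (y, e') ?_
        have : (y + 1) * (y + 1) ≤ s * s := Nat.mul_le_mul h1 h1
        simp only
        nlinarith
      · beta_reduce
        rw [h (s, e') (by simp only; omega)])
  exact ⟨fun s e => F (s, e), hF, fun s e => hrec (s, e)⟩

end Pool.Agent.Lib.MP_774a52_lc.High
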