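import Pool.Agent.Lib.MP_774a52_lc.Kit
import Pool.Agent.Lib.MP_774a52_lc.Defs

namespace Pool.Agent.Lib.MP_774a52_lc

open Filter

/-- Programs compute exactly the functions recursive in the oracle. -/
theorem exists_code {O f : ℕ →. ℕ} : Nat.RecursiveIn {O} f ↔ ∃ c : OCode, c.eval O = f := by
  constructor
  · intro h
    induction h with
    | zero => exact ⟨.zero, rfl⟩
    | succ => exact ⟨.succ, rfl⟩
    | left => exact ⟨.left, rfl⟩
    | right => exact ⟨.right, rfl⟩
    | oracle g hg => exact ⟨.oracle, (Set.mem_singleton_iff.1 hg).symm⟩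
    | pair _ _ h1 h2 =>
      obtain ⟨a, rfl⟩ := h1
      obtain ⟨b, rfl⟩ := h2
      refine ⟨.pair a b, funext fun n => ?_⟩
      simp [OCode.eval, Seq.seq, Part.bind_map]
    | comp _ _ h1 h2 =>
      obtain ⟨a, rfl⟩ := h1
      obtain ⟨b, rfl⟩ := h2
      exact ⟨.comp a b, rfl⟩
    | prec _ _ h1 h2 =>
      obtain ⟨a, rfl⟩ := h1
      obtain ⟨b, rfl⟩ := h2
      exact ⟨.prec a b, rfl⟩
    | rfind _ h1 =>
      obtain ⟨a, rfl⟩ := h1
      exact ⟨.rfind a, rfl⟩
  · rintro ⟨c, rfl⟩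
    induction c with
    | zero => exact .zero
    | succ => exact .succ
    | left => exact .left
    | right => exact .right
    | oracle => exact .oracle _ rfl
    | pair a b h1 h2 =>
      refine (Nat.RecursiveIn.pair h1 h2).of_eq fun n => ?_
      simp [OCode.eval, Seq.seq, Part.bind_map]
    | comp a b h1 h2 => exact .comp h1 h2
    | prec a b h1 h2 => exact .prec h1 h2
    | rfind a h1 => exact .rfind h1

theorem enc_surj (n : ℕ) : ∃ c : OCode, c.enc = n := by
  induction n using Nat.strong_induction_on with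
  | _ n ih =>
    by_cases h : n < 5
    · interval_cases n
      exacts [⟨.zero, rfl⟩, ⟨.succ, rfl⟩, ⟨.left, rfl⟩, ⟨.right, rfl⟩, ⟨.oracle, rfl⟩]
    · have h1 := Nat.unpair_left_le ((n - 5) / 4)
      have h2 := Nat.unpair_right_le ((n - 5) / 4)
      obtain ⟨a, ha⟩ := ih (Nat.unpair ((n - 5) / 4)).1 (by omega)
      obtain ⟨b, hb⟩ := ih (Nat.unpair ((n - 5) / 4)).2 (by omega)
      obtain ⟨c, hc⟩ := ih ((n - 5) / 4) (by omega)
      have h3 : Nat.pair a.enc b.enc = (n - 5) / 4 := by rw [ha, hb, Nat.pair_unpair]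
      have h4 : (n - 5) % 4 = 0 ∨ (n - 5) % 4 = 1 ∨ (n - 5) % 4 = 2 ∨ (n - 5) % 4 = 3 := by omega
      rcases h4 with h4 | h4 | h4 | h4
      · exact ⟨.pair a b, by simp only [OCode.enc]; omega⟩
      · exact ⟨.comp a b, by simp only [OCode.enc]; omega⟩
      · exact ⟨.prec a b, by simp only [OCode.enc]; omega⟩
      · exact ⟨.rfind c, by simp only [OCode.enc]; omega⟩

theorem enc_inj (c : OCode) : ∀ d : OCode, c.enc = d.enc → c = d := by
  induction c with
  | pair a b h1 h2 | comp a b h1 h2 | prec a b h1 h2 =>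
    intro d h
    cases d <;> simp only [OCode.enc] at h <;> try omega
    rename_i a' b'
    have h3 : Nat.pair a.enc b.enc = Nat.pair a'.enc b'.enc := by omega
    rw [Nat.pair_eq_pair] at h3
    rw [h1 _ h3.1, h2 _ h3.2]
  | rfind a h1 =>
    intro d h
    cases d <;> simp only [OCode.enc] at h <;> try omega
    rename_i a'
    rw [h1 a' (by omega)]
  | _ =>
    intro d h
    cases d <;> simp only [OCode.enc] at h <;> first | rfl | omega

/-- Inductive closure of a finitary rule. -/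
inductive Gen {J : Type} (R : List J → J → Prop) : J → Prop
  | mk (l : List J) (j : J) : (∀ i ∈ l, Gen R i) → R l j → Gen R j

def Der {J : Type} (R : List J → J → Prop) : List J → Prop
  | [] => True
  | j :: L => (∃ l, R l j ∧ ∀ i ∈ l, i ∈ L) ∧ Der R L

theorem Der.append {J : Type} {R : List J → J → Prop} {L L' : List J} (h : Der R L)
    (h' : Der R L') : Der R (L ++ L') := by
  induction L with
  | nil => simpa using h'
  | cons j L ih =>
    obtain ⟨⟨l, hl, hm⟩, h2⟩ := h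
    exact ⟨⟨l, hl, fun i hi => List.mem_append_left _ (hm i hi)⟩, ih h2⟩

theorem gen_iff {J : Type} {R : List J → J → Prop} {j : J} :
    Gen R j ↔ ∃ L, Der R L ∧ j ∈ L := by
  constructor
  · intro h
    induction h with
    | mk l j _ hR ih =>
      have : ∀ l' : List J, (∀ i ∈ l', i ∈ l) → ∃ L, Der R L ∧ ∀ i ∈ l', i ∈ L := by
        intro l'
        induction l' with
        | nil => intro _; exact ⟨[], trivial, by simp⟩
        | cons a l' ih' =>
          intro hl
          obtain ⟨L, hL, hm⟩ := ih' (fun i hi => hl i (List.mem_cons_of_mem _ hi))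
          obtain ⟨L1, hL1, hm1⟩ := ih a (hl a List.mem_cons_self)
          refine ⟨L1 ++ L, hL1.append hL, fun i hi => ?_⟩
          rcases List.mem_cons.1 hi with rfl | hi
          · exact List.mem_append_left _ hm1
          · exact List.mem_append_right _ (hm i hi)
      obtain ⟨L, hL, hm⟩ := this l (fun _ h => h)
      exact ⟨j :: L, ⟨⟨l, hR, hm⟩, hL⟩, List.mem_cons_self⟩
  · rintro ⟨L, hL, hj⟩
    induction L generalizing j with
    | nil => simp at hj
    | cons a L ih =>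
      obtain ⟨⟨l, hl, hm⟩, h2⟩ := hL
      rcases List.mem_cons.1 hj with rfl | hj
      · exact Gen.mk l j (fun i hi => ih h2 (hm i hi)) hl
      · exact ih h2 hj

theorem der_iff {J : Type} {R : List J → J → Prop} {L : List J} :
    Der R L ↔ BAll L.length (fun k => ∃ j l, L[k]? = some j ∧ R l j ∧
      BAll l.length (fun i => ∃ j', l[i]? = some j' ∧ j' ∈ L.drop (k + 1))) := by
  have e : ∀ (l M : List J), BAll l.length (fun i => ∃ j', l[i]? = some j' ∧ j' ∈ M) ↔
      ∀ i ∈ l, i ∈ M := by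
    intro l M
    constructor
    · intro h i hi
      obtain ⟨k, hk, rfl⟩ := List.getElem_of_mem hi
      obtain ⟨j', h1, h2⟩ := h k hk
      rw [List.getElem?_eq_getElem hk, Option.some.injEq] at h1
      exact h1 ▸ h2
    · intro h k hk
      exact ⟨l[k], List.getElem?_eq_getElem hk, h _ (List.getElem_mem hk)⟩
  simp only [e]
  induction L with
  | nil => simp [Der, BAll]
  | cons a L ih =>
    simp only [Der, ih, BAll, List.length_cons]
    constructor
    · rintro ⟨⟨l, hl, hm⟩, h2⟩ k hk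
      cases k with
      | zero => exact ⟨a, l, by simp, hl, by simpa using hm⟩
      | succ k => simpa using h2 k (by omega)
    · intro h
      refine ⟨?_, fun k hk => by simpa using h (k + 1) (by omega)⟩
      obtain ⟨j, l, h1, h2, h3⟩ := h 0 (by omega)
      simp only [List.getElem?_cons_zero, Option.some.injEq] at h1
      subst h1
      exact ⟨l, h2, by simpa using h3⟩

theorem Sg.gen {J : Type} [Primcodable J] {R : List J → J → Prop}
    (hR : Sg 1 fun x : List J × J => R x.1 x.2) : Sg 1 (Gen R) := by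
  have h : Sg 1 (fun j : J => ∃ L : List J, BAll L.length (fun k => ∃ j l, L[k]? = some j ∧
      R l j ∧ BAll l.length (fun i => ∃ j', l[i]? = some j' ∧ j' ∈ L.drop (k + 1))) ∧ j ∈ L) := by
    fun_prop
  refine h.of_eq fun j => ?_
  rw [gen_iff]; simp only [der_iff]

abbrev Jd := List ℕ × ℕ × ℕ × ℕ

def Rule (l : List Jd) (j : Jd) : Prop :=
  (j.2.1 = 0 ∧ j.2.2.2 = 0) ∨ (j.2.1 = 1 ∧ j.2.2.2 = j.2.2.1 + 1) ∨
  (j.2.1 = 2 ∧ j.2.2.2 = (Nat.unpair j.2.2.1).1) ∨
  (j.2.1 = 3 ∧ j.2.2.2 = (Nat.unpair j.2.2.1).2) ∨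
  (j.2.1 = 4 ∧ j.1[j.2.2.1]? = some j.2.2.2) ∨
  (∃ a b x y : ℕ, j.2.1 = 4 * Nat.pair a b + 5 ∧ (j.1, a, j.2.2.1, x) ∈ l ∧
    (j.1, b, j.2.2.1, y) ∈ l ∧ j.2.2.2 = Nat.pair x y) ∨
  (∃ a b x : ℕ, j.2.1 = 4 * Nat.pair a b + 6 ∧ (j.1, b, j.2.2.1, x) ∈ l ∧
    (j.1, a, x, j.2.2.2) ∈ l) ∨
  (∃ a b : ℕ, j.2.1 = 4 * Nat.pair a b + 7 ∧ (Nat.unpair j.2.2.1).2 = 0 ∧
    (j.1, a, (Nat.unpair j.2.2.1).1, j.2.2.2) ∈ l) ∨
  (∃ a b y i : ℕ, j.2.1 = 4 * Nat.pair a b + 7 ∧ (Nat.unpair j.2.2.1).2 = y + 1 ∧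
    (j.1, j.2.1, Nat.pair (Nat.unpair j.2.2.1).1 y, i) ∈ l ∧
    (j.1, b, Nat.pair (Nat.unpair j.2.2.1).1 (Nat.pair y i), j.2.2.2) ∈ l) ∨
  (∃ a : ℕ, j.2.1 = 4 * a + 8 ∧ (j.1, a, Nat.pair j.2.2.1 j.2.2.2, 0) ∈ l ∧
    BAll j.2.2.2 (fun m => ∃ k : ℕ, (j.1, a, Nat.pair j.2.2.1 m, k + 1) ∈ l))

theorem rule_sg : Sg 1 fun x : List Jd × Jd => Rule x.1 x.2 := by
  unfold Rule
  fun_prop

theorem ev_sg : Sg 1 (Gen Rule) := Sg.gen rule_sg

theorem ev_sound {O : ℕ →. ℕ} {j : Jd} (h : Gen Rule j)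
    (hσ : ∀ i w, j.1[i]? = some w → w ∈ O i) :
    ∀ c : OCode, c.enc = j.2.1 → j.2.2.2 ∈ c.eval O j.2.2.1 := by
  induction h with
  | mk l j _ hR ih =>
    obtain ⟨σ, e, n, v⟩ := j
    have ih' : ∀ a x y, (σ, a, x, y) ∈ l → ∀ c : OCode, c.enc = a → y ∈ c.eval O x :=
      fun a x y h c hc => ih _ h hσ c hc
    intro c hc
    simp only at hc hσ ⊢
    unfold Rule at hR
    simp only at hR
    rcases hR with ⟨h1, h2⟩ | ⟨h1, h2⟩ | ⟨h1, h2⟩ | ⟨h1, h2⟩ | ⟨h1, h2⟩ | ⟨a, b, x, y, h1, h2, h3, h4⟩ |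
      ⟨a, b, x, h1, h2, h3⟩ | ⟨a, b, h1, h2, h3⟩ | ⟨a, b, y, i, h1, h2, h3, h4⟩ | ⟨a, h1, h2, h3⟩
    · obtain rfl := enc_inj c .zero (hc.trans h1)
      simp [OCode.eval, h2]
    · obtain rfl := enc_inj c .succ (hc.trans h1)
      simp [OCode.eval, h2]
    · obtain rfl := enc_inj c .left (hc.trans h1)
      simp [OCode.eval, h2]
    · obtain rfl := enc_inj c .right (hc.trans h1)
      simp [OCode.eval, h2]
    · obtain rfl := enc_inj c .oracle (hc.trans h1)
      exact hσ _ _ h2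
    · obtain ⟨f, rfl⟩ := enc_surj a
      obtain ⟨g, rfl⟩ := enc_surj b
      obtain rfl := enc_inj c (.pair f g) (hc.trans h1)
      simp only [OCode.eval, Part.mem_bind_iff, Part.mem_map_iff]
      exact ⟨x, ih' _ _ _ h2 f rfl, y, ih' _ _ _ h3 g rfl, h4.symm⟩
    · obtain ⟨f, rfl⟩ := enc_surj a
      obtain ⟨g, rfl⟩ := enc_surj b
      obtain rfl := enc_inj c (.comp f g) (hc.trans h1)
      simp only [OCode.eval, Part.mem_bind_iff]
      exact ⟨x, ih' _ _ _ h2 g rfl, ih' _ _ _ h3 f rfl⟩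
    · obtain ⟨f, rfl⟩ := enc_surj a
      obtain ⟨g, rfl⟩ := enc_surj b
      obtain rfl := enc_inj c (.prec f g) (hc.trans h1)
      simp only [OCode.eval, h2]
      exact ih' _ _ _ h3 f rfl
    · obtain ⟨f, rfl⟩ := enc_surj a
      obtain ⟨g, rfl⟩ := enc_surj b
      obtain rfl := enc_inj c (.prec f g) (hc.trans h1)
      have h5 := ih' _ _ _ h3 _ hc
      simp only [OCode.eval, h2, Nat.unpair_pair, Part.mem_bind_iff] at h5 ⊢
      exact ⟨i, h5, ih' _ _ _ h4 g rfl⟩
    · obtain ⟨f, rfl⟩ := enc_surj a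
      obtain rfl := enc_inj c (.rfind f) (hc.trans h1)
      simp only [OCode.eval, Nat.mem_rfind, Part.mem_map_iff]
      refine ⟨⟨0, ih' _ _ _ h2 f rfl, by simp⟩, fun {m} hm => ?_⟩
      obtain ⟨k, hk⟩ := h3 m hm
      exact ⟨k + 1, ih' _ _ _ hk f rfl, by simp⟩

open Classical in
noncomputable def tab (X : Set ℕ) (u : ℕ) : List ℕ :=
  (List.range u).map fun i => if i ∈ X then 1 else 0

theorem tab_length (X : Set ℕ) (u : ℕ) : (tab X u).length = u := by simp [tab]

open Classical in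
theorem tab_getD (X : Set ℕ) {u i : ℕ} (h : i < u) :
    (tab X u).getD i 0 = if i ∈ X then 1 else 0 := by simp [tab, h]

theorem tab_getD_one (X : Set ℕ) {u i : ℕ} (h : i < u) : (tab X u).getD i 0 = 1 ↔ i ∈ X := by
  rw [tab_getD X h]; split_ifs with h1 <;> simp [h1]

theorem tab_take (X : Set ℕ) {u s : ℕ} (h : s ≤ u) : (tab X u).take s = tab X s := by
  unfold tab
  rw [← List.map_take, List.take_range, min_eq_left h]

theorem tab_sound (X : Set ℕ) (u i w : ℕ) (h : (tab X u)[i]? = some w) : w ∈ chi X i := by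
  simp only [tab, List.getElem?_map, Option.map_eq_some_iff] at h
  obtain ⟨a, ha, rfl⟩ := h
  obtain rfl : a = i := by
    rw [List.getElem?_eq_some_iff] at ha
    obtain ⟨_, ha⟩ := ha
    simpa using ha.symm
  simp [chi]

theorem ev_complete (X : Set ℕ) (c : OCode) : ∀ n v, v ∈ c.eval (chi X) n →
    ∀ᶠ u in atTop, Gen Rule (tab X u, c.enc, n, v) := by
  induction c with
  | zero =>
    intro n v h
    exact Eventually.of_forall fun u => Gen.mk [] _ (by simp)
      (Or.inl ⟨rfl, by simpa [OCode.eval] using h⟩)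
  | succ =>
    intro n v h
    exact Eventually.of_forall fun u => Gen.mk [] _ (by simp)
      (Or.inr <| Or.inl ⟨rfl, by simpa [OCode.eval] using h⟩)
  | left =>
    intro n v h
    exact Eventually.of_forall fun u => Gen.mk [] _ (by simp)
      (Or.inr <| Or.inr <| Or.inl ⟨rfl, by simpa [OCode.eval] using h⟩)
  | right =>
    intro n v h
    exact Eventually.of_forall fun u => Gen.mk [] _ (by simp)
      (Or.inr <| Or.inr <| Or.inr <| Or.inl ⟨rfl, by simpa [OCode.eval] using h⟩)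
  | oracle =>
    intro n v h
    filter_upwards [eventually_gt_atTop n] with u hu
    refine Gen.mk [] _ (by simp) (Or.inr <| Or.inr <| Or.inr <| Or.inr <| Or.inl ⟨rfl, ?_⟩)
    simp only [OCode.eval, chi, Part.mem_some_iff] at h
    show (tab X u)[n]? = some v
    rw [h, tab, List.getElem?_map, List.getElem?_range hu]
    rfl
  | pair f g h1 h2 =>
    intro n v h
    simp only [OCode.eval, Part.mem_bind_iff, Part.mem_map_iff] at h
    obtain ⟨x, hx, y, hy, rfl⟩ := h
    filter_upwards [h1 _ _ hx, h2 _ _ hy] with u e1 e2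
    refine Gen.mk [(tab X u, f.enc, n, x), (tab X u, g.enc, n, y)] _ (by simp [e1, e2])
      (Or.inr <| Or.inr <| Or.inr <| Or.inr <| Or.inr <| Or.inl
        ⟨f.enc, g.enc, x, y, rfl, by simp, by simp, rfl⟩)
  | comp f g h1 h2 =>
    intro n v h
    simp only [OCode.eval, Part.mem_bind_iff] at h
    obtain ⟨x, hx, hy⟩ := h
    filter_upwards [h1 _ _ hy, h2 _ _ hx] with u e1 e2
    refine Gen.mk [(tab X u, g.enc, n, x), (tab X u, f.enc, x, v)] _ (by simp [e1, e2])
      (Or.inr <| Or.inr <| Or.inr <| Or.inr <| Or.inr <| Or.inr <| Or.inl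
        ⟨f.enc, g.enc, x, rfl, by simp, by simp⟩)
  | prec f g h1 h2 =>
    have key : ∀ a y v, v ∈ (OCode.prec f g).eval (chi X) (Nat.pair a y) →
        ∀ᶠ u in atTop, Gen Rule (tab X u, (OCode.prec f g).enc, Nat.pair a y, v) := by
      intro a y
      induction y with
      | zero =>
        intro v h
        simp only [OCode.eval, Nat.unpair_pair] at h
        filter_upwards [h1 _ _ h] with u e1
        refine Gen.mk [(tab X u, f.enc, a, v)] _ (by simp [e1])
          (Or.inr <| Or.inr <| Or.inr <| Or.inr <| Or.inr <| Or.inr <| Or.inr <| Or.inl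
            ⟨f.enc, g.enc, rfl, by simp, by simp⟩)
      | succ y ih =>
        intro v h
        simp only [OCode.eval, Nat.unpair_pair, Part.mem_bind_iff] at h ih
        obtain ⟨i, hi, hv⟩ := h
        filter_upwards [ih i hi, h2 _ _ hv] with u e1 e2
        refine Gen.mk [(tab X u, (OCode.prec f g).enc, Nat.pair a y, i),
          (tab X u, g.enc, Nat.pair a (Nat.pair y i), v)] _ (by simp [e1, e2])
          (Or.inr <| Or.inr <| Or.inr <| Or.inr <| Or.inr <| Or.inr <| Or.inr <| Or.inr <| Or.inl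
            ⟨f.enc, g.enc, y, i, rfl, by simp, by simp, by simp⟩)
    intro n v h
    have := key (Nat.unpair n).1 (Nat.unpair n).2 v (by rwa [Nat.pair_unpair])
    rwa [Nat.pair_unpair] at this
  | rfind f h1 =>
    intro n v h
    simp only [OCode.eval, Nat.mem_rfind, Part.mem_map_iff] at h
    obtain ⟨⟨z, hz, hz'⟩, h⟩ := h
    obtain rfl : z = 0 := by simpa using hz'
    have h' : ∀ m, ∃ k, m < v → k + 1 ∈ f.eval (chi X) (Nat.pair n m) := by
      intro m
      by_cases hm : m < v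
      · obtain ⟨k, hk, hk'⟩ := h hm
        obtain ⟨k, rfl⟩ : ∃ k', k = k' + 1 := ⟨k - 1, by simp at hk'; omega⟩
        exact ⟨k, fun _ => hk⟩
      · exact ⟨0, fun h => absurd h hm⟩
    choose K hK using h'
    have h3 : ∀ᶠ u in atTop, ∀ m ∈ Finset.range v,
        Gen Rule (tab X u, f.enc, Nat.pair n m, K m + 1) :=
      (Finset.eventually_all _).2 fun m hm => h1 _ _ (hK m (Finset.mem_range.1 hm))
    filter_upwards [h1 _ _ hz, h3] with u e1 e2
    refine Gen.mk ((tab X u, f.enc, Nat.pair n v, 0) ::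
      (List.range v).map fun m => (tab X u, f.enc, Nat.pair n m, K m + 1)) _ ?_
      (Or.inr <| Or.inr <| Or.inr <| Or.inr <| Or.inr <| Or.inr <| Or.inr <| Or.inr <| Or.inr
        ⟨f.enc, rfl, by simp, fun m hm => ⟨K m, ?_⟩⟩)
    · intro i hi
      rcases List.mem_cons.1 hi with rfl | hi
      · exact e1
      · obtain ⟨m, hm, rfl⟩ := List.mem_map.1 hi
        exact e2 m (by simpa using hm)
    · exact List.mem_cons_of_mem _ (List.mem_map.2 ⟨m, List.mem_range.2 hm, rfl⟩)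

theorem mem_eval_iff (X : Set ℕ) (c : OCode) (n v : ℕ) :
    v ∈ c.eval (chi X) n ↔ ∃ u, Gen Rule (tab X u, c.enc, n, v) :=
  ⟨fun h => (ev_complete X c n v h).exists,
    fun ⟨u, hu⟩ => ev_sound (O := chi X) hu (tab_sound X u) c rfl⟩

/-- Predicates that are Sigma-one relative to `X`. -/
def S1 (X : Set ℕ) (p : ℕ → Prop) : Prop :=
  ∃ R : ℕ × List ℕ → Prop, Sg 1 R ∧ ∀ a, p a ↔ ∃ u, R (a, tab X u)

theorem jump_S1 (X : Set ℕ) : S1 X (fun n => n ∈ jump X) := by
  have := ev_sg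
  refine ⟨fun z => ∃ v : ℕ, Gen Rule (z.2, z.1, z.1, v), by fun_prop, fun n => ?_⟩
  obtain ⟨c, rfl⟩ := enc_surj n
  constructor
  · rintro ⟨d, hd, h⟩
    obtain rfl := enc_inj _ _ hd
    obtain ⟨v, hv⟩ := Part.dom_iff_mem.1 h
    obtain ⟨u, hu⟩ := (mem_eval_iff X d _ v).1 hv
    exact ⟨u, v, hu⟩
  · rintro ⟨u, v, hu⟩
    exact ⟨c, rfl, Part.dom_iff_mem.2 ⟨v, (mem_eval_iff X c _ v).2 ⟨u, hu⟩⟩⟩

theorem S1_of_le {A B : Set ℕ} (h : TuringReducible (chi A) (chi B)) :
    S1 B (fun n => n ∈ A) ∧ S1 B (fun n => n ∉ A) := by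
  have := ev_sg
  obtain ⟨c, hc⟩ := exists_code.1 (RecursiveIn.iff_nat.1 h)
  constructor
  · refine ⟨fun z => Gen Rule (z.2, c.enc, z.1, 1), by fun_prop, fun n => ?_⟩
    rw [← mem_eval_iff, hc]
    by_cases hn : n ∈ A <;> simp [chi, hn]
  · refine ⟨fun z => Gen Rule (z.2, c.enc, z.1, 0), by fun_prop, fun n => ?_⟩
    rw [← mem_eval_iff, hc]
    by_cases hn : n ∈ A <;> simp [chi, hn]

def IsTab (X : Set ℕ) (σ : List ℕ) : Prop :=
  BAll σ.length fun i => (σ.getD i 0 = 1 ∧ i ∈ X) ∨ (σ.getD i 0 = 0 ∧ i ∉ X)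

theorem isTab_iff (X : Set ℕ) (σ : List ℕ) : IsTab X σ ↔ σ = tab X σ.length := by
  constructor
  · intro h
    apply List.ext_getElem (by rw [tab_length])
    intro i h1 h2
    have h3 := h i h1
    beta_reduce at h3
    have h4 := tab_getD X h1
    rw [List.getD_eq_getElem?_getD, List.getElem?_eq_getElem h1, Option.getD_some] at h3
    rw [List.getD_eq_getElem?_getD, List.getElem?_eq_getElem h2, Option.getD_some] at h4
    rw [h4]
    rcases h3 with ⟨h5, h6⟩ | ⟨h5, h6⟩ <;> simp [h5, h6]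
  · intro h i hi
    rw [h, tab_getD X hi]
    by_cases h1 : i ∈ X <;> simp [h1]

theorem isTab_sg {n : ℕ} {X : Set ℕ} (h1 : Sg n fun a => a ∈ X) (h2 : Sg n fun a => a ∉ X) :
    Sg n (IsTab X) := by
  unfold IsTab
  refine Sg.ball (by fun_prop) (Sg.or (Sg.and (by fun_prop) (h1.comp Primrec.snd))
    (Sg.and (by fun_prop) (h2.comp Primrec.snd)))

theorem S1.sg {n : ℕ} {X : Set ℕ} {p : ℕ → Prop} (hp : S1 X p)
    (h1 : Sg (n + 1) fun a => a ∈ X) (h2 : Sg (n + 1) fun a => a ∉ X) : Sg (n + 1) p := by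
  obtain ⟨R, hR, h⟩ := hp
  have h3 := isTab_sg h1 h2
  have h4 : Sg (n + 1) R := hR.mono (by omega)
  have h5 : Sg (n + 1) fun a : ℕ => ∃ σ : List ℕ, IsTab X σ ∧ R (a, σ) := by fun_prop
  refine h5.of_eq fun a => ?_
  rw [h]
  constructor
  · rintro ⟨σ, h6, h7⟩
    rw [isTab_iff] at h6
    exact ⟨σ.length, h6 ▸ h7⟩
  · rintro ⟨u, hu⟩
    exact ⟨_, by rw [isTab_iff, tab_length], hu⟩

def RI (O : ℕ →. ℕ) (g : ℕ → ℕ) : Prop := Nat.RecursiveIn {O} (fun n => Part.some (g n))

theorem RI.of_prim {O : ℕ →. ℕ} {g : ℕ → ℕ} (h : Primrec g) : RI O g :=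
  (Primrec.nat_iff.1 h).recursiveIn

theorem RI.comp {O : ℕ →. ℕ} {g h : ℕ → ℕ} (hg : RI O g) (hh : RI O h) :
    RI O (fun n => g (h n)) :=
  (Nat.RecursiveIn.comp hg hh).of_eq (fun n => by simp)

theorem RI.pair {O : ℕ →. ℕ} {g h : ℕ → ℕ} (hg : RI O g) (hh : RI O h) :
    RI O (fun n => Nat.pair (g n) (h n)) :=
  (Nat.RecursiveIn.pair hg hh).of_eq (fun n => by simp [Seq.seq])

theorem RI.nrec {O : ℕ →. ℕ} {g : ℕ → ℕ} (hg : RI O g) (a : ℕ) :
    RI O (fun k => Nat.rec a (fun y i => g (Nat.pair y i)) k) := by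
  have h1 : RI O (fun _ => a) := RI.of_prim (Primrec.const a)
  have h2 : RI O (fun n => g (Nat.unpair n).2) := hg.comp (RI.of_prim (by fun_prop))
  have h3 := Nat.RecursiveIn.prec h1 h2
  have h4 : RI O (fun n => Nat.rec a (fun y i => g (Nat.pair y i)) (Nat.unpair n).2) := by
    refine h3.of_eq (fun p => ?_)
    simp only
    induction (Nat.unpair p).2 with
    | zero => simp
    | succ n ih =>
      simp only [ih]
      simp
  have h5 : RI O (fun k => Nat.pair 0 k) := RI.of_prim (by fun_prop)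
  exact Nat.RecursiveIn.of_eq (h4.comp h5) (fun n => by simp)

def decL (u : ℕ) : List ℕ := (Encodable.decode (α := List ℕ) u).getD []

@[fun_prop] theorem decL_prim : Primrec decL :=
  Primrec.option_getD.comp Primrec.decode (Primrec.const [])

theorem decL_encode (l : List ℕ) : decL (Encodable.encode l) = l := by simp [decL]

open Classical in
theorem tab_RI (X : Set ℕ) : RI (chi X) (fun u => Encodable.encode (tab X u)) := by
  have h0 : RI (chi X) (fun i => if i ∈ X then 1 else 0) := Nat.RecursiveIn.oracle _ rfl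
  have h1 : RI (chi X) (fun z => Nat.pair (if (Nat.unpair z).1 ∈ X then 1 else 0)
      (Nat.unpair z).2) :=
    (h0.comp (RI.of_prim (g := fun z => (Nat.unpair z).1) (by fun_prop))).pair
      (RI.of_prim (by fun_prop))
  have h2 := (RI.of_prim (O := chi X) (g := fun z =>
    Encodable.encode (decL (Nat.unpair z).2 ++ [(Nat.unpair z).1])) (by fun_prop)).comp h1
  have h3 := h2.nrec (Encodable.encode ([] : List ℕ))
  refine Nat.RecursiveIn.of_eq h3 fun u => ?_
  congr 1
  induction u with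
  | zero => rfl
  | succ u ih =>
    simp only [Nat.unpair_pair] at ih ⊢
    rw [ih, decL_encode]
    simp [tab, List.range_succ]

def OCode.const : ℕ → OCode
  | 0 => .zero
  | n + 1 => .comp .succ (OCode.const n)

theorem eval_const (O : ℕ →. ℕ) (a n : ℕ) : (OCode.const a).eval O n = Part.some a := by
  induction a with
  | zero => rfl
  | succ a ih => simp [OCode.const, OCode.eval, ih]

theorem enc_const_prim : Primrec fun a => (OCode.const a).enc := by
  have : Primrec (Nat.rec 0 (fun _ i => 4 * Nat.pair 1 i + 6) : ℕ → ℕ) :=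
    Primrec.nat_rec₁ 0 (show Primrec fun z : ℕ × ℕ => 4 * Nat.pair 1 z.2 + 6 by fun_prop)
  refine this.of_eq fun a => ?_
  induction a with
  | zero => rfl
  | succ a ih => simp only [OCode.const, OCode.enc, ← ih]

theorem S1.red {X : Set ℕ} {p : ℕ → Prop} (hp : S1 X p) :
    ∃ r : ℕ → ℕ, Primrec r ∧ ∀ a, p a ↔ r a ∈ jump X := by
  obtain ⟨R, hR, h⟩ := hp
  obtain ⟨q, hq, hq'⟩ := hR.exists_prim
  have h1 : RI (chi X) (fun z => Nat.pair z
      (Encodable.encode (tab X (Nat.unpair (Nat.unpair z).2).1))) :=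
    (RI.of_prim Primrec.id).pair ((tab_RI X).comp
      (RI.of_prim (g := fun z => (Nat.unpair (Nat.unpair z).2).1) (by fun_prop)))
  have h2 := (RI.of_prim (O := chi X) (g := fun w => ITE (q (((Nat.unpair (Nat.unpair w).1).1,
    decL (Nat.unpair w).2), (Nat.unpair (Nat.unpair (Nat.unpair w).1).2).2)) 0 1)
    (by fun_prop)).comp h1
  obtain ⟨c, hc⟩ := exists_code.1 (Nat.RecursiveIn.rfind h2)
  have hk := enc_const_prim
  refine ⟨fun a => 4 * Nat.pair c.enc (OCode.const a).enc + 6, by fun_prop, fun a => ?_⟩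
  have h3 : (4 * Nat.pair c.enc (OCode.const a).enc + 6 ∈ jump X) ↔ (c.eval (chi X) a).Dom := by
    constructor
    · rintro ⟨d, hd, h4⟩
      obtain rfl := enc_inj d (.comp c (OCode.const a)) hd
      simpa [OCode.eval, eval_const] using h4
    · intro h4
      exact ⟨.comp c (OCode.const a), rfl, by simpa [OCode.eval, eval_const] using h4⟩
  rw [h3, hc, h]
  simp only [Nat.rfind_dom, Nat.unpair_pair, decL_encode, hq']
  constructor
  · rintro ⟨u, k, hk⟩
    refine ⟨Nat.pair u k, ?_, by simp⟩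
    simp [ITE_pos hk]
  · rintro ⟨w, hw, -⟩
    refine ⟨(Nat.unpair w).1, (Nat.unpair w).2, ?_⟩
    by_contra hn
    simp [ITE_neg hn] at hw

theorem S1.comp {X : Set ℕ} {p : ℕ → Prop} (hp : S1 X p) {r : ℕ → ℕ} (hr : Primrec r) :
    S1 X (fun a => p (r a)) := by
  obtain ⟨R, hR, h⟩ := hp
  exact ⟨fun z => R (r z.1, z.2), by fun_prop, fun a => h _⟩

end Pool.Agent.Lib.MP_774a52_lc
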