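import Mathlib.Computability.PartrecCode
import Mathlib.Computability.TuringDegree
import Mathlib.Computability.Primrec.List
import Mathlib.Tactic

/-! Arithmetical hierarchy toolkit; `fun_prop` proves `Primrec` and `Sg n` goals. -/

namespace Pool.Agent.Lib.MP_774a52_lc

attribute [fun_prop] Primrec

section PR
variable {α β γ σ : Type} [Primcodable α] [Primcodable β] [Primcodable γ] [Primcodable σ]

@[fun_prop] theorem pr_id : Primrec (fun a : α => a) := Primrec.id
@[fun_prop] theorem pr_const (x : σ) : Primrec (fun _ : α => x) := Primrec.const x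
@[fun_prop] theorem pr_comp {f : β → σ} {g : α → β} (hf : Primrec f) (hg : Primrec g) :
    Primrec (fun a => f (g a)) := hf.comp hg
@[fun_prop] theorem pr_fst {f : α → β × γ} (hf : Primrec f) : Primrec (fun a => (f a).1) :=
  Primrec.fst.comp hf
@[fun_prop] theorem pr_snd {f : α → β × γ} (hf : Primrec f) : Primrec (fun a => (f a).2) :=
  Primrec.snd.comp hf
@[fun_prop] theorem pr_pair {f : α → β} {g : α → γ} (hf : Primrec f) (hg : Primrec g) :
    Primrec (fun a => (f a, g a)) := hf.pair hg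
@[fun_prop] theorem pr_append {f g : α → List β} (hf : Primrec f) (hg : Primrec g) :
    Primrec (fun a => f a ++ g a) := Primrec.list_append.comp hf hg
@[fun_prop] theorem pr_cons {f : α → β} {g : α → List β} (hf : Primrec f) (hg : Primrec g) :
    Primrec (fun a => f a :: g a) := Primrec.list_cons.comp hf hg
@[fun_prop] theorem pr_length {f : α → List β} (hf : Primrec f) :
    Primrec (fun a => (f a).length) := Primrec.list_length.comp hf
@[fun_prop] theorem pr_map {f : α → List β} {g : α → β → σ} (hf : Primrec f)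
    (hg : Primrec fun x : α × β => g x.1 x.2) :
    Primrec (fun a => (f a).map (g a)) := Primrec.list_map hf hg
@[fun_prop] theorem pr_take {f : α → List β} {n : α → ℕ} (hn : Primrec n) (hf : Primrec f) :
    Primrec (fun a => (f a).take (n a)) := Primrec.list_take.comp hn hf
@[fun_prop] theorem pr_drop {f : α → List β} {n : α → ℕ} (hn : Primrec n) (hf : Primrec f) :
    Primrec (fun a => (f a).drop (n a)) := Primrec.list_drop.comp hn hf
@[fun_prop] theorem pr_range {n : α → ℕ} (hn : Primrec n) :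
    Primrec (fun a => List.range (n a)) := Primrec.list_range.comp hn
@[fun_prop] theorem pr_getElem? {f : α → List β} {n : α → ℕ} (hf : Primrec f) (hn : Primrec n) :
    Primrec (fun a => (f a)[n a]?) := Primrec.list_getElem?.comp hf hn
@[fun_prop] theorem pr_getD {f : α → List β} {n : α → ℕ} (d : β) (hf : Primrec f)
    (hn : Primrec n) : Primrec (fun a => (f a).getD (n a) d) :=
  (Primrec.list_getD d).comp hf hn
@[fun_prop] theorem pr_some {f : α → β} (hf : Primrec f) : Primrec (fun a => some (f a)) :=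
  Primrec.option_some.comp hf
@[fun_prop] theorem pr_add {f g : α → ℕ} (hf : Primrec f) (hg : Primrec g) :
    Primrec (fun a => f a + g a) := Primrec.nat_add.comp hf hg
@[fun_prop] theorem pr_mul {f g : α → ℕ} (hf : Primrec f) (hg : Primrec g) :
    Primrec (fun a => f a * g a) := Primrec.nat_mul.comp hf hg
@[fun_prop] theorem pr_sub {f g : α → ℕ} (hf : Primrec f) (hg : Primrec g) :
    Primrec (fun a => f a - g a) := Primrec.nat_sub.comp hf hg
@[fun_prop] theorem pr_div {f g : α → ℕ} (hf : Primrec f) (hg : Primrec g) :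
    Primrec (fun a => f a / g a) := Primrec.nat_div.comp hf hg
@[fun_prop] theorem pr_mod {f g : α → ℕ} (hf : Primrec f) (hg : Primrec g) :
    Primrec (fun a => f a % g a) := Primrec.nat_mod.comp hf hg
@[fun_prop] theorem pr_pow {f g : α → ℕ} (hf : Primrec f) (hg : Primrec g) :
    Primrec (fun a => f a ^ g a) := (Primrec₂.unpaired'.1 Nat.Primrec.pow).comp hf hg
@[fun_prop] theorem pr_natPair {f g : α → ℕ} (hf : Primrec f) (hg : Primrec g) :
    Primrec (fun a => Nat.pair (f a) (g a)) := Primrec₂.natPair.comp hf hg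
@[fun_prop] theorem pr_unpair {f : α → ℕ} (hf : Primrec f) :
    Primrec (fun a => Nat.unpair (f a)) := Primrec.unpair.comp hf
@[fun_prop] theorem pr_encode {f : α → β} (hf : Primrec f) :
    Primrec (fun a => Encodable.encode (f a)) := Primrec.encode.comp hf
@[fun_prop] theorem pr_evaln {k e x : α → ℕ} (hk : Primrec k) (he : Primrec e) (hx : Primrec x) :
    Primrec (fun a => Nat.Partrec.Code.evaln (k a) (Denumerable.ofNat Nat.Partrec.Code (e a))
      (x a)) :=
  Nat.Partrec.Code.primrec_evaln.comp ((hk.pair ((Primrec.ofNat Nat.Partrec.Code).comp he)).pair hx)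

end PR

/-- The arithmetical hierarchy: level zero is primitive recursive. -/
def SgA : ℕ → ∀ (α : Type) [Primcodable α], (α → Prop) → Prop
  | 0, _, _, p => PrimrecPred p
  | n + 1, α, _, p => ∃ q : α × ℕ → Prop, SgA n (α × ℕ) q ∧ ∀ a, p a ↔ ∃ u, ¬ q (a, u)

@[fun_prop] def Sg (n : ℕ) {α : Type} [Primcodable α] (p : α → Prop) : Prop := SgA n α p

def BAll (n : ℕ) (p : ℕ → Prop) : Prop := ∀ x < n, p x
def BEx (n : ℕ) (p : ℕ → Prop) : Prop := ∃ x < n, p x
def Imp (p q : Prop) : Prop := p → q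

open Classical in
noncomputable def ITE (p : Prop) (x y : ℕ) : ℕ := if p then x else y

theorem ITE_pos {p : Prop} {x y : ℕ} (h : p) : ITE p x y = x := if_pos h
theorem ITE_neg {p : Prop} {x y : ℕ} (h : ¬ p) : ITE p x y = y := if_neg h
theorem ITE_congr {p q : Prop} {x y x' y' : ℕ} (h : p ↔ q) (hx : q → x = x') (hy : ¬ q → y = y') :
    ITE p x y = ITE q x' y' := by
  by_cases hq : q
  · rw [ITE_pos hq, ITE_pos (h.2 hq), hx hq]
  · rw [ITE_neg hq, ITE_neg (mt h.1 hq), hy hq]

theorem BAll_congr {n : ℕ} {p q : ℕ → Prop} (h : ∀ x < n, (p x ↔ q x)) : BAll n p ↔ BAll n q :=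
  forall_congr' fun x => forall_congr' fun hx => h x hx
theorem BEx_congr {n : ℕ} {p q : ℕ → Prop} (h : ∀ x < n, (p x ↔ q x)) : BEx n p ↔ BEx n q :=
  exists_congr fun x => and_congr_right fun hx => h x hx

theorem exists_bound (p : ℕ → ℕ → Prop) (n : ℕ) (h : ∀ x < n, ∃ u, p x u) :
    ∃ b, ∀ x < n, ∃ u < b, p x u := by
  induction n with
  | zero => exact ⟨0, by simp⟩
  | succ n ih =>
    obtain ⟨b, hb⟩ := ih (fun x hx => h x (by omega))
    obtain ⟨u, hu⟩ := h n (by omega)
    refine ⟨b + u + 1, fun x hx => ?_⟩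
    rcases Nat.lt_or_ge x n with h1 | h1
    · obtain ⟨v, hv, hv'⟩ := hb x h1
      exact ⟨v, by omega, hv'⟩
    · obtain rfl : x = n := by omega
      exact ⟨u, by omega, hu⟩

section Sg
variable {α β γ : Type} [Primcodable α] [Primcodable β] [Primcodable γ]

theorem sg_zero {p : α → Prop} : Sg 0 p ↔ PrimrecPred p := Iff.rfl
theorem sg_succ {n : ℕ} {p : α → Prop} :
    Sg (n + 1) p ↔ ∃ q : α × ℕ → Prop, Sg n q ∧ ∀ a, p a ↔ ∃ u, ¬ q (a, u) := Iff.rfl

theorem Sg.of_eq {n : ℕ} {p q : α → Prop} (hp : Sg n p) (h : ∀ a, p a ↔ q a) : Sg n q :=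
  (funext fun a => propext (h a) : p = q) ▸ hp

@[fun_prop] theorem Sg.comp {n : ℕ} {p : β → Prop} {f : α → β} (hp : Sg n p) (hf : Primrec f) :
    Sg n (fun a => p (f a)) := by
  induction n generalizing α β with
  | zero => exact PrimrecPred.comp hp hf
  | succ n ih =>
    obtain ⟨q, hq, h⟩ := sg_succ.1 hp
    exact sg_succ.2 ⟨fun x => q (f x.1, x.2), ih hq (by fun_prop), fun a => h (f a)⟩

theorem Sg.lift {n : ℕ} {p : α → Prop} (hp : Sg n p) : Sg (n + 1) p := by
  induction n generalizing α with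
  | zero =>
    refine sg_succ.2 ⟨fun x => ¬ p x.1, ?_, by simp⟩
    exact PrimrecPred.not (PrimrecPred.comp hp Primrec.fst)
  | succ n ih =>
    obtain ⟨q, hq, h⟩ := sg_succ.1 hp
    exact sg_succ.2 ⟨q, ih hq, h⟩

theorem Sg.mono {n m : ℕ} {p : α → Prop} (hp : Sg n p) (h : n ≤ m) : Sg m p := by
  induction h with
  | refl => exact hp
  | step _ ih => exact ih.lift

theorem Sg.of0 {n : ℕ} {p : α → Prop} (hp : Sg 0 p) : Sg n p := hp.mono (Nat.zero_le _)

@[fun_prop] theorem Sg.const {n : ℕ} (c : Prop) : Sg n (fun _ : α => c) := by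
  classical
  exact Sg.of0 (Primrec.primrecPred (Primrec.const (decide c)))

@[fun_prop] theorem Sg.eq {n : ℕ} {f g : α → β} (hf : Primrec f) (hg : Primrec g) :
    Sg n (fun a => f a = g a) := Sg.of0 (Primrec.eq.comp hf hg)

@[fun_prop] theorem Sg.ne {n : ℕ} {f g : α → β} (hf : Primrec f) (hg : Primrec g) :
    Sg n (fun a => f a ≠ g a) := Sg.of0 (Primrec.eq.comp hf hg).not

@[fun_prop] theorem Sg.le {n : ℕ} {f g : α → ℕ} (hf : Primrec f) (hg : Primrec g) :
    Sg n (fun a => f a ≤ g a) := Sg.of0 (Primrec.nat_le.comp hf hg)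

@[fun_prop] theorem Sg.lt {n : ℕ} {f g : α → ℕ} (hf : Primrec f) (hg : Primrec g) :
    Sg n (fun a => f a < g a) := Sg.of0 (Primrec.nat_lt.comp hf hg)

@[fun_prop] theorem Sg.mem {n : ℕ} {f : α → β} {g : α → List β} (hf : Primrec f)
    (hg : Primrec g) : Sg n (fun a => f a ∈ g a) := by
  have h := PrimrecRel.exists_mem_list (R := fun a b : β => a = b) Primrec.eq
  refine Sg.of0 (PrimrecPred.of_eq (PrimrecRel.comp h hg hf) ?_)
  intro x; simp

@[fun_prop] theorem Sg.not0 {p : α → Prop} (hp : Sg 0 p) : Sg 0 (fun a => ¬ p a) :=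
  PrimrecPred.not hp

@[fun_prop] theorem Sg.not_succ {n : ℕ} {p : α → Prop} (hp : Sg n p) :
    Sg (n + 1) (fun a => ¬ p a) :=
  sg_succ.2 ⟨fun x => p x.1, hp.comp Primrec.fst, by simp⟩

theorem Sg.and_or {n : ℕ} {p q : α → Prop} (hp : Sg n p) (hq : Sg n q) :
    Sg n (fun a => p a ∧ q a) ∧ Sg n (fun a => p a ∨ q a) := by
  induction n generalizing α with
  | zero => exact ⟨PrimrecPred.and hp hq, PrimrecPred.or hp hq⟩
  | succ n ih =>
    obtain ⟨p', hp', h1⟩ := sg_succ.1 hp
    obtain ⟨q', hq', h2⟩ := sg_succ.1 hq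
    constructor
    · refine sg_succ.2 ⟨fun x => p' (x.1, (Nat.unpair x.2).1) ∨ q' (x.1, (Nat.unpair x.2).2),
        (ih (hp'.comp (by fun_prop)) (hq'.comp (by fun_prop))).2, fun a => ?_⟩
      rw [h1, h2]
      constructor
      · rintro ⟨⟨u, hu⟩, ⟨v, hv⟩⟩
        exact ⟨Nat.pair u v, by simp [hu, hv]⟩
      · rintro ⟨u, hu⟩
        rw [not_or] at hu
        exact ⟨⟨_, hu.1⟩, ⟨_, hu.2⟩⟩
    · refine sg_succ.2 ⟨fun x => p' x ∧ q' x, (ih hp' hq').1, fun a => ?_⟩
      rw [h1, h2]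
      simp only [not_and_or, exists_or]

@[fun_prop] theorem Sg.and {n : ℕ} {p q : α → Prop} (hp : Sg n p) (hq : Sg n q) :
    Sg n (fun a => p a ∧ q a) := (hp.and_or hq).1

@[fun_prop] theorem Sg.or {n : ℕ} {p q : α → Prop} (hp : Sg n p) (hq : Sg n q) :
    Sg n (fun a => p a ∨ q a) := (hp.and_or hq).2

@[fun_prop] theorem Sg.imp0 {p q : α → Prop} (hp : Sg 0 p) (hq : Sg 0 q) :
    Sg 0 (fun a => Imp (p a) (q a)) := (hp.not0.or hq).of_eq (fun a => by unfold Imp; tauto)

@[fun_prop] theorem Sg.imp_succ {n : ℕ} {p q : α → Prop} (hp : Sg n p) (hq : Sg (n + 1) q) :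
    Sg (n + 1) (fun a => Imp (p a) (q a)) :=
  (hp.not_succ.or hq).of_eq (fun a => by unfold Imp; tauto)

theorem Sg.ex_nat {n : ℕ} {p : α → ℕ → Prop} (hp : Sg (n + 1) fun x : α × ℕ => p x.1 x.2) :
    Sg (n + 1) (fun a => ∃ b, p a b) := by
  obtain ⟨q, hq, h⟩ := sg_succ.1 hp
  refine sg_succ.2 ⟨fun x => q ((x.1, (Nat.unpair x.2).1), (Nat.unpair x.2).2),
    hq.comp (by fun_prop), fun a => ?_⟩
  constructor
  · rintro ⟨b, hb⟩
    obtain ⟨u, hu⟩ := (h (a, b)).1 hb
    exact ⟨Nat.pair b u, by simpa using hu⟩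
  · rintro ⟨u, hu⟩
    exact ⟨_, (h (a, _)).2 ⟨_, hu⟩⟩

theorem Sg.ball_bex {n : ℕ} {p : α → ℕ → Prop} {f : α → ℕ} (hf : Primrec f)
    (hp : Sg n fun x : α × ℕ => p x.1 x.2) :
    Sg n (fun a => BAll (f a) (p a)) ∧ Sg n (fun a => BEx (f a) (p a)) := by
  induction n generalizing α with
  | zero =>
    have h1 : PrimrecRel fun (x : ℕ) (a : α) => p a x :=
      PrimrecPred.comp hp (Primrec.pair Primrec.snd Primrec.fst)
    exact ⟨(h1.forall_mem_list.comp (Primrec.list_range.comp hf) Primrec.id).of_eq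
      (by simp [BAll]), (h1.exists_mem_list.comp (Primrec.list_range.comp hf) Primrec.id).of_eq
      (by simp [BEx])⟩
  | succ n ih =>
    constructor
    · obtain ⟨q, hq, h⟩ := sg_succ.1 hp
      have h1 : Sg n fun y : (α × ℕ) × ℕ => BAll y.1.2 (fun u => q ((y.1.1, y.2), u)) :=
        (ih (f := fun y : (α × ℕ) × ℕ => y.1.2) (p := fun y u => q ((y.1.1, y.2), u))
          (by fun_prop) (hq.comp (by fun_prop))).1
      have h2 : Sg n fun y : α × ℕ => BEx (f y.1) (fun x => BAll y.2 (fun u => q ((y.1, x), u))) :=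
        (ih (f := fun y : α × ℕ => f y.1) (p := fun y x => BAll y.2 (fun u => q ((y.1, x), u)))
          (by fun_prop) h1).2
      refine sg_succ.2 ⟨_, h2, fun a => ?_⟩
      simp only [BAll, BEx]
      constructor
      · intro ha
        obtain ⟨b, hb⟩ := exists_bound (fun x u => ¬ q ((a, x), u)) (f a)
          (fun x hx => (h (a, x)).1 (ha x hx))
        refine ⟨b, ?_⟩
        rintro ⟨x, hx, hx'⟩
        obtain ⟨u, hu, hu'⟩ := hb x hx
        exact hu' (hx' u hu)
      · rintro ⟨b, hb⟩ x hx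
        push Not at hb
        obtain ⟨u, _, hu⟩ := hb x hx
        exact (h (a, x)).2 ⟨u, hu⟩
    · have h1 : Sg (n + 1) fun x : α × ℕ => x.2 < f x.1 ∧ p x.1 x.2 :=
        Sg.and (Sg.lt (by fun_prop) (by fun_prop)) hp
      exact Sg.ex_nat (p := fun a x => x < f a ∧ p a x) h1

@[fun_prop] theorem Sg.ball {n : ℕ} {p : α → ℕ → Prop} {f : α → ℕ} (hf : Primrec f)
    (hp : Sg n fun x : α × ℕ => p x.1 x.2) : Sg n (fun a => BAll (f a) (p a)) :=
  (Sg.ball_bex hf hp).1

@[fun_prop] theorem Sg.bex {n : ℕ} {p : α → ℕ → Prop} {f : α → ℕ} (hf : Primrec f)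
    (hp : Sg n fun x : α × ℕ => p x.1 x.2) : Sg n (fun a => BEx (f a) (p a)) :=
  (Sg.ball_bex hf hp).2

@[fun_prop] theorem Sg.ex {n : ℕ} {p : α → β → Prop}
    (hp : Sg (n + 1) fun x : α × β => p x.1 x.2) : Sg (n + 1) (fun a => ∃ b, p a b) := by
  by_cases hne : Nonempty β
  · obtain ⟨b0⟩ := hne
    have h1 : Primrec fun x : α × ℕ => (x.1, (Encodable.decode (α := β) x.2).getD b0) :=
      Primrec.fst.pair (Primrec.option_getD.comp (Primrec.decode.comp Primrec.snd)
        (Primrec.const b0))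
    refine (Sg.ex_nat (p := fun a u => p a ((Encodable.decode (α := β) u).getD b0))
      (hp.comp h1)).of_eq fun a => ?_
    constructor
    · rintro ⟨u, hu⟩; exact ⟨_, hu⟩
    · rintro ⟨b, hb⟩; exact ⟨Encodable.encode b, by simpa using hb⟩
  · refine (Sg.const False).of_eq fun a => ?_
    constructor
    · exact False.elim
    · rintro ⟨b, _⟩; exact hne ⟨b⟩

@[fun_prop] theorem pr_ITE {p : α → Prop} {f g : α → ℕ} (hp : Sg 0 p) (hf : Primrec f)
    (hg : Primrec g) : Primrec (fun a => ITE (p a) (f a) (g a)) := by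
  classical
  exact Primrec.ite hp hf hg

theorem Sg.exists_prim {p : α → Prop} (hp : Sg 1 p) :
    ∃ q : α × ℕ → Prop, Sg 0 q ∧ ∀ a, p a ↔ ∃ u, q (a, u) := by
  obtain ⟨q, hq, h⟩ := sg_succ.1 hp
  exact ⟨fun x => ¬ q x, hq.not0, h⟩

/-- bounded search: one more than the largest `y < n` with `p y`, or zero -/
noncomputable def bs (n : ℕ) (p : ℕ → Prop) : ℕ :=
  Nat.rec 0 (fun i acc => ITE (p i) (i + 1) acc) n

/-- the number of `y < n` with `p y` -/
noncomputable def cnt (n : ℕ) (p : ℕ → Prop) : ℕ :=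
  Nat.rec 0 (fun i acc => acc + ITE (p i) 1 0) n

@[fun_prop] theorem pr_bs {p : α → ℕ → Prop} {f : α → ℕ} (hf : Primrec f)
    (hp : Sg 0 fun x : α × ℕ => p x.1 x.2) : Primrec (fun a => bs (f a) (p a)) := by
  unfold bs
  refine Primrec.nat_rec' (h := fun a x => ITE (p a x.1) (x.1 + 1) x.2) hf (Primrec.const 0) ?_
  exact pr_ITE (hp.comp (f := fun y : α × ℕ × ℕ => (y.1, y.2.1)) (by fun_prop))
    (by fun_prop) (by fun_prop)

@[fun_prop] theorem pr_cnt {p : α → ℕ → Prop} {f : α → ℕ} (hf : Primrec f)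
    (hp : Sg 0 fun x : α × ℕ => p x.1 x.2) : Primrec (fun a => cnt (f a) (p a)) := by
  unfold cnt
  refine Primrec.nat_rec' (h := fun a x => x.2 + ITE (p a x.1) 1 0) hf (Primrec.const 0) ?_
  exact pr_add (by fun_prop) (pr_ITE (hp.comp (f := fun y : α × ℕ × ℕ => (y.1, y.2.1))
    (by fun_prop)) (by fun_prop) (by fun_prop))

end Sg

theorem bs_succ (n : ℕ) (p : ℕ → Prop) : bs (n + 1) p = ITE (p n) (n + 1) (bs n p) := rfl
theorem cnt_succ (n : ℕ) (p : ℕ → Prop) : cnt (n + 1) p = cnt n p + ITE (p n) 1 0 := rfl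

theorem bs_spec {n y : ℕ} {p : ℕ → Prop} (h : bs n p = y + 1) : y < n ∧ p y := by
  induction n with
  | zero => simp [bs] at h
  | succ n ih =>
    rw [bs_succ] at h
    by_cases hp : p n
    · rw [ITE_pos hp] at h
      obtain rfl : n = y := by omega
      exact ⟨by omega, hp⟩
    · rw [ITE_neg hp] at h
      exact ⟨by have := (ih h).1; omega, (ih h).2⟩

theorem bs_ne_zero {n y : ℕ} {p : ℕ → Prop} (hy : y < n) (hp : p y) : bs n p ≠ 0 := by
  induction n with
  | zero => omega
  | succ n ih =>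
    rw [bs_succ]
    by_cases hn : p n
    · rw [ITE_pos hn]; omega
    · rw [ITE_neg hn]
      apply ih
      rcases Nat.lt_or_ge y n with h | h
      · exact h
      · obtain rfl : y = n := by omega
        exact absurd hp hn

theorem bs_congr {n : ℕ} {p q : ℕ → Prop} (h : ∀ y < n, (p y ↔ q y)) : bs n p = bs n q := by
  induction n with
  | zero => rfl
  | succ n ih =>
    rw [bs_succ, bs_succ, ih (fun y hy => h y (by omega))]
    exact ITE_congr (h n (by omega)) (fun _ => rfl) (fun _ => rfl)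

theorem cnt_congr {n : ℕ} {p q : ℕ → Prop} (h : ∀ y < n, (p y ↔ q y)) : cnt n p = cnt n q := by
  induction n with
  | zero => rfl
  | succ n ih =>
    rw [cnt_succ, cnt_succ, ih (fun y hy => h y (by omega))]
    rw [ITE_congr (h n (by omega)) (fun _ => rfl) (fun _ => rfl)]

theorem cnt_stab {k n : ℕ} {p : ℕ → Prop} (hk : k ≤ n) (h : ∀ i, k ≤ i → i < n → ¬ p i) :
    cnt n p = cnt k p := by
  induction hk with
  | refl => rfl
  | step hm ih =>
    rw [cnt_succ, ITE_neg (h _ hm (by omega)), ih (fun i h1 h2 => h i h1 (by omega))]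
    rfl

open Classical in
theorem cnt_eq_count (n : ℕ) (p : ℕ → Prop) : cnt n p = Nat.count p n := by
  induction n with
  | zero => rfl
  | succ n ih => rw [cnt_succ, Nat.count_succ, ih]; rfl

/-- bit `i` of `x` -/
def bt (x i : ℕ) : ℕ := x / 2 ^ i % 2

@[fun_prop] theorem pr_bt {α : Type} [Primcodable α] {f g : α → ℕ} (hf : Primrec f)
    (hg : Primrec g) : Primrec (fun a => bt (f a) (g a)) := by
  unfold bt; fun_prop

theorem bt_lt (x i : ℕ) : bt x i < 2 := Nat.mod_lt _ (by norm_num)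

theorem exists_bits (n : ℕ) (β : ℕ → ℕ) : ∃ j < 2 ^ n, ∀ i < n, bt j i ≠ β i := by
  refine ⟨Nat.ofBits (fun i : Fin n => decide (β i = 0)), Nat.ofBits_lt_two_pow _, fun i hi => ?_⟩
  have h := Nat.testBit_ofBits_lt (fun i : Fin n => decide (β i = 0)) i hi
  rw [Nat.testBit_eq_decide_div_mod_eq] at h
  unfold bt
  by_cases hb : β i = 0
  · simp only [hb, decide_true, decide_eq_true_eq] at h
    omega
  · simp only [hb, decide_false, decide_eq_false_iff_not] at h
    omega

/-- Recursion along a rank function with finite levels. -/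
theorem exists_rec {α : Type} [Primcodable α] (ρ : α → ℕ) (B : ℕ → ℕ) (hρ : Primrec ρ)
    (hB : Primrec B) (hBm : ∀ x l, ρ x ≤ l → Encodable.encode x < B l) (x0 : α)
    (step : α → (α → ℕ) → ℕ)
    (hstep : Primrec fun z : α × List ℕ => step z.1 (fun y => z.2.getD (Encodable.encode y) 0))
    (hloc : ∀ x f g, (∀ y, ρ y < ρ x → f y = g y) → step x f = step x g) :
    ∃ F : α → ℕ, Primrec F ∧ ∀ x, F x = step x F := by
  let dec : ℕ → α := fun u => (Encodable.decode (α := α) u).getD x0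
  have hdec : Primrec dec := Primrec.option_getD.comp Primrec.decode (Primrec.const x0)
  let T : ℕ → List ℕ := fun l => Nat.rec [] (fun l L => (List.range (B l)).map
    (fun u => step (dec u) (fun y => L.getD (Encodable.encode y) 0))) l
  have hT : Primrec T := by
    refine Primrec.nat_rec₁ [] ?_
    refine Primrec.list_map (f := fun z : ℕ × List ℕ => List.range (B z.1)) (by fun_prop) ?_
    exact hstep.comp (g := fun z : (ℕ × List ℕ) × ℕ => (dec z.2, z.1.2)) (by fun_prop)
  have hTs : ∀ l x, ρ x ≤ l → (T (l + 1)).getD (Encodable.encode x) 0 =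
      step x (fun y => (T l).getD (Encodable.encode y) 0) := by
    intro l x hx
    have := hBm x l hx
    simp [T, dec, this]
  let F : α → ℕ := fun x => (T (ρ x + 1)).getD (Encodable.encode x) 0
  have key : ∀ l x, ρ x < l → (T l).getD (Encodable.encode x) 0 = F x := by
    intro l
    induction l using Nat.strong_induction_on with
    | _ l ih =>
      intro x hx
      obtain ⟨l, rfl⟩ : ∃ l', l = l' + 1 := ⟨l - 1, by omega⟩
      simp only [F]
      rw [hTs l x (by omega), hTs _ x le_rfl]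
      apply hloc
      intro y hy
      rw [ih l (by omega) y (by omega), ih (ρ x) (by omega) y hy]
  refine ⟨F, by simp only [F]; fun_prop, fun x => ?_⟩
  show (T (ρ x + 1)).getD (Encodable.encode x) 0 = _
  rw [hTs _ x le_rfl]
  exact hloc _ _ _ (fun y hy => key _ y hy)

theorem pair_mono {a b c d : ℕ} (h1 : a ≤ c) (h2 : b ≤ d) : Nat.pair a b ≤ Nat.pair c d := by
  have e1 : Nat.pair a b ≤ Nat.pair c b := by
    rcases Nat.eq_or_lt_of_le h1 with h | h
    · rw [h]
    · exact (Nat.pair_lt_pair_left _ h).le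
  have e2 : Nat.pair c b ≤ Nat.pair c d := by
    rcases Nat.eq_or_lt_of_le h2 with h | h
    · rw [h]
    · exact (Nat.pair_lt_pair_right _ h).le
  omega

abbrev N4 := ℕ × ℕ × ℕ × ℕ

theorem exists_rec4 (ρ : N4 → ℕ) (hρ : Primrec ρ)
    (hb : ∀ x : N4, x.1 ≤ ρ x ∧ x.2.1 ≤ ρ x ∧ x.2.2.1 ≤ ρ x ∧ x.2.2.2 ≤ ρ x)
    (step : N4 → (N4 → ℕ) → ℕ)
    (hstep : Primrec fun z : N4 × List ℕ => step z.1 (fun y => z.2.getD (Encodable.encode y) 0))
    (hloc : ∀ x f g, (∀ y, ρ y < ρ x → f y = g y) → step x f = step x g) :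
    ∃ F : N4 → ℕ, Primrec F ∧ ∀ x, F x = step x F := by
  refine exists_rec ρ (fun l => Nat.pair l (Nat.pair l (Nat.pair l l)) + 1) hρ (by fun_prop) ?_
    (0, 0, 0, 0) step hstep hloc
  rintro ⟨a, b, c, d⟩ l hl
  obtain ⟨h1, h2, h3, h4⟩ := hb (a, b, c, d)
  simp only at h1 h2 h3 h4
  show Nat.pair a (Nat.pair b (Nat.pair c d)) < _
  exact Nat.lt_succ_of_le (pair_mono (by omega) (pair_mono (by omega) (pair_mono (by omega)
    (by omega))))

end Pool.Agent.Lib.MP_774a52_lc
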