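import Mathlib.Data.List.GetD
import Pool.Agent.Lib.MP_774a52_lc.HighJump

/-! Effective dependent choice, compactness, and free sets. -/

namespace Pool.Agent.Lib.MP_774a52_lc.NS

open Filter

section DC
variable {α : Type} [Primcodable α]

theorem unif {β : Type} [Primcodable β] (a0 : α) {R : β × α → Prop} (hR : Sg 2 R) :
    ∃ R' : β × α → Prop, Sg 2 R' ∧ (∀ z, R' z → R z) ∧
      (∀ b a a', R' (b, a) → R' (b, a') → a = a') ∧ ∀ b a, R (b, a) → ∃ a', R' (b, a') := by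
  classical
  obtain ⟨q, hq, e⟩ := sg_succ.1 hR
  let dec : ℕ → α := fun u => (Encodable.decode (α := α) u).getD a0
  have hdec : Primrec dec := Primrec.option_getD.comp Primrec.decode (Primrec.const a0)
  let p : β × ℕ → Prop := fun z => q ((z.1, dec (Nat.unpair z.2).1), (Nat.unpair z.2).2)
  have hp : Sg 1 p := hq.comp (by fun_prop)
  have hp2 : Sg 2 p := hp.lift
  refine ⟨fun z => ∃ w : ℕ, dec (Nat.unpair w).1 = z.2 ∧ ¬ p (z.1, w) ∧
    BAll w fun w' => p (z.1, w'), by fun_prop, ?_, ?_, ?_⟩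
  · rintro ⟨b, a⟩ ⟨w, h1, h2, -⟩
    exact (e _).2 ⟨_, by simpa only [p, h1] using h2⟩
  · rintro b a a' ⟨w, h1, h2, h3⟩ ⟨w', h1', h2', h3'⟩
    rcases lt_trichotomy w w' with h | h | h
    · exact absurd (h3' w h) h2
    · subst h; exact h1.symm.trans h1'
    · exact absurd (h3 w' h) h2'
  · intro b a h
    obtain ⟨u, hu⟩ := (e _).1 h
    have hex : ∃ w, ¬ p (b, w) := ⟨Nat.pair (Encodable.encode a) u, by simpa [p, dec] using hu⟩
    exact ⟨_, Nat.find hex, rfl, Nat.find_spec hex, fun w' hw' => not_not.1 (Nat.find_min hex hw')⟩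

theorem dc2 (a0 : α) {R : (ℕ × α) × α → Prop} (hR : Sg 2 R) (I : ℕ → α → Prop) (h0 : I 0 a0)
    (hstep : ∀ s a, I s a → ∃ a', R ((s, a), a')) (hI : ∀ s a a', R ((s, a), a') → I (s + 1) a') :
    ∃ st : ℕ → α, (∀ s, I s (st s)) ∧ (∀ s, R ((s, st s), st (s + 1))) ∧
      Sg 2 fun z : ℕ × α => st z.1 = z.2 := by
  obtain ⟨R', hR', h1, h2, h3⟩ := unif a0 hR
  have h4 : ∀ s (a : {a // I s a}), ∃ a' : {a // I (s + 1) a}, R' ((s, a.1), a'.1) := by
    rintro s ⟨a, ha⟩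
    obtain ⟨a', ha'⟩ := hstep s a ha
    obtain ⟨a'', h⟩ := h3 _ _ ha'
    exact ⟨⟨a'', hI _ _ _ (h1 _ h)⟩, h⟩
  choose f hf using h4
  let T : ∀ s, {a // I s a} := fun s => Nat.rec ⟨a0, h0⟩ f s
  have hT : ∀ s, R' ((s, (T s).1), (T (s + 1)).1) := fun s => hf s (T s)
  refine ⟨fun s => (T s).1, fun s => (T s).2, fun s => h1 _ (hT s), ?_⟩
  have h5 : Sg 2 fun z : ℕ × α => ∃ l : List α, l.getD 0 a0 = a0 ∧ l.getD z.1 a0 = z.2 ∧
      BAll z.1 fun i => R' ((i, l.getD i a0), l.getD (i + 1) a0) := by fun_prop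
  refine h5.of_eq ?_
  rintro ⟨s, a⟩
  constructor
  · rintro ⟨l, e0, e1, e2⟩
    have : ∀ i ≤ s, l.getD i a0 = (T i).1 := by
      intro i
      induction i with
      | zero => intro _; exact e0
      | succ i ih =>
        intro hi
        have := e2 i hi
        beta_reduce at this
        rw [ih (by omega)] at this
        exact h2 _ _ _ this (hT i)
    exact (this s le_rfl).symm.trans e1
  · intro h
    have e : ∀ i ≤ s, ((List.range (s + 1)).map fun i => (T i).1).getD i a0 = (T i).1 := by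
      intro i hi
      simp [List.getD_eq_getElem?_getD, List.getElem?_range (Nat.lt_succ_of_le hi)]
    refine ⟨(List.range (s + 1)).map fun i => (T i).1, e 0 (by omega), (e s le_rfl).trans h,
      fun i hi => ?_⟩
    have hi' : i < s := hi
    beta_reduce
    rw [e i (by omega), e (i + 1) (by omega)]
    exact hT i

theorem compact {W : α × List ℕ → Prop} (hW : Sg 1 W) :
    Sg 1 fun a => ¬ ∃ X : Set ℕ, ∀ u, ¬ W (a, tab X u) := by
  classical
  have h : Sg 1 fun a => ∃ l : ℕ, BAll (2 ^ l) fun j => BEx (l + 1) fun u =>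
      W (a, (List.range u).map (bt j)) := by fun_prop
  refine h.of_eq fun a => ⟨?_, ?_⟩
  · rintro ⟨l, hl⟩ ⟨X, hX⟩
    obtain ⟨j, hj, hj'⟩ := exists_bits l (fun i => if i ∈ X then 0 else 1)
    obtain ⟨u, hu, hu'⟩ := hl j hj
    apply hX u
    have : (List.range u).map (bt j) = tab X u := by
      unfold tab
      refine List.map_congr_left fun i hi => ?_
      have h1 := hj' i (by have := List.mem_range.1 hi; omega)
      have h2 := bt_lt j i
      split_ifs at h1 ⊢ <;> omega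
    exact this ▸ hu'
  · intro hn
    by_contra hc
    apply hn
    have h1 : ∀ l, ∃ j, ∀ u ≤ l, ¬ W (a, (List.range u).map (bt j)) := by
      intro l
      by_contra h2
      push Not at h2
      exact hc ⟨l, fun j _ => by
        obtain ⟨u, hu, hu'⟩ := h2 j
        exact ⟨u, by omega, hu'⟩⟩
    choose j hj using h1
    refine ⟨{n | ∀ᶠ l in (hyperfilter ℕ : Filter ℕ), bt (j l) n = 1}, fun u => ?_⟩
    have h2 : ∀ᶠ l in (hyperfilter ℕ : Filter ℕ), ∀ i ∈ Finset.range u, bt (j l) i =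
        if i ∈ {n | ∀ᶠ l in (hyperfilter ℕ : Filter ℕ), bt (j l) n = 1} then 1 else 0 := by
      refine (Finset.eventually_all _).2 fun i _ => ?_
      split_ifs with h3
      · exact h3
      · have h4 := (Ultrafilter.eventually_not (f := hyperfilter ℕ)).2 h3
        filter_upwards [h4] with l hl
        have := bt_lt (j l) i
        omega
    have h3 : ∀ᶠ l in (hyperfilter ℕ : Filter ℕ), u ≤ l :=
      (Nat.hyperfilter_le_atTop) (eventually_ge_atTop u)
    obtain ⟨l, h4, h5⟩ := (h2.and h3).exists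
    have : (List.range u).map (bt (j l)) =
        tab {n | ∀ᶠ l in (hyperfilter ℕ : Filter ℕ), bt (j l) n = 1} u := by
      unfold tab
      refine List.map_congr_left fun i hi => ?_
      rw [h4 i (by simpa using hi)]
    exact this ▸ hj l u h5

@[fun_prop] theorem sg_prefix {n : ℕ} {f g : α → List ℕ} (hf : Primrec f) (hg : Primrec g) :
    Sg n fun a => f a <+: g a :=
  (Sg.eq hf (pr_take (pr_length hf) hg)).of_eq fun _ => List.prefix_iff_eq_take.symm

end DC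

/-- program `q` halts on input `q` using only the string `τ` -/
def Jp (τ : List ℕ) (q : ℕ) : Prop :=
  BEx (τ.length + 1) fun u => ∃ v : ℕ, Gen Rule (τ.take u, q, q, v)

def Ev (q : ℕ) (τ : List ℕ) : Prop :=
  (q % 2 = 0 ∧ Jp τ (q / 2)) ∨ (q % 2 = 1 ∧ BEx τ.length fun y => q / 2 ≤ y ∧ τ.getD y 0 = 1)

theorem ev_sg1 : Sg 1 fun z : ℕ × List ℕ => Ev z.1 z.2 := by
  have := ev_sg
  unfold Ev Jp
  fun_prop

@[fun_prop] theorem sg_ev {α : Type} [Primcodable α] {n : ℕ} {f : α → ℕ} {g : α → List ℕ}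
    (hf : Primrec f) (hg : Primrec g) : Sg (n + 1) fun a => Ev (f a) (g a) :=
  (ev_sg1.mono (by omega)).comp (hf.pair hg)

theorem one_lt {τ : List ℕ} {n : ℕ} (h : τ.getD n 0 = 1) : n < τ.length := by
  by_contra hn
  rw [List.getD_eq_default _ _ (by omega)] at h
  omega

theorem pre_getD {σ τ : List ℕ} (h : σ <+: τ) {n : ℕ} (hn : n < σ.length) :
    τ.getD n 0 = σ.getD n 0 := by
  obtain ⟨t, rfl⟩ := h
  exact List.getD_append _ _ _ _ hn

theorem Ev.mono {q : ℕ} {σ τ : List ℕ} (h : σ <+: τ) (h1 : Ev q σ) : Ev q τ := by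
  have hl := h.length_le
  rcases h1 with ⟨h1, u, hu, v, hv⟩ | ⟨h1, y, hy, h2, h3⟩
  · refine Or.inl ⟨h1, u, by omega, v, ?_⟩
    obtain ⟨t, rfl⟩ := h
    rwa [List.take_append_of_le_length (by omega)]
  · exact Or.inr ⟨h1, y, by omega, h2, by rw [pre_getD h hy, h3]⟩

theorem ev_odd {n : ℕ} {τ : List ℕ} : Ev (2 * n + 1) τ ↔ ∃ y, n ≤ y ∧ τ.getD y 0 = 1 := by
  have e : (2 * n + 1) / 2 = n := by omega
  constructor
  · rintro (⟨h, -⟩ | ⟨-, y, -, h1, h2⟩)
    · omega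
    · exact ⟨y, by omega, h2⟩
  · rintro ⟨y, h1, h2⟩
    exact Or.inr ⟨by omega, y, one_lt h2, by omega, h2⟩

theorem ev_even {n : ℕ} {τ : List ℕ} : Ev (2 * n) τ ↔ Jp τ n := by
  have e : (2 * n) / 2 = n := by omega
  constructor
  · rintro (⟨-, h⟩ | ⟨h, -⟩)
    · exact e ▸ h
    · omega
  · intro h
    exact Or.inl ⟨by omega, e.symm ▸ h⟩

def zs (m : ℕ) : List ℕ := (List.range m).map fun _ => 0

@[fun_prop] theorem pr_zs {α : Type} [Primcodable α] {f : α → ℕ} (hf : Primrec f) :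
    Primrec fun a => zs (f a) := by
  unfold zs; fun_prop

theorem zs_len (m : ℕ) : (zs m).length = m := by simp [zs]

theorem zs_getD (m n : ℕ) : (zs m).getD n 0 = 0 := by
  by_cases h : n < m
  · simp [zs, List.getD_eq_getElem?_getD, List.getElem?_replicate, h]
  · exact List.getD_eq_default _ _ (by rw [zs_len]; omega)

theorem pad_getD (σ : List ℕ) (m n : ℕ) : (σ ++ zs m).getD n 0 = σ.getD n 0 := by
  by_cases h : n < σ.length
  · exact List.getD_append _ _ _ _ h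
  · rw [List.getD_append_right _ _ _ _ (by omega), zs_getD, List.getD_eq_default _ _ (by omega)]

section Free
variable (c : ℕ → ℕ → Fin 2)

def Hom (i : Fin 2) (τ : List ℕ) : Prop :=
  BAll τ.length fun x => τ.getD x 0 ≤ 1 ∧ BAll τ.length fun y =>
    Imp (x < y ∧ τ.getD x 0 = 1 ∧ τ.getD y 0 = 1) (c x y = i)

def Good (i : Fin 2) (σ : List ℕ) : Prop :=
  Hom c i σ ∧ ∀ x y, σ.getD x 0 = 1 → σ.length ≤ y → c x y = i

def Ext (σ τ : List ℕ) (Y : Set ℕ) : Prop :=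
  σ <+: τ ∧ ∀ n, σ.length ≤ n → τ.getD n 0 = 1 → n ∈ Y

def Free (i : Fin 2) (σ Q : List ℕ) (Y : Set ℕ) : Prop :=
  ∀ τ, Ext σ τ Y → Hom c i τ → ∀ q ∈ Q, ¬ Ev q τ

variable {c}

theorem hom_iff {i : Fin 2} {τ : List ℕ} : Hom c i τ ↔ (∀ x, τ.getD x 0 ≤ 1) ∧
    ∀ x y, x < y → τ.getD x 0 = 1 → τ.getD y 0 = 1 → c x y = i := by
  constructor
  · intro h
    refine ⟨fun x => ?_, fun x y h1 h2 h3 => (h x (one_lt h2)).2 y (one_lt h3) ⟨h1, h2, h3⟩⟩
    by_cases hx : x < τ.length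
    · exact (h x hx).1
    · rw [List.getD_eq_default _ _ (by omega)]; omega
  · rintro ⟨h1, h2⟩ x _
    exact ⟨h1 x, fun y _ h => h2 x y h.1 h.2.1 h.2.2⟩

theorem Ext.refl (σ : List ℕ) (Y : Set ℕ) : Ext σ σ Y :=
  ⟨List.prefix_refl _, fun _ h1 h2 => absurd (one_lt h2) (by omega)⟩

theorem Ext.trans {σ τ υ : List ℕ} {Y : Set ℕ} (h1 : Ext σ τ Y) (h2 : Ext τ υ Y) : Ext σ υ Y := by
  refine ⟨h1.1.trans h2.1, fun n hn h => ?_⟩
  by_cases h3 : n < τ.length
  · exact h1.2 n hn (by rw [← pre_getD h2.1 h3, h])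
  · exact h2.2 n (by omega) h

theorem Ext.mono {σ τ : List ℕ} {Y Z : Set ℕ} (h1 : Ext σ τ Y) (h : Y ⊆ Z) : Ext σ τ Z :=
  ⟨h1.1, fun n hn h2 => h (h1.2 n hn h2)⟩

theorem Ext.pad (σ : List ℕ) (m : ℕ) (Y : Set ℕ) : Ext σ (σ ++ zs m) Y :=
  ⟨List.prefix_append _ _, fun n h1 h2 => by
    rw [pad_getD] at h2
    exact absurd (one_lt h2) (by omega)⟩

theorem Free.ext {i : Fin 2} {σ τ Q : List ℕ} {Y : Set ℕ} (h : Free c i σ Q Y) (h1 : Ext σ τ Y) :
    Free c i τ Q Y := fun υ h2 => h υ (h1.trans h2)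

theorem Free.mono {i : Fin 2} {σ Q : List ℕ} {Y Z : Set ℕ} (h : Free c i σ Q Z) (h1 : Y ⊆ Z) :
    Free c i σ Q Y := fun τ h2 => h τ (h2.mono h1)

theorem Free.self {i : Fin 2} {σ Q : List ℕ} {Y : Set ℕ} (h : Free c i σ Q Y) (h1 : Good c i σ) :
    ∀ q ∈ Q, ¬ Ev q σ := h σ (Ext.refl _ _) h1.1

theorem free_nil (i : Fin 2) (σ : List ℕ) (Y : Set ℕ) : Free c i σ [] Y := fun _ _ _ => by simp

theorem Free.append {i : Fin 2} {σ Q Q' : List ℕ} {Y : Set ℕ} (h : Free c i σ Q Y)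
    (h' : Free c i σ Q' Y) : Free c i σ (Q ++ Q') Y := fun τ h1 h2 q hq =>
  (List.mem_append.1 hq).elim (h τ h1 h2 q) (h' τ h1 h2 q)

theorem Hom.pad {i : Fin 2} {σ : List ℕ} (h : Hom c i σ) (m : ℕ) : Hom c i (σ ++ zs m) := by
  rw [hom_iff] at h ⊢
  simpa only [pad_getD] using h

theorem Good.pad {i : Fin 2} {σ : List ℕ} (h : Good c i σ) (m : ℕ) : Good c i (σ ++ zs m) :=
  ⟨h.1.pad m, fun x y h1 h2 => h.2 x y (by rwa [pad_getD] at h1)
    (by rw [List.length_append] at h2; omega)⟩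

theorem good_zs (i : Fin 2) (m : ℕ) : Good c i (zs m) :=
  ⟨hom_iff.2 ⟨fun x => by rw [zs_getD]; omega, fun x y _ h => by rw [zs_getD] at h; omega⟩,
    fun x y h => by rw [zs_getD] at h; omega⟩

/-- a pending growth event bounds the set -/
theorem Free.bound {i : Fin 2} {σ Q : List ℕ} {Y : Set ℕ} {n : ℕ} (h : Free c i σ Q Y)
    (h1 : Good c i σ) (hq : 2 * n + 1 ∈ Q) {y : ℕ} (hy : y ∈ Y) : y < n + σ.length := by
  by_contra hc
  have hl : (σ ++ zs (y - σ.length)).length = y := by rw [List.length_append, zs_len]; omega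
  have e : ∀ x, ((σ ++ zs (y - σ.length)) ++ [1]).getD x 0 = if x = y then 1 else σ.getD x 0 := by
    intro x
    rcases lt_trichotomy x y with h2 | h2 | h2
    · rw [List.getD_append _ _ _ _ (by omega), pad_getD, if_neg (by omega)]
    · rw [List.getD_append_right _ _ _ _ (by omega), hl, h2]; simp
    · rw [List.getD_eq_default _ _ (by rw [List.length_append, hl]; simp; omega),
        if_neg (by omega), List.getD_eq_default _ _ (by omega)]
  have h3 := hom_iff.1 h1.1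
  refine h ((σ ++ zs (y - σ.length)) ++ [1]) ⟨?_, fun x hx h2 => ?_⟩
    (hom_iff.2 ⟨fun x => ?_, fun a b hab ha hb => ?_⟩) _ hq (ev_odd.2 ⟨y, by omega, ?_⟩)
  · rw [List.append_assoc]; exact List.prefix_append _ _
  · rw [e] at h2
    split_ifs at h2 with h4
    · exact h4 ▸ hy
    · exact absurd (one_lt h2) (by omega)
  · rw [e]
    split_ifs
    · exact le_rfl
    · exact h3.1 x
  · rw [e] at ha hb
    split_ifs at ha hb with h4 h5 h5
    · omega
    · have := one_lt hb; omega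
    · exact h1.2 a b ha (by omega)
    · exact h3.2 a b hab ha hb
  · rw [e, if_pos rfl]

theorem free_zs {i : Fin 2} {m : ℕ} {Y : Set ℕ} (h : ∀ y ∈ Y, y < m) : Free c i (zs m) [1] Y := by
  intro τ h1 _ q hq h2
  obtain rfl : q = 2 * 0 + 1 := by simpa using hq
  obtain ⟨y, -, hy⟩ := ev_odd.1 h2
  by_cases h3 : y < (zs m).length
  · rw [pre_getD h1.1 h3, zs_getD] at hy
    omega
  · have := h y (h1.2 y (by omega) hy)
    rw [zs_len] at h3
    omega

/-- an extension inside the limit colour can be padded to a good string -/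
theorem good_pad {i : Fin 2} {σ τ : List ℕ} {Y : Set ℕ} (h : Good c i σ) (h1 : Ext σ τ Y)
    (h2 : Hom c i τ) (hY : ∀ x ∈ Y, ∃ y0, ∀ y ≥ y0, c x y = i) :
    ∃ m, Good c i (τ ++ zs m) := by
  obtain ⟨b, hb⟩ := exists_bound (fun x y0 => τ.getD x 0 = 1 → ∀ y ≥ y0, c x y = i) τ.length
    (fun x _ => by
      by_cases h3 : τ.getD x 0 = 1
      · by_cases h4 : x < σ.length
        · exact ⟨σ.length, fun _ y hy => h.2 x y (by rw [← pre_getD h1.1 h4, h3]) hy⟩
        · obtain ⟨y0, h5⟩ := hY x (h1.2 x (by omega) h3)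
          exact ⟨y0, fun _ => h5⟩
      · exact ⟨0, fun h4 => absurd h4 h3⟩)
  refine ⟨b, h2.pad b, fun x y h3 h4 => ?_⟩
  rw [pad_getD] at h3
  rw [List.length_append, zs_len] at h4
  obtain ⟨u, hu, hu'⟩ := hb x (one_lt h3)
  exact hu' h3 y (by omega)

theorem free_lim {i : Fin 2} {σ Q : List ℕ} {Y : Set ℕ} {Z : ℕ → Set ℕ}
    (hZ : ∀ n ∈ Y, ∀ᶠ u in atTop, n ∈ Z u) (h : ∀ u, Free c i σ Q (Z u)) : Free c i σ Q Y := by
  intro τ h1 h2
  have h3 : ∀ᶠ u in atTop, ∀ n ∈ Finset.range τ.length, n ∈ Y → n ∈ Z u := by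
    refine (Finset.eventually_all _).2 fun n _ => ?_
    by_cases hn : n ∈ Y
    · filter_upwards [hZ n hn] with u hu _ using hu
    · exact Eventually.of_forall fun u h => absurd h hn
  obtain ⟨u, hu⟩ := h3.exists
  exact h u τ ⟨h1.1, fun n hn h4 => hu n (Finset.mem_range.2 (one_lt h4)) (h1.2 n hn h4)⟩ h2

variable (hc : ∀ i, Sg 1 fun z : ℕ × ℕ => c z.1 z.2 = i)
include hc

theorem hom_sg (i : Fin 2) : Sg 1 (Hom c i) := by
  have h := hc i
  unfold Hom
  refine Sg.ball (by fun_prop) (Sg.and (by fun_prop) (Sg.ball (by fun_prop)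
    (Sg.imp_succ (by fun_prop) ?_)))
  exact h.comp (f := fun z : (List ℕ × ℕ) × ℕ => (z.1.2, z.2)) (by fun_prop)

theorem good_sg (i : Fin 2) : Sg 2 (Good c i) := by
  have h := hc (1 - i)
  have h1 : Sg 1 fun σ : List ℕ => ∃ x y : ℕ, σ.getD x 0 = 1 ∧ σ.length ≤ y ∧ c x y = 1 - i := by
    refine Sg.ex (Sg.ex (Sg.and (by fun_prop) (Sg.and (by fun_prop) ?_)))
    exact h.comp (f := fun z : (List ℕ × ℕ) × ℕ => (z.1.2, z.2)) (by fun_prop)
  refine ((hom_sg hc i).lift.and h1.not_succ).of_eq fun σ => and_congr_right fun _ => ?_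
  have e : ∀ i a : Fin 2, a = 1 - i ↔ ¬ a = i := by decide
  simp only [e]
  push Not
  rfl

theorem nfree_sg {α : Type} [Primcodable α] (i : Fin 2) {f g : α → List ℕ} {Y : α → Set ℕ}
    (hf : Primrec f) (hg : Primrec g) (hY : Sg 1 fun z : α × ℕ => z.2 ∈ Y z.1) :
    Sg 1 fun a => ¬ Free c i (f a) (g a) (Y a) := by
  have h1 := hom_sg hc i
  have h2 : Sg 1 fun a => ∃ τ : List ℕ, f a <+: τ ∧ (BAll τ.length fun n =>
      Imp ((f a).length ≤ n ∧ τ.getD n 0 = 1) (n ∈ Y a)) ∧ Hom c i τ ∧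
      ∃ q : ℕ, q ∈ g a ∧ Ev q τ := by
    refine Sg.ex (Sg.and (by fun_prop) (Sg.and (Sg.ball (by fun_prop)
      (Sg.imp_succ (by fun_prop) ?_)) (by fun_prop)))
    exact hY.comp (f := fun z : (α × List ℕ) × ℕ => (z.1.1, z.2)) (by fun_prop)
  refine h2.of_eq fun a => ?_
  unfold Free
  push Not
  refine exists_congr fun τ => ⟨?_, ?_⟩
  · rintro ⟨h3, h4, h5⟩
    exact ⟨⟨h3, fun n hn h => h4 n (one_lt h) ⟨hn, h⟩⟩, h5⟩
  · rintro ⟨⟨h3, h4⟩, h5⟩
    exact ⟨h3, fun n _ h => h4 n h.1 h.2, h5⟩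

end Free

end Pool.Agent.Lib.MP_774a52_lc.NS
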