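import Pool.Agent.Lib.MP_774a52_lc.NS1

/-! The construction: states, steps, definability, totality. -/

namespace Pool.Agent.Lib.MP_774a52_lc.NS

open Filter

def Lev (X : Set ℕ) (d : ℕ) : Set ℕ := {n | ∀ d' < d, Nat.pair d' n ∈ X}
def Dif (X : Set ℕ) (d : ℕ) : Set ℕ := Lev X d \ Lev X (d + 1)
def LevS (κ : List ℕ) (d : ℕ) : Set ℕ := {n | BAll d fun d' => κ.getD (Nat.pair d' n) 0 = 1}
def DifS (κ : List ℕ) (d : ℕ) : Set ℕ :=
  {n | n ∈ LevS κ d ∧ Nat.pair d n < κ.length ∧ κ.getD (Nat.pair d n) 0 ≠ 1}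

theorem Lev.anti (X : Set ℕ) {d e : ℕ} (h : d ≤ e) : Lev X e ⊆ Lev X d :=
  fun _ hn d' hd => hn d' (by omega)

theorem levS_sub (X : Set ℕ) (u d : ℕ) : LevS (tab X u) d ⊆ Lev X d := fun n hn d' hd => by
  have h := hn d' hd
  have h1 := one_lt h
  rw [tab_length] at h1
  exact (tab_getD_one X h1).1 h

theorem difS_sub (X : Set ℕ) (u d : ℕ) : DifS (tab X u) d ⊆ Dif X d := by
  rintro n ⟨h1, h2, h3⟩
  rw [tab_length] at h2
  exact ⟨levS_sub X u d h1, fun h => h3 ((tab_getD_one X h2).2 (h d (by omega)))⟩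

theorem levS_ev (X : Set ℕ) (d : ℕ) : ∀ n ∈ Lev X d, ∀ᶠ u in atTop, n ∈ LevS (tab X u) d := by
  intro n hn
  filter_upwards [eventually_gt_atTop (Nat.pair d n)] with u hu d' hd
  exact (tab_getD_one X (lt_of_le_of_lt (pair_mono hd.le le_rfl) hu)).2 (hn d' hd)

theorem difS_ev (X : Set ℕ) (d : ℕ) : ∀ n ∈ Dif X d, ∀ᶠ u in atTop, n ∈ DifS (tab X u) d := by
  intro n hn
  filter_upwards [eventually_gt_atTop (Nat.pair d n), levS_ev X d n hn.1] with u hu h1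
  refine ⟨h1, by rwa [tab_length], fun h => hn.2 fun d' hd => ?_⟩
  rcases Nat.lt_or_ge d' d with h2 | h2
  · exact hn.1 d' h2
  · obtain rfl : d' = d := by omega
    exact (tab_getD_one X hu).1 h

abbrev Lv := List ℕ × List ℕ × List ℕ × List ℕ × ℕ × ℕ
abbrev St := List ℕ × List Lv × ℕ

def lv (L : List Lv) (d : ℕ) : Lv := L.getD d ([], [], [], [], 0, 0)
def Lv.r (l : Lv) : List ℕ := l.1
def Lv.S (l : Lv) : List ℕ := l.2.1
def Lv.A (l : Lv) : List ℕ := l.2.2.1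
def Lv.B (l : Lv) : List ℕ := l.2.2.2.1
def Lv.j (l : Lv) : ℕ := l.2.2.2.2.1
def Lv.x (l : Lv) : ℕ := l.2.2.2.2.2

section PR
variable {α : Type} [Primcodable α]
@[fun_prop] theorem pr_lv {f : α → List Lv} {g : α → ℕ} (hf : Primrec f) (hg : Primrec g) :
    Primrec fun a => lv (f a) (g a) := by unfold lv; fun_prop
@[fun_prop] theorem pr_r {f : α → Lv} (hf : Primrec f) : Primrec fun a => (f a).r := by
  unfold Lv.r; fun_prop
@[fun_prop] theorem pr_S {f : α → Lv} (hf : Primrec f) : Primrec fun a => (f a).S := by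
  unfold Lv.S; fun_prop
@[fun_prop] theorem pr_A {f : α → Lv} (hf : Primrec f) : Primrec fun a => (f a).A := by
  unfold Lv.A; fun_prop
@[fun_prop] theorem pr_B {f : α → Lv} (hf : Primrec f) : Primrec fun a => (f a).B := by
  unfold Lv.B; fun_prop
@[fun_prop] theorem pr_j {f : α → Lv} (hf : Primrec f) : Primrec fun a => (f a).j := by
  unfold Lv.j; fun_prop
@[fun_prop] theorem pr_x {f : α → Lv} (hf : Primrec f) : Primrec fun a => (f a).x := by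
  unfold Lv.x; fun_prop
end PR

def upd (L : List Lv) (d : ℕ) (a : Lv) : List Lv := (List.range d).map (lv L) ++ [a]

theorem upd_lt {L : List Lv} {d i : ℕ} (a : Lv) (h : i < d) : lv (upd L d a) i = lv L i := by
  unfold upd
  rw [lv, List.getD_append _ _ _ _ (by simpa using h)]
  simp [List.getD_eq_getElem?_getD, List.getElem?_range h]

theorem upd_self (L : List Lv) (d : ℕ) (a : Lv) : lv (upd L d a) d = a := by
  unfold upd
  rw [lv, List.getD_append_right _ _ _ _ (by simp)]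
  simp

/-- the data of the construction -/
structure Dat where
  c : ℕ → ℕ → Fin 2
  hc : ∀ i, Sg 1 fun z : ℕ × ℕ => c z.1 z.2 = i
  hs : ∀ x, ∃ i, ∃ y0, ∀ y ≥ y0, c x y = i
  G : ℕ → ℕ → Prop
  Cn : ℕ → ℕ → ℕ → Prop
  h1 : Sg 2 fun z : ℕ × ℕ × ℕ => Cn z.1 z.2.1 z.2.2
  h0 : Sg 2 fun z : ℕ × ℕ × ℕ => ¬ Cn z.1 z.2.1 z.2.2
  snd : ∀ s x v, Cn s x v → G x v
  ev : ∀ x v, G x v → ∀ᶠ s in atTop, Cn s x v
  fn : ∀ x v w, G x v → G x w → v = w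

variable (D : Dat)

def ClG (σ : List ℕ) (L : List Lv) (k : ℕ) (lev dif : ℕ → Set ℕ) (ρ S : List ℕ) : Prop :=
  (∀ d < k, Free D.c 0 σ (lv L d).A (lev (d + 1)) ∧ Free D.c 1 (lv L d).r (lv L d).B (dif d) ∧
    Free D.c 1 (lv L d).r (lv L d).S (lev d)) ∧ Free D.c 1 ρ S (lev k)

def NE (σ : List ℕ) (L : List Lv) (k : ℕ) (ρ S : List ℕ) : Prop :=
  ∃ X : Set ℕ, ClG D σ L k (Lev X) (Dif X) ρ S

theorem clG_iff {σ L k ρ S} {X : Set ℕ} : ClG D σ L k (Lev X) (Dif X) ρ S ↔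
    ∀ u, ClG D σ L k (LevS (tab X u)) (DifS (tab X u)) ρ S := by
  constructor
  · rintro ⟨h1, h2⟩ u
    exact ⟨fun d hd => ⟨(h1 d hd).1.mono (levS_sub X u _), (h1 d hd).2.1.mono (difS_sub X u _),
      (h1 d hd).2.2.mono (levS_sub X u _)⟩, h2.mono (levS_sub X u _)⟩
  · intro h
    exact ⟨fun d hd => ⟨free_lim (levS_ev X _) fun u => ((h u).1 d hd).1,
      free_lim (difS_ev X _) fun u => ((h u).1 d hd).2.1,
      free_lim (levS_ev X _) fun u => ((h u).1 d hd).2.2⟩, free_lim (levS_ev X _) fun u => (h u).2⟩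

abbrev P5 := List ℕ × List Lv × ℕ × List ℕ × List ℕ

theorem ne_sg1 : Sg 1 fun z : P5 => ¬ NE D z.1 z.2.1 z.2.2.1 z.2.2.2.1 z.2.2.2.2 := by
  have hL : Sg 1 fun z : (List ℕ × ℕ) × ℕ => z.2 ∈ LevS z.1.1 z.1.2 := by
    unfold LevS
    simp only [Set.mem_ofPred_eq]
    fun_prop
  have hD : Sg 1 fun z : (List ℕ × ℕ) × ℕ => z.2 ∈ DifS z.1.1 z.1.2 := by
    unfold DifS
    simp only [Set.mem_ofPred_eq]
    exact hL.and (by fun_prop)
  have h : Sg 1 fun z : P5 × List ℕ => (BEx z.1.2.2.1 fun d =>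
      ¬ Free D.c 0 z.1.1 (lv z.1.2.1 d).A (LevS z.2 (d + 1)) ∨
      ¬ Free D.c 1 (lv z.1.2.1 d).r (lv z.1.2.1 d).B (DifS z.2 d) ∨
      ¬ Free D.c 1 (lv z.1.2.1 d).r (lv z.1.2.1 d).S (LevS z.2 d)) ∨
      ¬ Free D.c 1 z.1.2.2.2.1 z.1.2.2.2.2 (LevS z.2 z.1.2.2.1) := by
    refine Sg.or (Sg.bex (by fun_prop) (Sg.or ?_ (Sg.or ?_ ?_))) ?_
    · exact nfree_sg D.hc 0 (by fun_prop) (by fun_prop) (hL.comp
        (f := fun w : ((P5 × List ℕ) × ℕ) × ℕ => ((w.1.1.2, w.1.2 + 1), w.2)) (by fun_prop))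
    · exact nfree_sg D.hc 1 (by fun_prop) (by fun_prop) (hD.comp
        (f := fun w : ((P5 × List ℕ) × ℕ) × ℕ => ((w.1.1.2, w.1.2), w.2)) (by fun_prop))
    · exact nfree_sg D.hc 1 (by fun_prop) (by fun_prop) (hL.comp
        (f := fun w : ((P5 × List ℕ) × ℕ) × ℕ => ((w.1.1.2, w.1.2), w.2)) (by fun_prop))
    · exact nfree_sg D.hc 1 (by fun_prop) (by fun_prop) (hL.comp
        (f := fun w : (P5 × List ℕ) × ℕ => ((w.1.2, w.1.1.2.2.1), w.2)) (by fun_prop))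
  refine (compact h).of_eq fun z => not_congr (exists_congr fun X => ?_)
  rw [clG_iff]
  refine forall_congr' fun u => ?_
  simp only [ClG, BEx, not_or, not_exists, not_and, not_not]

section SG
variable {α : Type} [Primcodable α]

@[fun_prop] theorem sg_nne {f1 f4 f5 : α → List ℕ} {f2 : α → List Lv} {f3 : α → ℕ}
    (h1 : Primrec f1) (h2 : Primrec f2) (h3 : Primrec f3) (h4 : Primrec f4) (h5 : Primrec f5) :
    Sg 1 fun a => ¬ NE D (f1 a) (f2 a) (f3 a) (f4 a) (f5 a) :=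
  (ne_sg1 D).comp (f := fun a => (f1 a, f2 a, f3 a, f4 a, f5 a)) (by fun_prop)

@[fun_prop] theorem sg_ne {f1 f4 f5 : α → List ℕ} {f2 : α → List Lv} {f3 : α → ℕ}
    (h1 : Primrec f1) (h2 : Primrec f2) (h3 : Primrec f3) (h4 : Primrec f4) (h5 : Primrec f5) :
    Sg 2 fun a => NE D (f1 a) (f2 a) (f3 a) (f4 a) (f5 a) :=
  (sg_nne D h1 h2 h3 h4 h5).not_succ.of_eq fun _ => not_not

@[fun_prop] theorem sg_cn {f g h : α → ℕ} (hf : Primrec f) (hg : Primrec g) (hh : Primrec h) :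
    Sg 2 fun a => D.Cn (f a) (g a) (h a) :=
  D.h1.comp (f := fun a => (f a, g a, h a)) (by fun_prop)

theorem sg_ncn {f g h : α → ℕ} (hf : Primrec f) (hg : Primrec g) (hh : Primrec h) :
    Sg 2 fun a => ¬ D.Cn (f a) (g a) (h a) :=
  D.h0.comp (f := fun a => (f a, g a, h a)) (by fun_prop)

@[fun_prop] theorem sg_good (i : Fin 2) {f : α → List ℕ} (hf : Primrec f) :
    Sg 2 fun a => Good D.c i (f a) := (good_sg D.hc i).comp hf

end SG

def Dec (τ Q : List ℕ) (v : ℕ) : Prop := BAll v fun i => 2 * i ∈ Q ∨ Ev (2 * i) τ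

def InT (s x n q : ℕ) : Prop :=
  q = 2 * n + 1 ∨ BEx s fun v => D.Cn s x v ∧ q < 2 * v ∧ q % 2 = 0

def Cov (s x n : ℕ) (τ Q : List ℕ) : Prop :=
  (2 * n + 1 ∈ Q ∨ Ev (2 * n + 1) τ) ∧ BAll s fun v => ¬ D.Cn s x v ∨ Dec τ Q v

def xb (j : ℕ) : ℕ := Nat.pair (Nat.unpair j).1 0

def Inv (s : ℕ) (a : St) : Prop :=
  Good D.c 0 a.1 ∧ (BAll (a.2.2 + 1) fun d => Good D.c 1 (lv a.2.1 d).r ∧ (lv a.2.1 d).x ≤ s) ∧
  (BAll a.2.2 fun d => (2 * d + 1 ∈ (lv a.2.1 d).A ∨ Ev (2 * d + 1) a.1) ∧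
    Cov D (lv a.2.1 d).j (xb (lv a.2.1 d).j) (lv a.2.1 d).j (lv a.2.1 d).r (lv a.2.1 d).B) ∧
  NE D a.1 a.2.1 a.2.2 (lv a.2.1 a.2.2).r (lv a.2.1 a.2.2).S

def RA (s : ℕ) (a : St) (e : ℕ) : Prop :=
  NE D a.1 a.2.1 (e + 1) (zs (s + a.1.length + (lv a.2.1 (e + 1)).r.length)) [1]

def WA (s : ℕ) (a : St) (e : ℕ) : Prop :=
  BEx s fun v => D.Cn s (Nat.pair e (lv a.2.1 e).x) v ∧ ¬ Dec a.1 (lv a.2.1 e).A v

def Quiet (s : ℕ) (a : St) : Prop := ∀ e < a.2.2, ¬ RA D s a e ∧ ¬ WA D s a e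

def Agr (d : ℕ) (L L' : List Lv) : Prop := BAll d fun i => lv L' i = lv L i

def Keep (l l' : Lv) : Prop := l.r <+: l'.r ∧ l'.S = l.S ∧ l'.j = l.j ∧ l'.x = l.x

def Cred (s : ℕ) (l l' : Lv) : Prop :=
  l.r <+: l'.r ∧ l'.S = l.S ++ l.B ∧ l'.j = l.j + 1 ∧ l'.x = s + 1

def Prog (s x n : ℕ) (σ τ : List ℕ) : Prop := ∃ q : ℕ, InT D s x n q ∧ ¬ Ev q σ ∧ Ev q τ

def Step (s : ℕ) (a b : St) : Prop :=
  Inv D (s + 1) b ∧ a.1 <+: b.1 ∧
  ((b.2.2 < a.2.2 ∧ Agr b.2.2 a.2.1 b.2.1 ∧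
      (Cred s (lv a.2.1 b.2.2) (lv b.2.1 b.2.2) ∨
        (Keep (lv a.2.1 b.2.2) (lv b.2.1 b.2.2) ∧ WA D s a b.2.2))) ∨
    (Quiet D s a ∧ Agr a.2.2 a.2.1 b.2.1 ∧ Keep (lv a.2.1 a.2.2) (lv b.2.1 a.2.2) ∧
      ((b.2.2 = a.2.2 + 1 ∧ (lv b.2.1 b.2.2).x = s + 1 ∧
          Cov D s (Nat.pair a.2.2 (lv a.2.1 a.2.2).x) a.2.2 b.1 (lv b.2.1 a.2.2).A) ∨
        (b.2.2 = a.2.2 ∧ (Prog D s (Nat.pair a.2.2 (lv a.2.1 a.2.2).x) a.2.2 a.1 b.1 ∨
          Prog D (lv a.2.1 a.2.2).j (xb (lv a.2.1 a.2.2).j) (lv a.2.1 a.2.2).j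
            (lv a.2.1 a.2.2).r (lv b.2.1 a.2.2).r)))))

section SG2
variable {α : Type} [Primcodable α]

@[fun_prop] theorem sg_dec {n : ℕ} {f g : α → List ℕ} {h : α → ℕ} (hf : Primrec f)
    (hg : Primrec g) (hh : Primrec h) : Sg (n + 1) fun a => Dec (f a) (g a) (h a) := by
  unfold Dec; fun_prop

@[fun_prop] theorem pr_xb {f : α → ℕ} (hf : Primrec f) : Primrec fun a => xb (f a) := by
  unfold xb; fun_prop

@[fun_prop] theorem sg_cov {f1 f2 f3 : α → ℕ} {f g : α → List ℕ} (h1 : Primrec f1)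
    (h2 : Primrec f2) (h3 : Primrec f3) (hf : Primrec f) (hg : Primrec g) :
    Sg 2 fun a => Cov D (f1 a) (f2 a) (f3 a) (f a) (g a) := by
  unfold Cov
  exact Sg.and (by fun_prop) (Sg.ball h1 (Sg.or
    (sg_ncn D (by fun_prop) (by fun_prop) (by fun_prop)) (by fun_prop)))

@[fun_prop] theorem sg_prog {f1 f2 f3 : α → ℕ} {f g : α → List ℕ} (h1 : Primrec f1)
    (h2 : Primrec f2) (h3 : Primrec f3) (hf : Primrec f) (hg : Primrec g) :
    Sg 2 fun a => Prog D (f1 a) (f2 a) (f3 a) (f a) (g a) := by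
  unfold Prog InT; fun_prop

@[fun_prop] theorem sg_inv {f : α → ℕ} {g : α → St} (hf : Primrec f) (hg : Primrec g) :
    Sg 2 fun a => Inv D (f a) (g a) := by
  unfold Inv; fun_prop

@[fun_prop] theorem sg_wa {f h : α → ℕ} {g : α → St} (hf : Primrec f) (hg : Primrec g)
    (hh : Primrec h) : Sg 2 fun a => WA D (f a) (g a) (h a) := by
  unfold WA; fun_prop

@[fun_prop] theorem sg_quiet {f : α → ℕ} {g : α → St} (hf : Primrec f) (hg : Primrec g) :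
    Sg 2 fun a => Quiet D (f a) (g a) := by
  have h : Sg 2 fun a => BAll (g a).2.2 fun e => ¬ RA D (f a) (g a) e ∧ BAll (f a) fun v =>
      ¬ D.Cn (f a) (Nat.pair e (lv (g a).2.1 e).x) v ∨ Dec (g a).1 (lv (g a).2.1 e).A v := by
    refine Sg.ball (by fun_prop) (Sg.and ?_ (Sg.ball (by fun_prop) (Sg.or
      (sg_ncn D (by fun_prop) (by fun_prop) (by fun_prop)) (by fun_prop))))
    unfold RA
    exact (sg_nne D (by fun_prop) (by fun_prop) (by fun_prop) (by fun_prop) (by fun_prop)).lift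
  refine h.of_eq fun a => forall_congr' fun e => forall_congr' fun _ =>
    and_congr_right fun _ => ?_
  simp only [WA, BAll, BEx, not_exists, not_and, not_not]
  exact forall_congr' fun v => forall_congr' fun _ => by tauto

end SG2

theorem step_sg : Sg 2 fun z : (ℕ × St) × St => Step D z.1.1 z.1.2 z.2 := by
  unfold Step Agr Cred Keep
  fun_prop

end Pool.Agent.Lib.MP_774a52_lc.NS
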