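import Pool.Agent.Lib.MP_774a52_lc.NS2

/-! Totality of the step relation. -/

namespace Pool.Agent.Lib.MP_774a52_lc.NS

open Filter

variable {D : Dat}

theorem Dec.mono {σ τ Q Q' : List ℕ} {v : ℕ} (h : Dec σ Q v) (h1 : σ <+: τ)
    (h2 : ∀ q ∈ Q, q ∈ Q') : Dec τ Q' v := fun i hi => (h i hi).imp (h2 _) (Ev.mono h1)

theorem pend (D : Dat) (s x n : ℕ) (τ : List ℕ) :
    ∃ Q : List ℕ, (∀ q ∈ Q, InT D s x n q ∧ ¬ Ev q τ) ∧ Cov D s x n τ Q := by
  classical
  have e : ∀ q, InT D s x n q → q ∈ (List.range (2 * n + 2 + 2 * s)).filter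
      (fun q => InT D s x n q ∧ ¬ Ev q τ) ∨ Ev q τ := by
    intro q hq
    by_cases h : Ev q τ
    · exact Or.inr h
    · refine Or.inl (List.mem_filter.2 ⟨List.mem_range.2 ?_, by simp [hq, h]⟩)
      rcases hq with h1 | ⟨v, h1, -, h2, -⟩ <;> omega
  refine ⟨(List.range (2 * n + 2 + 2 * s)).filter (fun q => InT D s x n q ∧ ¬ Ev q τ),
    fun q hq => by simpa using (List.mem_filter.1 hq).2, e _ (Or.inl rfl), fun v hv => ?_⟩
  by_cases h : D.Cn s x v
  · exact Or.inr fun i hi => e _ (Or.inr ⟨v, hv, h, by omega, by omega⟩)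
  · exact Or.inl h

theorem Keep.refl (l : Lv) : Keep l l := ⟨List.prefix_refl _, rfl, rfl, rfl⟩

theorem Agr.refl (d : ℕ) (L : List Lv) : Agr d L L := fun _ _ => rfl

theorem agr_upd (L : List Lv) (d : ℕ) (a : Lv) : Agr d L (upd L d a) := fun _ hi => upd_lt a hi

/-- a new state whose lower levels are those of the old one -/
theorem inv_of {s k k' : ℕ} {σ σ' : List ℕ} {L L' : List Lv} (h : Inv D s (σ, L, k))
    (hk : k' ≤ k) (hA : Agr k' L L') (hσ : σ <+: σ') (h1 : Good D.c 0 σ')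
    (h2 : Good D.c 1 (lv L' k').r) (h3 : (lv L' k').x ≤ s + 1)
    (h4 : NE D σ' L' k' (lv L' k').r (lv L' k').S) : Inv D (s + 1) (σ', L', k') := by
  obtain ⟨-, i1, i2, -⟩ := h
  refine ⟨h1, fun d hd => ?_, fun d hd => ?_, h4⟩
  · have hd' : d < k' + 1 := hd
    rcases Nat.lt_or_ge d k' with h5 | h5
    · have := i1 d (show d < k + 1 by omega)
      simp only [hA d h5]
      exact ⟨this.1, this.2.trans (by omega)⟩
    · obtain rfl : d = k' := by omega
      exact ⟨h2, h3⟩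
  · have hd' : d < k' := hd
    have := i2 d (show d < k by omega)
    simp only [hA d hd']
    exact ⟨this.1.imp id (Ev.mono hσ), this.2⟩

theorem clG_agr {σ ρ S ρ' S' : List ℕ} {L L' : List Lv} {k k' : ℕ} {lev dif : ℕ → Set ℕ}
    (h : ClG D σ L k lev dif ρ S) (hk : k' ≤ k) (hA : Agr k' L L')
    (h1 : Free D.c 1 ρ' S' (lev k')) : ClG D σ L' k' lev dif ρ' S' :=
  ⟨fun d hd => by rw [hA d hd]; exact h.1 d (by omega), h1⟩

theorem step_R {s e : ℕ} {a : St} (h : Inv D s a) (he : e < a.2.2) (hR : RA D s a e) :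
    ∃ b, Step D s a b := by
  obtain ⟨σ, L, k⟩ := a
  obtain ⟨X, hX⟩ := hR
  simp only at he hX
  generalize s + σ.length + (lv L (e + 1)).r.length = M at hX
  have hb : ∀ y ∈ Lev X (e + 1), y < M := fun y hy => by
    have := Free.bound (n := 0) hX.2 (good_zs 1 M) (by simp) hy
    rwa [zs_len, Nat.zero_add] at this
  let l : Lv := ((lv L e).r ++ zs M, (lv L e).S ++ (lv L e).B, [], [], (lv L e).j + 1, s + 1)
  have hl : lv (upd L e l) e = l := upd_self L e l
  have h0 := hX.1 e (by omega)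
  refine ⟨(σ, upd L e l, e), inv_of h he.le (agr_upd L e l) (List.prefix_refl _) h.1 ?_ ?_
    ⟨X, clG_agr hX (by omega) (agr_upd L e l) ?_⟩, List.prefix_refl _,
    Or.inl ⟨he, agr_upd L e l, Or.inl ?_⟩⟩
  · rw [hl]; exact (h.2.1 e (show e < k + 1 by omega)).1.pad M
  · rw [hl]; exact le_rfl
  · rw [hl]
    refine Free.append (h0.2.2.ext (Ext.pad _ _ _)) fun τ hτ => h0.2.1 τ
      ⟨(List.prefix_append _ _).trans hτ.1, fun n hn h1 => ?_⟩
    have h2 : ((lv L e).r ++ zs M).length ≤ n := by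
      by_contra h3
      have h4 := pre_getD hτ.1 (n := n) (by exact not_le.1 h3)
      rw [h1] at h4
      have h5 := pad_getD (lv L e).r M n
      have h6 := one_lt (h5.symm.trans h4.symm)
      omega
    refine ⟨hτ.2 n h2 h1, fun h3 => ?_⟩
    have := hb n h3
    rw [List.length_append, zs_len] at h2
    omega
  · simp only [hl]
    exact ⟨List.prefix_append _ _, rfl, rfl, rfl⟩

theorem step_W {s e : ℕ} {a : St} (h : Inv D s a) (he : e < a.2.2) (hW : WA D s a e) :
    ∃ b, Step D s a b := by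
  obtain ⟨σ, L, k⟩ := a
  obtain ⟨X, hX⟩ := h.2.2.2
  have h1 := h.2.1 e (show e < k + 1 from Nat.lt_succ_of_lt he)
  exact ⟨(σ, L, e), inv_of h he.le (Agr.refl _ _) (List.prefix_refl _) h.1 h1.1
    (h1.2.trans (by omega)) ⟨X, clG_agr hX he.le (Agr.refl _ _) (hX.1 e he).2.2⟩,
    List.prefix_refl _, Or.inl ⟨he, Agr.refl _ _, Or.inr ⟨Keep.refl _, hW⟩⟩⟩

theorem lev_split (X A : Set ℕ) (k : ℕ) : ∃ X' : Set ℕ, (∀ d ≤ k, Lev X' d = Lev X d) ∧
    Lev X' (k + 1) = Lev X k ∩ A := by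
  refine ⟨{p | ((Nat.unpair p).1 = k ∧ (Nat.unpair p).2 ∈ A) ∨ ((Nat.unpair p).1 ≠ k ∧ p ∈ X)},
    fun d hd => ?_, ?_⟩
  · ext n
    refine forall_congr' fun d' => forall_congr' fun h => ?_
    have : d' ≠ k := by omega
    simp [this]
  · ext n
    constructor
    · intro h
      refine ⟨fun d' hd => ?_, by simpa using h k (by omega)⟩
      have : d' ≠ k := by omega
      simpa [this] using h d' (by omega)
    · rintro ⟨h1, h2⟩ d' hd
      by_cases h3 : d' = k
      · simp [h3, h2]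
      · simpa [h3] using h1 d' (by omega)

theorem step_Q {s : ℕ} {a : St} (h : Inv D s a) (hQ : Quiet D s a) : ∃ b, Step D s a b := by
  obtain ⟨σ, L, k⟩ := a
  obtain ⟨X, hX⟩ := h.2.2.2
  simp only at hX
  have h1 := h.2.1 k (show k < k + 1 by omega)
  simp only at h1
  obtain ⟨Q0, p0, c0⟩ := pend D s (Nat.pair k (lv L k).x) k σ
  obtain ⟨Q1, p1, c1⟩ := pend D (lv L k).j (xb (lv L k).j) (lv L k).j (lv L k).r
  let A : Set ℕ := {x | ∃ y0, ∀ y ≥ y0, D.c x y = 0}
  by_cases f0 : Free D.c 0 σ Q0 (Lev X k ∩ A)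
  · by_cases f1 : Free D.c 1 (lv L k).r Q1 (Lev X k \ A)
    · obtain ⟨X', e1, e2⟩ := lev_split X A k
      let l : Lv := ((lv L k).r, (lv L k).S, Q0, Q1, (lv L k).j, (lv L k).x)
      let l' : Lv := ([], [], [], [], 0, s + 1)
      have a1 : ∀ d < k, lv (upd (upd L k l) (k + 1) l') d = lv L d := fun d hd => by
        rw [upd_lt _ (by omega), upd_lt _ hd]
      have a2 : lv (upd (upd L k l) (k + 1) l') k = l := by rw [upd_lt _ (by omega), upd_self]
      have a3 : lv (upd (upd L k l) (k + 1) l') (k + 1) = l' := upd_self _ _ _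
      refine ⟨(σ, upd (upd L k l) (k + 1) l', k + 1), ⟨h.1, fun d hd => ?_, fun d hd => ?_,
        X', fun d hd => ?_, ?_⟩, List.prefix_refl _, Or.inr ⟨hQ, a1, ?_, Or.inl ⟨rfl, ?_, ?_⟩⟩⟩
      · have hd' : d < k + 1 + 1 := hd
        rcases lt_trichotomy d k with h2 | h2 | h2
        · have := h.2.1 d (show d < k + 1 by omega)
          simp only [a1 d h2]
          exact ⟨this.1, this.2.trans (by omega)⟩
        · simp only [h2, a2]
          exact ⟨h1.1, h1.2.trans (by omega)⟩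
        · obtain rfl : d = k + 1 := by omega
          simp only [a3]
          exact ⟨good_zs 1 0, le_rfl⟩
      · have hd' : d < k + 1 := hd
        rcases Nat.lt_or_ge d k with h2 | h2
        · simp only [a1 d h2]
          exact h.2.2.1 d h2
        · obtain rfl : d = k := by omega
          simp only [a2]
          exact ⟨c0.1, c1⟩
      · have hd' : d < k + 1 := hd
        rcases Nat.lt_or_ge d k with h2 | h2
        · simp only [a1 d h2, Dif, e1 d h2.le, e1 (d + 1) h2]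
          exact hX.1 d h2
        · obtain rfl : d = k := by omega
          simp only [a2, Dif, e1 d le_rfl, e2]
          exact ⟨f0, f1.mono fun n hn => ⟨hn.1, fun h3 => hn.2 ⟨hn.1, h3⟩⟩, hX.2⟩
      · simp only [a3]
        exact free_nil _ _ _
      · simp only [a2]
        exact Keep.refl _
      · simp only [a3]
        rfl
      · simp only [a2]
        exact c0
    · unfold Free at f1
      push Not at f1
      obtain ⟨τ, t1, t2, q, t3, t4⟩ := f1
      obtain ⟨m, hm⟩ := good_pad h1.1 t1 t2 (fun x hx => by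
        obtain ⟨i, y0, hi⟩ := D.hs x
        have e : ∀ i : Fin 2, i ≠ 0 → i = 1 := by decide
        exact ⟨y0, e i (fun h2 => hx.2 ⟨y0, h2 ▸ hi⟩) ▸ hi⟩)
      have t5 : Ext (lv L k).r (τ ++ zs m) (Lev X k) :=
        (t1.mono fun _ hn => hn.1).trans (Ext.pad _ _ _)
      let l : Lv := (τ ++ zs m, (lv L k).S, [], [], (lv L k).j, (lv L k).x)
      have hl : lv (upd L k l) k = l := upd_self L k l
      refine ⟨(σ, upd L k l, k), inv_of h le_rfl (agr_upd L k l) (List.prefix_refl _) h.1 ?_ ?_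
        ⟨X, clG_agr hX le_rfl (agr_upd L k l) ?_⟩, List.prefix_refl _,
        Or.inr ⟨hQ, agr_upd L k l, ?_, Or.inr ⟨rfl, Or.inr ⟨q, (p1 q t3).1, (p1 q t3).2, ?_⟩⟩⟩⟩
      · rw [hl]; exact hm
      · rw [hl]; exact h1.2.trans (by omega)
      · rw [hl]; exact hX.2.ext t5
      · simp only [hl]
        exact ⟨t5.1, rfl, rfl, rfl⟩
      · simp only [hl]
        exact t4.mono (List.prefix_append _ _)
  · unfold Free at f0
    push Not at f0
    obtain ⟨τ, t1, t2, q, t3, t4⟩ := f0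
    obtain ⟨m, hm⟩ := good_pad h.1 t1 t2 (fun x hx => hx.2)
    have t5 : Ext σ (τ ++ zs m) (Lev X k) := (t1.mono fun _ hn => hn.1).trans (Ext.pad _ _ _)
    refine ⟨(τ ++ zs m, L, k), inv_of h le_rfl (Agr.refl _ _) t5.1 hm h1.1
      (h1.2.trans (by omega)) ⟨X, fun d hd => ?_, hX.2⟩, t5.1,
      Or.inr ⟨hQ, Agr.refl _ _, Keep.refl _, Or.inr ⟨rfl, Or.inl ⟨q, (p0 q t3).1, (p0 q t3).2,
        t4.mono (List.prefix_append _ _)⟩⟩⟩⟩
    exact ⟨(hX.1 d hd).1.ext (t5.mono (Lev.anti X hd)), (hX.1 d hd).2⟩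

theorem step_total (s : ℕ) (a : St) (h : Inv D s a) : ∃ b, Step D s a b := by
  by_cases hQ : Quiet D s a
  · exact step_Q h hQ
  · unfold Quiet at hQ
    push Not at hQ
    obtain ⟨e, he, h1⟩ := hQ
    by_cases hR : RA D s a e
    · exact step_R h he hR
    · exact step_W h he (h1 hR)

theorem run (D : Dat) : ∃ st : ℕ → St, (∀ s, Inv D s (st s)) ∧
    (∀ s, Step D s (st s) (st (s + 1))) ∧ Sg 2 fun z : ℕ × St => st z.1 = z.2 :=
  dc2 (([], [], 0) : St) (step_sg D) (Inv D)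
    ⟨good_zs 0 0, fun d _ => by simp only [lv, List.getD_nil]; exact ⟨good_zs 1 0, le_rfl⟩,
      fun d hd => absurd hd (Nat.not_lt_zero d), ∅, fun d hd => absurd hd (Nat.not_lt_zero d),
      free_nil _ _ _⟩
    (fun s a h => step_total s a h) (fun _ _ _ h => h.1)

end Pool.Agent.Lib.MP_774a52_lc.NS
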