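import Pool.Agent.Lib.MP_774a52_lc.NS3

/-! Verification, part one: chains of strings, and the case where every level settles. -/

namespace Pool.Agent.Lib.MP_774a52_lc.NS

open Filter

theorem mem_jump (X : Set ℕ) (q : ℕ) : q ∈ jump X ↔ ∃ u v, Gen Rule (tab X u, q, q, v) := by
  obtain ⟨c, rfl⟩ := enc_surj q
  constructor
  · rintro ⟨d, hd, h⟩
    obtain rfl := enc_inj _ _ hd
    obtain ⟨v, hv⟩ := Part.dom_iff_mem.1 h
    obtain ⟨u, hu⟩ := (mem_eval_iff X d _ v).1 hv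
    exact ⟨u, v, hu⟩
  · rintro ⟨u, v, hu⟩
    exact ⟨c, rfl, Part.dom_iff_mem.2 ⟨v, (mem_eval_iff X c _ v).2 ⟨u, hu⟩⟩⟩

theorem pre_le {τ : ℕ → List ℕ} {s0 : ℕ} (h : ∀ s, s0 ≤ s → τ s <+: τ (s + 1)) {s t : ℕ}
    (hs : s0 ≤ s) (ht : s ≤ t) : τ s <+: τ t := by
  induction ht with
  | refl => exact List.prefix_refl _
  | step h1 ih => exact ih.trans (h _ (hs.trans h1))

def Fit (τ κ : List ℕ) : Prop := BAll κ.length fun i =>
  (κ.getD i 0 = 1 ∧ Ev (2 * i) τ) ∨ (κ.getD i 0 = 0 ∧ ¬ Ev (2 * i) τ)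

@[fun_prop] theorem sg_fit {α : Type} [Primcodable α] {f g : α → List ℕ} (hf : Primrec f)
    (hg : Primrec g) : Sg 2 fun a => Fit (f a) (g a) := by
  unfold Fit; fun_prop

def Out (D : Dat) (H : Set ℕ) : Prop :=
  H.Infinite ∧ (∃ i, ∀ x ∈ H, ∀ y ∈ H, x < y → D.c x y = i) ∧ (Sg 2 fun n => n ∈ H) ∧
  (Sg 2 fun n => n ∉ H) ∧ ∃ Z : ℕ × List ℕ → Prop, Sg 2 Z ∧ ∀ e, ∃ ξ, ∀ v,
    D.G (Nat.pair e ξ) v → Z (Nat.pair e ξ, tab (jump H) v) ∧
      ∀ κ : List ℕ, κ.length = v → Z (Nat.pair e ξ, κ) → κ = tab (jump H) v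

theorem chain {c : ℕ → ℕ → Fin 2} {i : Fin 2} {τ : ℕ → List ℕ} (hm : ∀ s, τ s <+: τ (s + 1))
    (hh : ∀ s, Hom c i (τ s)) (hg : ∀ n, ∃ s, Ev (2 * n + 1) (τ s))
    (hS : Sg 2 fun z : ℕ × List ℕ => τ z.1 = z.2) :
    ∃ H : Set ℕ, H.Infinite ∧ (∀ x ∈ H, ∀ y ∈ H, x < y → c x y = i) ∧ (Sg 2 fun n => n ∈ H) ∧
      (Sg 2 fun n => n ∉ H) ∧ ∀ s Q v, Dec (τ s) Q v → (∀ q ∈ Q, ∀ t, ¬ Ev q (τ t)) →
        ∀ κ : List ℕ, κ.length = v → (Fit (τ s) κ ↔ κ = tab (jump H) v) := by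
  have hm' : ∀ {s t}, s ≤ t → τ s <+: τ t := fun h => pre_le (fun s _ => hm s) (Nat.zero_le _) h
  let H : Set ℕ := {n | ∃ s, (τ s).getD n 0 = 1}
  have h1 : ∀ s n, n < (τ s).length → (n ∈ H ↔ (τ s).getD n 0 = 1) := by
    refine fun s n hn => ⟨?_, fun h => ⟨s, h⟩⟩
    rintro ⟨t, ht⟩
    rw [← pre_getD (hm' (le_max_left s t)) hn, pre_getD (hm' (le_max_right s t)) (one_lt ht), ht]
  have h2 : ∀ n, ∃ s, n < (τ s).length := fun n => by
    obtain ⟨s, hs⟩ := hg n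
    obtain ⟨y, hy, hy'⟩ := ev_odd.1 hs
    exact ⟨s, lt_of_le_of_lt hy (one_lt hy')⟩
  have h3 : ∀ s, τ s = tab H (τ s).length := fun s => (isTab_iff H _).1 fun n hn => by
    have := (hom_iff.1 (hh s)).1 n
    beta_reduce
    rw [h1 s n hn]
    omega
  have h4 : ∀ q, q ∈ jump H ↔ ∃ s, Ev (2 * q) (τ s) := by
    intro q
    rw [mem_jump]
    constructor
    · rintro ⟨u, v, h⟩
      obtain ⟨s, hs⟩ := h2 u
      refine ⟨s, ev_even.2 ⟨u, by omega, v, ?_⟩⟩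
      rwa [h3 s, tab_take H hs.le]
    · rintro ⟨s, hs⟩
      obtain ⟨u, hu, v, h⟩ := ev_even.1 hs
      rw [h3 s, tab_take H (by omega)] at h
      exact ⟨u, v, h⟩
  refine ⟨H, Set.infinite_of_forall_exists_gt fun n => ?_, ?_, ?_, ?_, ?_⟩
  · obtain ⟨s, hs⟩ := hg (n + 1)
    obtain ⟨y, hy, hy'⟩ := ev_odd.1 hs
    exact ⟨y, ⟨s, hy'⟩, hy⟩
  · rintro x hx y ⟨t, ht⟩ hxy
    exact (hom_iff.1 (hh t)).2 x y hxy ((h1 t x (hxy.trans (one_lt ht))).1 hx) ht
  · have : Sg 2 fun n : ℕ => ∃ (s : ℕ) (l : List ℕ), τ s = l ∧ l.getD n 0 = 1 :=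
      Sg.ex (Sg.ex (Sg.and (hS.comp (f := fun z : (ℕ × ℕ) × List ℕ => (z.1.2, z.2))
        (by fun_prop)) (by fun_prop)))
    exact this.of_eq fun n => by simp [H]
  · have : Sg 2 fun n : ℕ => ∃ (s : ℕ) (l : List ℕ), τ s = l ∧ n < l.length ∧ l.getD n 0 ≠ 1 :=
      Sg.ex (Sg.ex (Sg.and (hS.comp (f := fun z : (ℕ × ℕ) × List ℕ => (z.1.2, z.2))
        (by fun_prop)) (by fun_prop)))
    refine this.of_eq fun n => ⟨?_, fun h => ?_⟩
    · rintro ⟨s, l, rfl, h5, h6⟩ h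
      exact h6 ((h1 s n h5).1 h)
    · obtain ⟨s, hs⟩ := h2 n
      exact ⟨s, _, rfl, hs, fun h5 => h ⟨s, h5⟩⟩
  · intro s Q v hD hQ κ hκ
    rw [← hκ, ← isTab_iff]
    refine BAll_congr fun n hn => ?_
    have : Ev (2 * n) (τ s) ↔ n ∈ jump H := by
      rw [h4]
      refine ⟨fun h => ⟨s, h⟩, fun ⟨t, ht⟩ => ?_⟩
      exact (hD n (hκ ▸ hn)).resolve_left fun h => hQ _ h t ht
    rw [this]

variable {D : Dat}

theorem Step.low {s : ℕ} {a b : St} (h : Step D s a b) {d : ℕ} (h1 : d < a.2.2) (h2 : d < b.2.2) :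
    lv b.2.1 d = lv a.2.1 d := by
  rcases h.2.2 with h | h
  · exact h.2.1 d h2
  · exact h.2.1 d h1

theorem Step.mid {s : ℕ} {a b : St} (h : Step D s a b) {d : ℕ} (h1 : d ≤ a.2.2) (h2 : d ≤ b.2.2) :
    Keep (lv a.2.1 d) (lv b.2.1 d) ∨ (d < a.2.2 ∧ Cred s (lv a.2.1 d) (lv b.2.1 d)) := by
  rcases h.2.2 with h | h
  · rcases Nat.lt_or_ge d b.2.2 with h3 | h3
    · exact Or.inl (h.2.1 d h3 ▸ Keep.refl _)
    · obtain rfl : d = b.2.2 := by omega
      exact h.2.2.elim (fun h4 => Or.inr ⟨h.1, h4⟩) fun h4 => Or.inl h4.1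
  · rcases Nat.lt_or_ge d a.2.2 with h3 | h3
    · exact Or.inl (h.2.1 d h3 ▸ Keep.refl _)
    · obtain rfl : d = a.2.2 := by omega
      exact Or.inl h.2.2.1

theorem Step.new {s : ℕ} {a b : St} (h : Step D s a b) {d : ℕ} (h1 : a.2.2 < d) (h2 : d ≤ b.2.2) :
    (lv b.2.1 d).x = s + 1 := by
  rcases h.2.2 with h | ⟨-, -, -, h | h⟩
  · omega
  · obtain rfl : d = b.2.2 := by omega
    exact h.2.1
  · omega

theorem Step.drop {s : ℕ} {a b : St} (h : Step D s a b) (h1 : b.2.2 < a.2.2) :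
    Cred s (lv a.2.1 b.2.2) (lv b.2.1 b.2.2) ∨ WA D s a b.2.2 := by
  rcases h.2.2 with h | ⟨-, -, -, h | h⟩
  · exact h.2.2.imp id fun h => h.2
  · omega
  · omega

theorem Step.quiet {s : ℕ} {a b : St} (h : Step D s a b) (h1 : a.2.2 ≤ b.2.2) : Quiet D s a := by
  rcases h.2.2 with h | h
  · omega
  · exact h.1

theorem ra_of {s e : ℕ} {a : St} {X : Set ℕ} {ρ S : List ℕ} (he : e < a.2.2)
    (hX : ClG D a.1 a.2.1 a.2.2 (Lev X) (Dif X) ρ S)
    (h : ∀ y ∈ Lev X (e + 1), y < s + a.1.length + (lv a.2.1 (e + 1)).r.length) : RA D s a e :=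
  ⟨X, clG_agr hX he (Agr.refl _ _) (free_zs h)⟩

theorem caseA {st : ℕ → St} (hI : ∀ s, Inv D s (st s)) (hS : ∀ s, Step D s (st s) (st (s + 1)))
    (hG : Sg 2 fun z : ℕ × St => st z.1 = z.2) (hA : ∀ e, ∀ᶠ s in atTop, e < (st s).2.2) :
    ∃ H, Out D H := by
  have hm : ∀ {s t}, s ≤ t → (st s).1 <+: (st t).1 := fun h =>
    pre_le (τ := fun s => (st s).1) (fun s _ => (hS s).2.1) (Nat.zero_le _) h
  have up : ∀ s, ∃ t ≥ s, Quiet D t (st t) := by
    intro s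
    by_contra hc
    push Not at hc
    have h1 : ∀ t ≥ s, (st t).2.2 ≤ (st s).2.2 := by
      intro t ht
      induction ht with
      | refl => exact le_rfl
      | step h2 ih =>
        have := mt (hS _).quiet (hc _ h2)
        rw [Nat.succ_eq_add_one]
        omega
    obtain ⟨t, h2, h3⟩ := ((hA (st s).2.2).and (eventually_ge_atTop s)).exists
    have := h1 t h3
    omega
  have hg : ∀ n, ∃ s, Ev (2 * n + 1) (st s).1 := by
    intro n
    obtain ⟨s0, h0⟩ := eventually_atTop.1 ((hA n).and (eventually_ge_atTop n))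
    obtain ⟨t, ht, hq⟩ := up s0
    obtain ⟨h1, h2⟩ := h0 t ht
    refine ⟨t, ((hI t).2.2.1 n h1).1.resolve_left fun h3 => (hq n h1).1 ?_⟩
    obtain ⟨X, hX⟩ := (hI t).2.2.2
    refine ra_of h1 hX fun y hy => ?_
    have := (hX.1 n h1).1.bound (hI t).1 h3 hy
    omega
  have hσ : Sg 2 fun z : ℕ × List ℕ => (st z.1).1 = z.2 := by
    have : Sg 2 fun z : ℕ × List ℕ => ∃ a : St, st z.1 = a ∧ a.1 = z.2 :=
      Sg.ex (Sg.and (hG.comp (f := fun w : (ℕ × List ℕ) × St => (w.1.1, w.2)) (by fun_prop))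
        (by fun_prop))
    exact this.of_eq fun z => by simp
  obtain ⟨H, a1, a2, a3, a4, a5⟩ := chain (c := D.c) (i := 0) (τ := fun s => (st s).1)
    (fun s => (hS s).2.1) (fun s => (hI s).1.1) hg hσ
  refine ⟨H, a1, ⟨0, a2⟩, a3, a4, fun z => ∃ (s : ℕ) (a : St), st s = a ∧
    (Nat.unpair z.1).1 < a.2.2 ∧ (lv a.2.1 (Nat.unpair z.1).1).x = (Nat.unpair z.1).2 ∧
    Dec a.1 (lv a.2.1 (Nat.unpair z.1).1).A z.2.length ∧ Fit a.1 z.2,
    Sg.ex (Sg.ex (Sg.and (hG.comp (f := fun w : ((ℕ × List ℕ) × ℕ) × St => (w.1.2, w.2))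
      (by fun_prop)) (by fun_prop))), fun e => ?_⟩
  obtain ⟨s0, h0⟩ := eventually_atTop.1 (hA e)
  have hc : ∀ t ≥ s0, lv (st t).2.1 e = lv (st s0).2.1 e := by
    intro t ht
    induction ht with
    | refl => rfl
    | step h1 ih => rw [(hS _).low (h0 _ h1) (h0 _ (Nat.le_succ_of_le h1)), ih]
  have nev : ∀ q ∈ (lv (st s0).2.1 e).A, ∀ t, ¬ Ev q (st t).1 := by
    intro q hq t h
    obtain ⟨X, hX⟩ := (hI (max t s0)).2.2.2
    refine (hX.1 e (h0 _ (le_max_right _ _))).1.self (hI _).1 q ?_ (h.mono (hm (le_max_left _ _)))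
    rwa [hc _ (le_max_right _ _)]
  refine ⟨(lv (st s0).2.1 e).x, fun v hv => ⟨?_, ?_⟩⟩
  · obtain ⟨s1, h1⟩ := eventually_atTop.1 ((D.ev _ _ hv).and
      ((eventually_gt_atTop v).and (eventually_ge_atTop s0)))
    obtain ⟨t, ht, hq⟩ := up s1
    obtain ⟨h2, h3, h4⟩ := h1 t ht
    have h5 : Dec (st t).1 (lv (st t).2.1 e).A v := by
      by_contra h6
      exact (hq e (h0 t h4)).2 ⟨v, h3, by rw [hc t h4]; exact h2, h6⟩
    simp only [Nat.unpair_pair, tab_length]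
    exact ⟨t, _, rfl, h0 t h4, by rw [hc t h4], h5,
      (a5 t _ v h5 (by rw [hc t h4]; exact nev) _ (tab_length _ _)).2 rfl⟩
  · rintro κ hκ ⟨s, a, rfl, h1, h2, h3, h4⟩
    simp only [Nat.unpair_pair, hκ] at h1 h2 h3 h4
    have key : ∀ t ≥ s, (e < (st t).2.2 ∧ lv (st t).2.1 e = lv (st s).2.1 e) ∨
        (e ≤ (st t).2.2 → s < (lv (st t).2.1 e).x) := by
      intro t ht
      induction ht with
      | refl => exact Or.inl ⟨h1, rfl⟩
      | @step t h5 ih =>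
        have h5' : s ≤ t := h5
        rw [Nat.succ_eq_add_one]
        rcases ih with ⟨h6, h7⟩ | ih
        · rcases Nat.lt_or_ge e (st (t + 1)).2.2 with h8 | h8
          · exact Or.inl ⟨h8, ((hS t).low h6 h8).trans h7⟩
          · refine Or.inr fun h9 => ?_
            have h10 : (st (t + 1)).2.2 = e := by omega
            have h11 := (hS t).drop (by omega)
            rw [h10] at h11
            rcases h11 with h11 | ⟨w, -, h11, h12⟩
            · have := h11.2.2.2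
              omega
            · rw [h7, h2] at h11
              rw [h7, D.fn _ _ _ (D.snd _ _ _ h11) hv] at h12
              exact absurd (h3.mono (hm h5') fun _ h => h) h12
        · refine Or.inr fun h9 => ?_
          rcases Nat.lt_or_ge (st t).2.2 e with h8 | h8
          · have := (hS t).new h8 h9
            omega
          · have := ih h8
            rcases (hS t).mid h8 h9 with h10 | h10
            · have := h10.2.2.2
              omega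
            · have := h10.2.2.2.2
              omega
    have h5 : lv (st s0).2.1 e = lv (st s).2.1 e := by
      rw [← hc _ (le_max_right s s0)]
      rcases key _ (le_max_left s s0) with h6 | h6
      · exact h6.2
      · have h7 := h6 (h0 _ (le_max_right _ _)).le
        have h8 := ((hI s).2.1 e (Nat.lt_succ_of_lt h1)).2
        rw [hc _ (le_max_right s s0)] at h7
        omega
    exact (a5 s _ v h3 (h5 ▸ nev) κ hκ).1 h4

end Pool.Agent.Lib.MP_774a52_lc.NS
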