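import Pool.Agent.Lib.MP_774a52_lc.NS4

/-! Verification, part two: a level that acts infinitely often. -/

namespace Pool.Agent.Lib.MP_774a52_lc.NS

open Filter

variable {D : Dat}

theorem stab {τ : ℕ → List ℕ} {s0 : ℕ} (h : ∀ s, s0 ≤ s → τ s <+: τ (s + 1)) (b : ℕ) :
    ∀ᶠ t in atTop, ∀ q ∈ Finset.range b, Ev q (τ (t + 1)) → Ev q (τ t) := by
  refine (Finset.eventually_all _).2 fun q _ => ?_
  by_cases h1 : ∃ s ≥ s0, Ev q (τ s)
  · obtain ⟨s, hs, h2⟩ := h1
    filter_upwards [eventually_ge_atTop s] with t ht _ using h2.mono (pre_le h hs ht)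
  · filter_upwards [eventually_ge_atTop s0] with t ht h2 using
      absurd ⟨t + 1, by omega, h2⟩ h1

theorem inT_bound (D : Dat) (x n : ℕ) : ∃ b, ∀ t q, InT D t x n q → q < b := by
  by_cases h : ∃ v, D.G x v
  · obtain ⟨v, hv⟩ := h
    refine ⟨2 * n + 2 + 2 * v, ?_⟩
    rintro t q (h1 | ⟨w, -, h1, h2, -⟩)
    · omega
    · have := D.fn _ _ _ (D.snd _ _ _ h1) hv
      omega
  · refine ⟨2 * n + 2, ?_⟩
    rintro t q (h1 | ⟨w, -, h1, -⟩)
    · omega
    · exact absurd ⟨w, D.snd _ _ _ h1⟩ h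

theorem cn_ev (D : Dat) (x : ℕ) : ∀ᶠ t in atTop, ∀ v, D.G x v → D.Cn t x v ∧ v < t := by
  by_cases h : ∃ v, D.G x v
  · obtain ⟨v, hv⟩ := h
    filter_upwards [D.ev _ _ hv, eventually_gt_atTop v] with t h1 h2 w hw
    rw [D.fn _ _ _ hw hv]
    exact ⟨h1, h2⟩
  · exact Eventually.of_forall fun t v hv => absurd ⟨v, hv⟩ h

theorem credit {st : ℕ → St} (hS : ∀ s, Step D s (st s) (st (s + 1))) {e s : ℕ}
    (h0 : ∀ t ≥ s, e ≤ (st t).2.2) (hfr : ∃ᶠ t in atTop, (st t).2.2 ≤ e) :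
    ∃ t ≥ s, e < (st t).2.2 ∧ Cred t (lv (st t).2.1 e) (lv (st (t + 1)).2.1 e) := by
  by_contra hc
  have hK : ∀ t ≥ s, Keep (lv (st t).2.1 e) (lv (st (t + 1)).2.1 e) := fun t ht =>
    ((hS t).mid (h0 t ht) (h0 _ (by omega))).resolve_right fun h => hc ⟨t, ht, h⟩
  have hjx : ∀ t ≥ s, (lv (st t).2.1 e).j = (lv (st s).2.1 e).j ∧
      (lv (st t).2.1 e).x = (lv (st s).2.1 e).x := by
    intro t ht
    induction ht with
    | refl => exact ⟨rfl, rfl⟩
    | step h1 ih => exact ⟨(hK _ h1).2.2.1.trans ih.1, (hK _ h1).2.2.2.trans ih.2⟩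
  have hm : ∀ {s t}, s ≤ t → (st s).1 <+: (st t).1 := fun h =>
    pre_le (τ := fun s => (st s).1) (fun s _ => (hS s).2.1) (Nat.zero_le _) h
  obtain ⟨b0, hb0⟩ := inT_bound D (Nat.pair e (lv (st s).2.1 e).x) e
  obtain ⟨b1, hb1⟩ := inT_bound D (xb (lv (st s).2.1 e).j) (lv (st s).2.1 e).j
  have e0 := stab (τ := fun t => (st t).1) (s0 := 0) (fun t _ => (hS t).2.1) b0
  have e1 := stab (τ := fun t => (lv (st t).2.1 e).r) (s0 := s) (fun t ht => (hK t ht).1) b1
  obtain ⟨t, h1, h2, h3, h4, h5⟩ := (hfr.and_eventually (e0.and (e1.and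
    ((cn_ev D (Nat.pair e (lv (st s).2.1 e).x)).and (eventually_ge_atTop s))))).exists
  have hk : (st t).2.2 = e := le_antisymm h1 (h0 t h5)
  have h6 : (st (t + 1)).2.2 = e + 1 ∧ Cov D t (Nat.pair e (lv (st s).2.1 e).x) e (st (t + 1)).1
      (lv (st (t + 1)).2.1 e).A := by
    have := h0 (t + 1) (by omega)
    rcases (hS t).2.2 with h | ⟨-, -, -, h | ⟨-, ⟨q, p1, p2, p3⟩ | ⟨q, p1, p2, p3⟩⟩⟩
    · omega
    · rw [hk, (hjx t h5).2] at h
      exact ⟨h.1, h.2.2⟩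
    · rw [hk, (hjx t h5).2] at p1
      exact absurd (h2 q (Finset.mem_range.2 (hb0 _ _ p1)) p3) p2
    · rw [hk] at p1 p2 p3
      rw [(hjx t h5).1] at p1
      exact absurd (h3 q (Finset.mem_range.2 (hb1 _ _ p1)) p3) p2
  have h7 : ∀ u ≥ t + 1, e < (st u).2.2 ∧ lv (st u).2.1 e = lv (st (t + 1)).2.1 e := by
    intro u hu
    induction hu with
    | refl => exact ⟨by omega, rfl⟩
    | @step u h8 ih =>
      have h8' : t + 1 ≤ u := h8
      rw [Nat.succ_eq_add_one]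
      rcases Nat.lt_or_ge e (st (u + 1)).2.2 with h9 | h9
      · exact ⟨h9, ((hS u).low ih.1 h9).trans ih.2⟩
      · exfalso
        have h10 : (st (u + 1)).2.2 = e := le_antisymm h9 (h0 _ (by omega))
        have h11 := (hS u).drop (by omega)
        rw [h10] at h11
        rcases h11 with h11 | ⟨w, -, h11, h12⟩
        · exact hc ⟨u, by omega, ih.1, h11⟩
        · rw [(hjx u (by omega)).2] at h11
          obtain ⟨h13, h14⟩ := h4 w (D.snd _ _ _ h11)
          rw [ih.2] at h12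
          exact h12 (((h6.2.2 w h14).resolve_left (not_not.2 h13)).mono (hm h8') fun _ h => h)
  obtain ⟨u, h8, h9⟩ := (hfr.and_eventually (eventually_ge_atTop (t + 1))).exists
  have := (h7 u h9).1
  omega

theorem caseB {st : ℕ → St} (hI : ∀ s, Inv D s (st s)) (hS : ∀ s, Step D s (st s) (st (s + 1)))
    (hG : Sg 2 fun z : ℕ × St => st z.1 = z.2) {e s0 : ℕ} (h0 : ∀ t ≥ s0, e ≤ (st t).2.2)
    (hfr : ∃ᶠ t in atTop, (st t).2.2 ≤ e) : ∃ H, Out D H := by
  classical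
  have hmid : ∀ t ≥ s0, Keep (lv (st t).2.1 e) (lv (st (t + 1)).2.1 e) ∨
      (e < (st t).2.2 ∧ Cred t (lv (st t).2.1 e) (lv (st (t + 1)).2.1 e)) := fun t ht =>
    (hS t).mid (h0 t ht) (h0 _ (by omega))
  have hr : ∀ t, s0 ≤ t → (lv (st t).2.1 e).r <+: (lv (st (t + 1)).2.1 e).r := fun t ht =>
    (hmid t ht).elim (fun h => h.1) fun h => h.2.1
  have hSm : ∀ s ≥ s0, ∀ t ≥ s, ∀ q ∈ (lv (st s).2.1 e).S, q ∈ (lv (st t).2.1 e).S := by
    intro s hs t ht q hq
    induction ht with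
    | refl => exact hq
    | step h1 ih =>
      rcases hmid _ (le_trans hs h1) with h | h
      · exact h.2.1 ▸ ih
      · exact h.2.2.1 ▸ List.mem_append_left _ ih
  have hF : ∀ t ≥ s0, ∃ X ρ S, ClG D (st t).1 (st t).2.1 (st t).2.2 (Lev X) (Dif X) ρ S ∧
      Free D.c 1 (lv (st t).2.1 e).r (lv (st t).2.1 e).S (Lev X e) := by
    intro t ht
    obtain ⟨X, hX⟩ := (hI t).2.2.2
    refine ⟨X, _, _, hX, ?_⟩
    rcases Nat.lt_or_ge e (st t).2.2 with h | h
    · exact (hX.1 e h).2.2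
    · rw [show e = (st t).2.2 from le_antisymm (h0 t ht) h]
      exact hX.2
  have hgood : ∀ t ≥ s0, Good D.c 1 (lv (st t).2.1 e).r := fun t ht =>
    ((hI t).2.1 e (Nat.lt_succ_of_le (h0 t ht))).1
  have nev : ∀ s ≥ s0, ∀ q ∈ (lv (st s).2.1 e).S, ∀ t, ¬ Ev q (lv (st (s0 + t)).2.1 e).r := by
    intro s hs q hq t h
    obtain ⟨X, _, _, -, hX⟩ := hF (max s (s0 + t)) (by omega)
    exact hX.self (hgood _ (by omega)) q (hSm s hs _ (le_max_left _ _) q hq)
      (h.mono (pre_le (τ := fun t => (lv (st t).2.1 e).r) hr (by omega) (le_max_right _ _)))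
  have nogrow : ∀ s ≥ s0, ∀ n, 2 * n + 1 ∉ (lv (st s).2.1 e).S := by
    intro s hs n hn
    have h1 : ∀ t ≥ max s n, (st (t + 1)).2.2 < (st t).2.2 := by
      intro t ht
      have ht1 := le_of_max_le_left ht
      have ht2 := le_of_max_le_right ht
      obtain ⟨X, _, _, hX, hX'⟩ := hF t (by omega)
      have h2 : ∀ y ∈ Lev X e, y < n + (lv (st t).2.1 e).r.length := fun y hy =>
        hX'.bound (hgood t (by omega)) (hSm s hs t ht1 _ hn) hy
      rcases e with _ | e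
      · exact absurd (h2 _ fun d hd => absurd hd (Nat.not_lt_zero d)) (lt_irrefl _)
      · by_contra h3
        have h4 : e < (st t).2.2 := h0 t (by omega)
        exact ((hS t).quiet (by omega) e h4).1 (ra_of h4 hX fun y hy => by
          have := h2 y hy
          omega)
    have h2 : ∀ m, (st (max s n + m)).2.2 + m ≤ (st (max s n)).2.2 := by
      intro m
      induction m with
      | zero => exact le_rfl
      | succ m ih =>
        have := h1 (max s n + m) (by omega)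
        rw [← Nat.add_assoc (max s n)]
        omega
    have := h2 ((st (max s n)).2.2 + 1)
    omega
  have first : ∀ s ≥ s0, ∃ t ≥ s, (lv (st t).2.1 e).j = (lv (st s).2.1 e).j ∧
      e < (st t).2.2 ∧ Cred t (lv (st t).2.1 e) (lv (st (t + 1)).2.1 e) := by
    intro s hs
    have hex := credit hS (s := s) (fun t ht => h0 t (by omega)) hfr
    refine ⟨Nat.find hex, (Nat.find_spec hex).1, ?_, (Nat.find_spec hex).2⟩
    have : ∀ u ≥ s, u ≤ Nat.find hex → (lv (st u).2.1 e).j = (lv (st s).2.1 e).j := by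
      intro u hu
      induction hu with
      | refl => exact fun _ => rfl
      | @step u h1 ih =>
        intro h2
        have h3 : s ≤ u := h1
        have h4 : u < Nat.find hex := h2
        exact ((hmid u (by omega)).resolve_right fun h =>
          Nat.find_min hex h4 ⟨h3, h⟩).2.2.1.trans (ih h4.le)
    exact this _ (Nat.find_spec hex).1 le_rfl
  have every : ∀ N ≥ (lv (st s0).2.1 e).j, ∃ s ≥ s0, (lv (st s).2.1 e).j = N := by
    intro N hN
    induction hN with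
    | refl => exact ⟨s0, le_rfl, rfl⟩
    | step _ ih =>
      obtain ⟨s, hs, h1⟩ := ih
      obtain ⟨t, ht, h2, -, h3⟩ := first s hs
      exact ⟨t + 1, by omega, by rw [h3.2.2.1, h2, h1]⟩
  have cov : ∀ N ≥ (lv (st s0).2.1 e).j, ∃ t ≥ s0,
      Cov D N (xb N) N (lv (st t).2.1 e).r (lv (st t).2.1 e).S := by
    intro N hN
    obtain ⟨s, hs, h1⟩ := every N hN
    obtain ⟨t, ht, h2, h3, h4⟩ := first s hs
    have h5 := ((hI t).2.2.1 e h3).2
    rw [h2, h1] at h5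
    have h6 : ∀ q ∈ (lv (st t).2.1 e).B, q ∈ (lv (st (t + 1)).2.1 e).S := fun q hq =>
      h4.2.1 ▸ List.mem_append_right _ hq
    exact ⟨t + 1, by omega, h5.1.imp (h6 _) (Ev.mono h4.1),
      fun v hv => (h5.2 v hv).imp id fun h => h.mono h4.1 h6⟩
  have hG' : Sg 2 fun z : ℕ × St => st (s0 + z.1) = z.2 :=
    hG.comp (f := fun z : ℕ × St => (s0 + z.1, z.2)) (by fun_prop)
  have hσ : Sg 2 fun z : ℕ × List ℕ => (lv (st (s0 + z.1)).2.1 e).r = z.2 := by
    have : Sg 2 fun z : ℕ × List ℕ => ∃ a : St, st (s0 + z.1) = a ∧ (lv a.2.1 e).r = z.2 :=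
      Sg.ex (Sg.and (hG'.comp (f := fun w : (ℕ × List ℕ) × St => (w.1.1, w.2)) (by fun_prop))
        (by fun_prop))
    exact this.of_eq fun z => by simp
  obtain ⟨H, a1, a2, a3, a4, a5⟩ := chain (c := D.c) (i := 1)
    (τ := fun s => (lv (st (s0 + s)).2.1 e).r) (fun s => hr _ (by omega))
    (fun s => (hgood _ (by omega)).1) (fun n => by
      obtain ⟨t, ht, h1⟩ := cov (max n (lv (st s0).2.1 e).j) (le_max_right _ _)
      obtain ⟨y, h2, h3⟩ := ev_odd.1 (h1.1.resolve_left (nogrow t ht _))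
      obtain ⟨t, rfl⟩ := Nat.exists_eq_add_of_le ht
      exact ⟨t, ev_odd.2 ⟨y, le_of_max_le_left h2, h3⟩⟩) hσ
  refine ⟨H, a1, ⟨1, a2⟩, a3, a4, fun z => ∃ (s : ℕ) (a : St), st (s0 + s) = a ∧
    Dec (lv a.2.1 e).r (lv a.2.1 e).S z.2.length ∧ Fit (lv a.2.1 e).r z.2,
    Sg.ex (Sg.ex (Sg.and (hG'.comp (f := fun w : ((ℕ × List ℕ) × ℕ) × St => (w.1.2, w.2))
      (by fun_prop)) (by fun_prop))), fun e' => ⟨0, fun v hv => ⟨?_, ?_⟩⟩⟩
  · obtain ⟨m, hm⟩ := eventually_atTop.1 ((D.ev _ _ hv).and ((eventually_gt_atTop v).and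
      (eventually_ge_atTop (lv (st s0).2.1 e).j)))
    obtain ⟨h1, h2, h3⟩ := hm (Nat.pair e' m) (Nat.right_le_pair _ _)
    obtain ⟨t, ht, h4⟩ := cov _ h3
    obtain ⟨t, rfl⟩ := Nat.exists_eq_add_of_le ht
    have h5 := (h4.2 v h2).resolve_left (by simpa [xb] using h1)
    simp only [tab_length]
    exact ⟨t, _, rfl, h5, (a5 t _ v h5 (nev _ ht) _ (tab_length _ _)).2 rfl⟩
  · rintro κ hκ ⟨s, a, rfl, h1, h2⟩
    simp only [hκ] at h1 h2
    exact (a5 s _ v h1 (nev _ (by omega)) κ hκ).1 h2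

theorem core (D : Dat) : ∃ H, Out D H := by
  classical
  obtain ⟨st, hI, hS, hG⟩ := run D
  by_cases hA : ∀ e, ∀ᶠ s in atTop, e < (st s).2.2
  · exact caseA hI hS hG hA
  · have hex := not_forall.1 hA
    have h1 : ∀ᶠ s in atTop, Nat.find hex ≤ (st s).2.2 := by
      rcases h : Nat.find hex with _ | e
      · exact Eventually.of_forall fun _ => Nat.zero_le _
      · exact not_not.1 (Nat.find_min hex (show e < Nat.find hex by omega))
    obtain ⟨s0, h0⟩ := eventually_atTop.1 h1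
    exact caseB hI hS hG h0 ((not_eventually.1 (Nat.find_spec hex)).mono fun _ h => not_lt.1 h)

end Pool.Agent.Lib.MP_774a52_lc.NS
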