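import Pool.Agent.Lib.MP_774a52_lc.NS5

/-! The diagonal argument. -/

namespace Pool.Agent.Lib.MP_774a52_lc.NS

open Filter Nat.Partrec

def Cv (a x v : ℕ) : Prop := ∃ u, Gen Rule (tab (jump ∅) u, a, x, v)

theorem K_sg : Sg 1 fun n => n ∈ jump ∅ :=
  (jump_S1 ∅).sg ((Sg.const False).of_eq (by simp)) ((Sg.const True).of_eq (by simp))

@[fun_prop] theorem sg_cv {α : Type} [Primcodable α] {f g h : α → ℕ} (hf : Primrec f)
    (hg : Primrec g) (hh : Primrec h) : Sg 2 fun a => Cv (f a) (g a) (h a) := by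
  have h1 := isTab_sg (n := 2) K_sg.lift K_sg.not_succ
  have h2 : Sg 2 (Gen Rule) := ev_sg.lift
  have h3 : Sg 2 fun a => ∃ κ : List ℕ, IsTab (jump ∅) κ ∧ Gen Rule (κ, f a, g a, h a) := by
    fun_prop
  refine h3.of_eq fun a => ⟨?_, ?_⟩
  · rintro ⟨κ, h4, h5⟩
    rw [isTab_iff] at h4
    exact ⟨κ.length, h4 ▸ h5⟩
  · rintro ⟨u, hu⟩
    exact ⟨_, by rw [isTab_iff, tab_length], hu⟩

theorem cv_iff (c : OCode) (x v : ℕ) : Cv c.enc x v ↔ v ∈ c.eval (chi (jump ∅)) x :=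
  (mem_eval_iff _ c x v).symm

theorem cv_fn {a x v w : ℕ} (h1 : Cv a x v) (h2 : Cv a x w) : v = w := by
  obtain ⟨c, rfl⟩ := enc_surj a
  exact Part.mem_unique ((cv_iff c x v).1 h1) ((cv_iff c x w).1 h2)

theorem S1_of_sg2 {p : ℕ → Prop} (hp : Sg 2 p) : S1 (jump ∅) p := by
  obtain ⟨q, hq, e⟩ := sg_succ.1 hp
  have h : S1 (jump ∅) fun a => ∃ u, ¬ q (a, u) :=
    High.S1_jump (High.S1_of_sg (hq.comp Primrec.unpair))
  exact (funext fun a => propext (e a) : p = _) ▸ h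

theorem col_sg {c : ℕ → ℕ → Fin 2} (hc : Computable₂ c) (i : Fin 2) :
    Sg 1 fun z : ℕ × ℕ => c z.1 z.2 = i := by
  have h1 : Computable fun n : ℕ => (c (Nat.unpair n).1 (Nat.unpair n).2 : ℕ) :=
    Primrec.fin_val.to_comp.comp (Computable.comp (f := fun p : ℕ × ℕ => c p.1 p.2) hc
      Primrec.unpair.to_comp)
  obtain ⟨e, he⟩ := Code.exists_code.1 (Partrec.nat_iff.1 h1.partrec)
  have h2 : Sg 1 fun z : ℕ × ℕ => ∃ k, Code.evaln k
      (Denumerable.ofNat Code (Encodable.encode e)) (Nat.pair z.1 z.2) = some (i : ℕ) := by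
    fun_prop
  refine h2.of_eq fun z => ?_
  rw [Denumerable.ofNat_encode]
  have h3 : (∃ k, Code.evaln k e (Nat.pair z.1 z.2) = some (i : ℕ)) ↔
      (i : ℕ) ∈ e.eval (Nat.pair z.1 z.2) := Code.evaln_complete.symm
  rw [h3, he]
  simp [Fin.val_inj, eq_comm]

theorem main (c : ℕ → ℕ → Fin 2) (hc : Computable₂ c) (hs : ∀ x, ∃ i, ∃ y0, ∀ y ≥ y0, c x y = i) :
    ∃ H : Set ℕ, H.Infinite ∧ (∃ i, ∀ x ∈ H, ∀ y ∈ H, x < y → c x y = i) ∧
      TuringReducible (chi H) (chi (jump ∅)) ∧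
      ∀ (g : ℕ → ℕ) (ψ : ℕ →. ℕ), TuringReducible (fun x => Part.some (g x)) (chi (jump ∅)) →
        TuringReducible ψ (chi (jump ∅)) →
        ¬ ∀ x, ψ (Nat.pair x (Encodable.encode (tab (jump H) (g x)))) =
          chi (jump (jump ∅)) x := by
  have hG : Sg 2 fun z : ℕ × ℕ => Cv (Nat.unpair (Nat.unpair z.1).1).1 z.1 z.2 := by fun_prop
  obtain ⟨q, hq, eq⟩ := sg_succ.1 hG
  have hq1 : Sg 1 fun w : (ℕ × ℕ × ℕ) × ℕ => q ((w.1.2.1, w.1.2.2), w.2) :=
    hq.comp (by fun_prop)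
  let D : Dat :=
    { c := c
      hc := col_sg hc
      hs := hs
      G := fun x v => Cv (Nat.unpair (Nat.unpair x).1).1 x v
      Cn := fun s x v => BEx s fun u => ¬ q ((x, v), u)
      h1 := Sg.bex (by fun_prop) hq1.not_succ
      h0 := (Sg.ball (f := fun z : ℕ × ℕ × ℕ => z.1) (p := fun z u => q ((z.2.1, z.2.2), u))
        (by fun_prop) hq1.lift).of_eq fun z => by simp [BAll, BEx]
      snd := fun s x v ⟨u, _, hu⟩ => (eq (x, v)).2 ⟨u, hu⟩
      ev := fun x v h => by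
        obtain ⟨u, hu⟩ := (eq (x, v)).1 h
        filter_upwards [eventually_gt_atTop u] with s h1 using ⟨u, h1, hu⟩
      fn := fun x v w => cv_fn }
  obtain ⟨H, a1, a2, a3, a4, Z, hZ, a5⟩ := core D
  refine ⟨H, a1, a2, High.le_of_S1 (S1_of_sg2 a3) (S1_of_sg2 a4), fun g ψ hg hψ h => ?_⟩
  have hB : Sg 2 fun x : ℕ => ∃ κ : List ℕ, Cv (Nat.unpair (Nat.unpair x).1).1 x κ.length ∧
      Z (x, κ) ∧ Cv (Nat.unpair (Nat.unpair x).1).2 (Nat.pair x (Encodable.encode κ)) 0 := by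
    fun_prop
  obtain ⟨r, hr, er⟩ := (S1_of_sg2 hB).red
  obtain ⟨a, ha⟩ := exists_code.1 (RI.comp (RecursiveIn.iff_nat.1 hg) (RI.of_prim hr))
  obtain ⟨b, hb⟩ := exists_code.1 (Nat.RecursiveIn.comp (RecursiveIn.iff_nat.1 hψ)
    (RI.of_prim (O := chi (jump ∅))
      (g := fun z => Nat.pair (r (Nat.unpair z).1) (Nat.unpair z).2) (by fun_prop)))
  obtain ⟨ξ, hξ⟩ := a5 (Nat.pair a.enc b.enc)
  generalize hx : Nat.pair (Nat.pair a.enc b.enc) ξ = x at hξ
  have e1 : (Nat.unpair (Nat.unpair x).1).1 = a.enc := by simp [← hx]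
  have e2 : (Nat.unpair (Nat.unpair x).1).2 = b.enc := by simp [← hx]
  have h1 : Cv a.enc x (g (r x)) := by rw [cv_iff, ha]; simp
  obtain ⟨h2, h3⟩ := hξ (g (r x)) (show Cv _ x _ from e1 ▸ h1)
  have h4 : Cv b.enc (Nat.pair x (Encodable.encode (tab (jump H) (g (r x))))) 0 ↔
      r x ∉ jump (jump ∅) := by
    rw [cv_iff, hb]
    simp only [Nat.unpair_pair, Part.bind_eq_bind, Part.bind_some, h (r x), chi]
    by_cases h5 : r x ∈ jump (jump ∅) <;> simp [h5]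
  have h5 := er x
  rw [e1, e2] at h5
  by_cases h6 : r x ∈ jump (jump ∅)
  · obtain ⟨κ, k1, k2, k3⟩ := h5.2 h6
    rw [h3 κ (cv_fn k1 h1) k2] at k3
    exact h4.1 k3 h6
  · exact h6 (h5.1 ⟨_, by rw [tab_length]; exact h1, h2, h4.2 h6⟩)

theorem tt_of {C B : Set ℕ} {O : ℕ →. ℕ} {f : ℕ → List (List Bool)} (hf : Computable f)
    (h : ∀ x, x ∈ B ↔ ∃ σ ∈ f x, ∀ i < σ.length, (σ.getD i false = true ↔ i ∈ C)) :
    ∃ (g : ℕ → ℕ) (ψ : ℕ →. ℕ), TuringReducible (fun x => Part.some (g x)) O ∧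
      TuringReducible ψ O ∧ ∀ x, ψ (Nat.pair x (Encodable.encode (tab C (g x)))) = chi B x := by
  classical
  have h1 : Computable fun x => (f x).flatten.length :=
    (Primrec.list_length.comp Primrec.list_flatten).to_comp.comp hf
  let P : List (List Bool) × ℕ → ℕ := fun z => ITE (BEx z.1.length fun k =>
    BAll (z.1.getD k []).length fun i =>
      ((z.1.getD k []).getD i false = true ∧ (decL z.2).getD i 0 = 1) ∨
      ((z.1.getD k []).getD i false ≠ true ∧ (decL z.2).getD i 0 ≠ 1)) 1 0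
  have hP : Primrec P := by
    simp only [P]
    fun_prop
  have h2 : Computable fun z : ℕ => P (f (Nat.unpair z).1, (Nat.unpair z).2) :=
    hP.to_comp.comp ((hf.comp (Primrec.fst.comp Primrec.unpair).to_comp).pair
      (Primrec.snd.comp Primrec.unpair).to_comp)
  refine ⟨_, fun z => Part.some (P (f (Nat.unpair z).1, (Nat.unpair z).2)),
    Partrec.turingReducible h1.partrec, Partrec.turingReducible h2.partrec, fun x => ?_⟩
  simp only [Nat.unpair_pair, chi, P, decL_encode]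
  congr 1
  have h3 : ∀ σ ∈ f x, (BAll σ.length fun i =>
      (σ.getD i false = true ∧ (tab C (f x).flatten.length).getD i 0 = 1) ∨
      (σ.getD i false ≠ true ∧ (tab C (f x).flatten.length).getD i 0 ≠ 1)) ↔
      ∀ i < σ.length, (σ.getD i false = true ↔ i ∈ C) := by
    intro σ hσ
    refine forall_congr' fun i => forall_congr' fun hi => ?_
    have := (List.sublist_flatten_of_mem hσ).length_le
    beta_reduce
    rw [Ne, Ne, tab_getD_one C (by omega)]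
    tauto
  have h4 : ∀ k < (f x).length, (f x).getD k [] ∈ f x := fun k hk => by
    rw [List.getD_eq_getElem _ _ hk]
    exact List.getElem_mem hk
  refine if_congr ⟨?_, fun hx => ?_⟩ rfl rfl
  · rintro ⟨k, hk, h5⟩
    exact (h x).2 ⟨_, h4 k hk, (h3 _ (h4 k hk)).1 h5⟩
  · obtain ⟨σ, hσ, h5⟩ := (h x).1 hx
    obtain ⟨k, hk, rfl⟩ := List.getElem_of_mem hσ
    refine ⟨k, hk, ?_⟩
    beta_reduce
    rw [List.getD_eq_getElem _ _ hk]
    exact (h3 _ hσ).2 h5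

end Pool.Agent.Lib.MP_774a52_lc.NS
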