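import Pool.Agent.Lib.MP_774a52_lc.Work

namespace Pool.Agent.Lib.MP_774a52_lc

open Filter

def wit (R : ℕ → ℕ → Prop) (b rnd : ℕ → ℕ → ℕ) (w t y : ℕ) : Prop :=
  rnd w t ≤ y ∧ y ≤ t ∧ same b (blk w) y (ter w) ∧ ∀ w' t', R w' t' → rnd w' t' ≤ t →
    rnd w t ≤ t' → blk w < blk w' → blk w' < rnd w t →
    bt (b (blk w) y) (blk w') ≠ bt (b (blk w) (ter w')) (blk w')

def AA (R : ℕ → ℕ → Prop) (b rnd : ℕ → ℕ → ℕ) (side : ℕ → ℕ) (y : ℕ) : Prop :=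
  ∃ w t, R w t ∧ side (blk w) = 0 ∧ wit R b rnd w t y

def rigid (fi : ℕ → ℕ → ℕ → Prop) (inc rnd : ℕ → ℕ → ℕ) (s w t : ℕ) : Prop :=
  t < s ∧ fire fi inc w t ∧ inc w s ≤ rnd w t

def rigidL (fi : ℕ → ℕ → ℕ → Prop) (inc rnd : ℕ → ℕ → ℕ) (w t : ℕ) : Prop :=
  fire fi inc w t ∧ ∀ s, inc w s ≤ rnd w t

theorem AA_sg {fi : ℕ → ℕ → ℕ → Prop} {b inc rnd : ℕ → ℕ → ℕ} {side : ℕ → ℕ}
    (hfi : Sg 0 fun z : ℕ × ℕ × ℕ => fi z.1 z.2.1 z.2.2)
    (hb : Primrec fun z : ℕ × ℕ => b z.1 z.2) (hinc : Primrec fun z : ℕ × ℕ => inc z.1 z.2)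
    (hrnd : Primrec fun z : ℕ × ℕ => rnd z.1 z.2) (hside : Primrec side) :
    Sg 0 fun z : ℕ × ℕ => AA (rigid fi inc rnd z.2) b rnd side z.1 := by
  have h : Sg 0 fun z : ℕ × ℕ => BEx z.2 fun w => BEx z.2 fun t => rigid fi inc rnd z.2 w t ∧
      side (blk w) = 0 ∧ rnd w t ≤ z.1 ∧ z.1 ≤ t ∧ same b (blk w) z.1 (ter w) ∧
      BAll z.2 fun w' => BAll z.2 fun t' => Imp (rigid fi inc rnd z.2 w' t') (Imp (rnd w' t' ≤ t)
        (Imp (rnd w t ≤ t') (Imp (blk w < blk w') (Imp (blk w' < rnd w t)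
        (bt (b (blk w) z.1) (blk w') ≠ bt (b (blk w) (ter w')) (blk w')))))) := by
    unfold rigid fire same blk ter
    fun_prop
  refine h.of_eq fun z => ?_
  constructor
  · rintro ⟨w, _, t, _, h1, h2, h3, h4, h5, h6⟩
    refine ⟨w, t, h1, h2, h3, h4, h5, fun w' t' h7 => h6 w' ?_ t' h7.1 h7⟩
    exact lt_of_le_of_lt h7.2.1.1 h7.1
  · rintro ⟨w, t, h1, h2, h3, h4, h5, h6⟩
    exact ⟨w, lt_of_le_of_lt h1.2.1.1 h1.1, t, h1.1, h1, h2, h3, h4, h5,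
      fun w' _ t' _ => h6 w' t'⟩

def QW (H : Set ℕ) (b rnd : ℕ → ℕ → ℕ) (w s0 s : ℕ) : Prop :=
  s0 ≤ s ∧ ∀ j < 2 ^ rnd w s, ∃ y < s, y ∈ H ∧ rnd w s ≤ y ∧ same b (blk w) y (ter w) ∧
    b (blk w) y = j

namespace WorkSpec
variable {fi : ℕ → ℕ → ℕ → Prop} {inc rnd : ℕ → ℕ → ℕ} (W : WorkSpec fi inc rnd)
include W

theorem rigid_lim (w t : ℕ) :
    ∀ᶠ s in atTop, (rigid fi inc rnd s w t ↔ rigidL fi inc rnd w t) := by
  by_cases h : ∀ s, inc w s ≤ rnd w t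
  · filter_upwards [eventually_gt_atTop t] with s hs
    exact ⟨fun h1 => ⟨h1.2.1, h⟩, fun h1 => ⟨hs, h1.1, h s⟩⟩
  · have h' := h
    push Not at h'
    obtain ⟨s0, h0⟩ := h'
    filter_upwards [eventually_ge_atTop s0] with s hs
    have := (W.mono w hs).1
    exact ⟨fun h1 => by have := h1.2.2; omega, fun h1 => absurd h1.2 h⟩

theorem AA_lim (b : ℕ → ℕ → ℕ) (side : ℕ → ℕ) (y : ℕ) : ∀ᶠ s in atTop,
    (AA (rigid fi inc rnd s) b rnd side y ↔ AA (rigidL fi inc rnd) b rnd side y) := by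
  obtain ⟨U, hU⟩ := W.fire_bound y
  obtain ⟨V, hV⟩ := W.fire_bound U
  have key : ∀ R R' : ℕ → ℕ → Prop, (∀ w t, R w t → fire fi inc w t) →
      (∀ w t, R' w t → fire fi inc w t) → (∀ w < U + V, ∀ t < U + V, (R w t ↔ R' w t)) →
      AA R b rnd side y → AA R' b rnd side y := by
    rintro R R' h1 h2 h3 ⟨w, t, h4, h5, h6, h7, h8, h9⟩
    have e1 := hU w t (h1 w t h4) h6
    have e2 := (h1 w t h4).1
    refine ⟨w, t, (h3 w (by omega) t (by omega)).1 h4, h5, h6, h7, h8, fun w' t' h10 h11 => ?_⟩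
    have e3 := hV w' t' (h2 w' t' h10) (by omega)
    have e4 := (h2 w' t' h10).1
    exact h9 w' t' ((h3 w' (by omega) t' (by omega)).2 h10) h11
  filter_upwards [ev_ball (U + V) fun w _ => ev_ball (U + V) fun t _ => W.rigid_lim w t] with s hs
  exact ⟨key _ _ (fun _ _ h => h.2.1) (fun _ _ h => h.1) hs,
    key _ _ (fun _ _ h => h.1) (fun _ _ h => h.2.1) fun w hw t ht => (hs w hw t ht).symm⟩

theorem disj {b : ℕ → ℕ → ℕ} {w t w' t' y : ℕ} (h : rigidL fi inc rnd w t)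
    (h' : rigidL fi inc rnd w' t') (hb : blk w < blk w')
    (hy : wit (rigidL fi inc rnd) b rnd w t y) (hy' : wit (rigidL fi inc rnd) b rnd w' t' y) :
    False := by
  obtain ⟨e1, e2, _, e4⟩ := hy
  obtain ⟨f1, f2, f3, _⟩ := hy'
  rcases Nat.lt_or_ge (blk w') (rnd w t) with h1 | h1
  · exact e4 w' t' h' (by omega) (by omega) hb h1 (f3 _ hb)
  · have h2 := W.bounds w' t'
    have h3 := h.1.1
    have h4 := W.inc_ini (w := w') (s := t) (by omega)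
      (Or.inr ⟨w, by omega, hb, h.1, Or.inl h1⟩)
    have h5 := h'.2 (t + 1)
    omega

theorem uniq {w t v u w' t' : ℕ} (h : rigidL fi inc rnd w t) (hv : rigidL fi inc rnd v u)
    (h' : rigidL fi inc rnd w' t') (hb : blk w < blk w') (hvb : blk v = blk w') (hlt : v < w')
    (h1 : rnd w t ≤ u) (h2 : rnd w' t' ≤ t) : False := by
  have h3 := W.bounds w' t'
  have hhi : hi fi inc w' u := ⟨v, hlt, hvb, hv.1⟩
  have h4 : u < rnd w' t' := by
    by_cases h5 : w' ≤ u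
    · have := W.inc_ini h5 (Or.inl hhi)
      have := h'.2 (u + 1)
      omega
    · omega
  have h6 := h.1.1
  have h7 := W.inc_ini (w := w') (s := t) (by omega)
    (Or.inr ⟨w, by omega, hb, h.1, Or.inr ⟨u, by omega, h1, hhi⟩⟩)
  have h8 := h'.2 (t + 1)
  omega

theorem exists_color (b : ℕ → ℕ → ℕ) {w t : ℕ} (h : rigidL fi inc rnd w t) :
    ∃ j < 2 ^ rnd w t, ∀ w' t', rigidL fi inc rnd w' t' → rnd w' t' ≤ t → rnd w t ≤ t' →
      blk w < blk w' → blk w' < rnd w t →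
      bt j (blk w') ≠ bt (b (blk w) (ter w')) (blk w') := by
  have h1 : ∀ m', ∃ v, ∀ w' t', rigidL fi inc rnd w' t' → rnd w' t' ≤ t → rnd w t ≤ t' →
      blk w < blk w' → blk w' = m' → w' = v := by
    intro m'
    by_cases h2 : ∃ v u, rigidL fi inc rnd v u ∧ rnd v u ≤ t ∧ rnd w t ≤ u ∧ blk v = m'
    · obtain ⟨v, u, h3, h4, h5, h6⟩ := h2
      refine ⟨v, fun w' t' h7 h8 h9 h10 h11 => ?_⟩
      rcases lt_trichotomy v w' with h12 | h12 | h12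
      · exact (W.uniq h h3 h7 h10 (by omega) h12 h5 h8).elim
      · exact h12.symm
      · exact (W.uniq h h7 h3 (by omega) (by omega) h12 h9 h4).elim
    · exact ⟨0, fun w' t' h7 h8 h9 _ h11 => absurd ⟨w', t', h7, h8, h9, h11⟩ h2⟩
  choose v hv using h1
  obtain ⟨j, hj, hj'⟩ := exists_bits (rnd w t) fun m' => bt (b (blk w) (ter (v m'))) m'
  refine ⟨j, hj, fun w' t' h7 h8 h9 h10 h11 => ?_⟩
  have := hj' _ h11
  rwa [← hv _ w' t' h7 h8 h9 h10 rfl] at this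

theorem QW_total {H : Set ℕ} {b : ℕ → ℕ → ℕ} {w : ℕ}
    (hfi : ∀ n, ∃ T, ∀ s, fi (blk w) n s → s < T)
    (hcol : ∀ j N, ∃ y ∈ H, N ≤ y ∧ same b (blk w) y (ter w) ∧ b (blk w) y = j) (s0 : ℕ) :
    ∃ s, QW H b rnd w s0 s := by
  obtain ⟨i, r, h⟩ := W.settle hfi w rfl
  have h1 : ∀ᶠ s in atTop, ∀ j < 2 ^ r, ∃ y < s, y ∈ H ∧ r ≤ y ∧ same b (blk w) y (ter w) ∧
      b (blk w) y = j := ev_ball _ fun j _ => by
    obtain ⟨y, h1, h2⟩ := hcol j r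
    exact ev_bex ⟨y, h1, h2⟩
  obtain ⟨s, h2, h3, h4⟩ := (h.and (h1.and (eventually_ge_atTop s0))).exists
  exact ⟨s, h4, by rw [h2.2]; exact h3⟩

theorem win {H : Set ℕ} {b : ℕ → ℕ → ℕ} {side : ℕ → ℕ} {w : ℕ}
    (hfi : ∀ n, ∃ T, ∀ s, fi (blk w) n s → s < T)
    (hdom : ∀ s0, w ≤ s0 → ∃ s t, s ≤ t ∧ QW H b rnd w s0 s ∧ fi (blk w) (Nat.pair w s0) t) :
    ∃ y ∈ H, (AA (rigidL fi inc rnd) b rnd side y ↔ side (blk w) = 0) := by
  classical
  obtain ⟨s0, r, h⟩ := W.settle hfi w rfl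
  obtain ⟨S, hS⟩ := eventually_atTop.1 h
  have h1 : ∀ s, inc w s ≤ s0 := by
    intro s
    have := (W.mono w (Nat.le_add_right s S)).1
    have := (hS (s + S) (by omega)).1
    omega
  have h2 : ∀ s ≥ s0, inc w s = s0 := by
    intro s hs
    have e1 := W.inc_self w S
    rw [(hS S le_rfl).1] at e1
    have := (W.mono w hs).1
    have := h1 s
    omega
  have hw : w ≤ s0 := by have := (W.bounds w 0).1; have := h1 0; omega
  obtain ⟨s, t, h3, ⟨h4, h5⟩, h6⟩ := hdom s0 hw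
  have hex : ∃ t, s ≤ t ∧ fire fi inc w t := ⟨t, h3, by omega, by rw [h2 t (by omega)]; exact h6⟩
  obtain ⟨h7, h8⟩ := Nat.find_spec hex
  have h9 : ∀ u, s ≤ u → u ≤ Nat.find hex → rnd w u = rnd w s := by
    intro u hu
    induction hu with
    | refl => simp
    | @step u hu ih =>
      intro hu'
      have hu2 : s ≤ u := hu
      have e1 := h2 (u + 1) (by omega)
      rcases W.step w u with e | e | e
      · omega
      · exact absurd ⟨hu, e.2.1⟩ (Nat.find_min hex hu')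
      · exact e.2.2.2.trans (ih (by omega))
  generalize Nat.find hex = t1 at h7 h8 h9
  have h10 := h9 t1 h7 le_rfl
  have hR : rigidL fi inc rnd w t1 := by
    refine ⟨h8, fun u => ?_⟩
    have := h1 u
    have := (W.bounds w t1).2.1
    have := h2 t1 (by omega)
    omega
  obtain ⟨j, hj, hj'⟩ := W.exists_color b hR
  obtain ⟨y, e1, e2, e3, e4, e5⟩ := h5 j (h10 ▸ hj)
  have hwit : wit (rigidL fi inc rnd) b rnd w t1 y :=
    ⟨by omega, by omega, e4, by rw [e5]; exact hj'⟩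
  refine ⟨y, e2, ?_, fun h => ⟨w, t1, hR, h, hwit⟩⟩
  rintro ⟨w', t', f1, f2, f3⟩
  rcases lt_trichotomy (blk w) (blk w') with h11 | h11 | h11
  · exact (W.disj hR f1 h11 hwit f3).elim
  · rw [h11]; exact f2
  · exact (W.disj f1 hR h11 f3 hwit).elim

end WorkSpec

end Pool.Agent.Lib.MP_774a52_lc
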