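import Pool.Agent.Lib.MP_774a52_lc.Color

namespace Pool.Agent.Lib.MP_774a52_lc

open Filter

def blk (w : ℕ) : ℕ := (Nat.unpair w).1
def ter (w : ℕ) : ℕ := (Nat.unpair (Nat.unpair w).2).1

def fire (fi : ℕ → ℕ → ℕ → Prop) (inc : ℕ → ℕ → ℕ) (w s : ℕ) : Prop :=
  w ≤ s ∧ fi (blk w) (Nat.pair w (inc w s)) s

def hi (fi : ℕ → ℕ → ℕ → Prop) (inc : ℕ → ℕ → ℕ) (w t : ℕ) : Prop :=
  BEx w fun v => blk v = blk w ∧ fire fi inc v t

def ini (fi : ℕ → ℕ → ℕ → Prop) (inc rnd : ℕ → ℕ → ℕ) (w s : ℕ) : Prop :=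
  hi fi inc w s ∨ BEx (s + 1) fun x => blk x < blk w ∧ fire fi inc x s ∧
    (rnd x s ≤ blk w ∨ BEx (s + 1) fun t => rnd x s ≤ t ∧ hi fi inc w t)

structure WorkSpec (fi : ℕ → ℕ → ℕ → Prop) (inc rnd : ℕ → ℕ → ℕ) : Prop where
  inc0 : ∀ w, inc w 0 = w
  rnd0 : ∀ w, rnd w 0 = w
  incS : ∀ w s, inc w (s + 1) = ITE (w ≤ s) (ITE (ini fi inc rnd w s) (s + 1) (inc w s)) w
  rndS : ∀ w s, rnd w (s + 1) =
    ITE (w ≤ s) (ITE (ini fi inc rnd w s ∨ fire fi inc w s) (s + 1) (rnd w s)) w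

noncomputable def workStep (fi : ℕ → ℕ → ℕ → Prop) (x : N4) (f : N4 → ℕ) : ℕ :=
  ITE (x.2.2.1 = 0) x.2.1 (ITE (x.2.1 ≤ x.2.2.1 - 1) (ITE (x.1 = 0)
    (ITE (ini fi (fun w s => f (0, w, s, 0)) (fun w s => f (1, w, s, 0)) x.2.1 (x.2.2.1 - 1))
      x.2.2.1 (f (0, x.2.1, x.2.2.1 - 1, 0)))
    (ITE (ini fi (fun w s => f (0, w, s, 0)) (fun w s => f (1, w, s, 0)) x.2.1 (x.2.2.1 - 1) ∨
      fire fi (fun w s => f (0, w, s, 0)) x.2.1 (x.2.2.1 - 1))
      x.2.2.1 (f (1, x.2.1, x.2.2.1 - 1, 0)))) x.2.1)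

theorem fire_congr {fi : ℕ → ℕ → ℕ → Prop} {inc inc' : ℕ → ℕ → ℕ} {w s : ℕ}
    (h : w ≤ s → inc w s = inc' w s) : fire fi inc w s ↔ fire fi inc' w s :=
  and_congr_right fun hw => by rw [h hw]

theorem ini_congr {fi : ℕ → ℕ → ℕ → Prop} {inc rnd inc' rnd' : ℕ → ℕ → ℕ} {w s : ℕ}
    (h : ∀ x t, x ≤ t → t ≤ s → inc x t = inc' x t ∧ rnd x t = rnd' x t) :
    ini fi inc rnd w s ↔ ini fi inc' rnd' w s := by
  have e : ∀ t ≤ s, hi fi inc w t ↔ hi fi inc' w t := fun t ht =>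
    BEx_congr fun v _ => and_congr_right fun _ => fire_congr fun hv => (h v t hv ht).1
  refine or_congr (e s le_rfl) (BEx_congr fun x hx => and_congr_right fun _ => ?_)
  rw [(h x s (by omega) le_rfl).2]
  exact and_congr (fire_congr fun hv => (h x s hv le_rfl).1) (or_congr Iff.rfl
    (BEx_congr fun t ht => and_congr_right fun _ => e t (by omega)))

theorem exists_work {fi : ℕ → ℕ → ℕ → Prop}
    (hfi : Sg 0 fun z : ℕ × ℕ × ℕ => fi z.1 z.2.1 z.2.2) :
    ∃ inc rnd : ℕ → ℕ → ℕ, Primrec (fun z : ℕ × ℕ => inc z.1 z.2) ∧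
      Primrec (fun z : ℕ × ℕ => rnd z.1 z.2) ∧ WorkSpec fi inc rnd := by
  obtain ⟨F, hF, hrec⟩ := exists_rec4
    (fun x => 2 * (x.2.2.1 + (x.2.1 - x.2.2.1)) + x.1 + x.2.2.2) (by fun_prop)
    (fun x => by omega) (workStep fi) (by
      unfold workStep ini hi fire blk
      fun_prop) (by
      rintro ⟨tg, w, s, d⟩ f g h
      simp only at h
      unfold workStep
      refine ITE_congr Iff.rfl (fun _ => rfl) fun hs => ITE_congr Iff.rfl (fun hw => ?_)
        fun _ => rfl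
      simp only at hs hw ⊢
      have e := ini_congr (fi := fi) (w := w) (s := s - 1)
        (inc := fun w s => f (0, w, s, 0)) (rnd := fun w s => f (1, w, s, 0))
        (inc' := fun w s => g (0, w, s, 0)) (rnd' := fun w s => g (1, w, s, 0))
        fun x t h1 h2 => ⟨h _ (by simp only; omega), h _ (by simp only; omega)⟩
      refine ITE_congr Iff.rfl (fun _ => ITE_congr e (fun _ => rfl) fun _ => h _ ?_)
        fun _ => ITE_congr (or_congr e (fire_congr fun _ => h _ ?_)) (fun _ => rfl)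
          fun _ => h _ ?_
      all_goals simp only; omega)
  refine ⟨fun w s => F (0, w, s, 0), fun w s => F (1, w, s, 0), by fun_prop, by fun_prop,
    ?_, ?_, ?_, ?_⟩
  · intro w
    rw [hrec, workStep, ITE_pos rfl]
  · intro w
    rw [hrec, workStep, ITE_pos rfl]
  · intro w s
    rw [hrec, workStep, ITE_neg (by simp)]
    simp only [Nat.add_sub_cancel]
    rw [ITE_pos (p := True) trivial]
  · intro w s
    rw [hrec, workStep, ITE_neg (by simp)]
    simp only [Nat.add_sub_cancel]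
    rw [ITE_neg (p := 1 = 0) (by simp)]

namespace WorkSpec
variable {fi : ℕ → ℕ → ℕ → Prop} {inc rnd : ℕ → ℕ → ℕ} (W : WorkSpec fi inc rnd)
include W

theorem early {w s : ℕ} (h : s ≤ w) : inc w s = w ∧ rnd w s = w := by
  cases s with
  | zero => exact ⟨W.inc0 w, W.rnd0 w⟩
  | succ s => rw [W.incS, W.rndS, ITE_neg (by omega), ITE_neg (by omega)]; simp

theorem step (w s : ℕ) :
    (w ≤ s ∧ ini fi inc rnd w s ∧ inc w (s + 1) = s + 1 ∧ rnd w (s + 1) = s + 1) ∨
    (¬ ini fi inc rnd w s ∧ fire fi inc w s ∧ inc w (s + 1) = inc w s ∧ rnd w (s + 1) = s + 1) ∨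
    ((w ≤ s → ¬ ini fi inc rnd w s) ∧ ¬ fire fi inc w s ∧ inc w (s + 1) = inc w s ∧
      rnd w (s + 1) = rnd w s) := by
  by_cases hw : w ≤ s
  · rw [W.incS, W.rndS, ITE_pos hw, ITE_pos hw]
    by_cases h1 : ini fi inc rnd w s
    · rw [ITE_pos h1, ITE_pos (Or.inl h1)]
      exact Or.inl ⟨hw, h1, rfl, rfl⟩
    · rw [ITE_neg h1]
      by_cases h2 : fire fi inc w s
      · rw [ITE_pos (Or.inr h2)]
        exact Or.inr (Or.inl ⟨h1, h2, rfl, rfl⟩)
      · rw [ITE_neg (not_or.2 ⟨h1, h2⟩)]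
        exact Or.inr (Or.inr ⟨fun _ => h1, h2, rfl, rfl⟩)
  · have e1 := W.early (w := w) (s := s) (by omega)
    have e2 := W.early (w := w) (s := s + 1) (by omega)
    exact Or.inr (Or.inr ⟨fun h => absurd h hw, fun h => hw h.1, by omega, by omega⟩)

theorem bounds (w s : ℕ) : w ≤ inc w s ∧ inc w s ≤ rnd w s ∧ (w ≤ s → rnd w s ≤ s) := by
  induction s with
  | zero => rw [W.inc0, W.rnd0]; omega
  | succ s ih =>
    by_cases hw : w ≤ s
    · have := ih.2.2 hw
      rcases W.step w s with h | h | h <;> omega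
    · have := W.early (w := w) (s := s + 1) (by omega)
      omega

theorem mono (w : ℕ) {s s' : ℕ} (h : s ≤ s') : inc w s ≤ inc w s' ∧ rnd w s ≤ rnd w s' := by
  induction h with
  | refl => simp
  | @step s' _ ih =>
    have := W.bounds w s'
    show inc w s ≤ inc w (s' + 1) ∧ rnd w s ≤ rnd w (s' + 1)
    rcases W.step w s' with h | h | h
    · omega
    · have := h.2.1.1; omega
    · omega

theorem inc_self (w s : ℕ) : inc w (inc w s) = inc w s := by
  induction s with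
  | zero => rw [W.inc0, (W.early le_rfl).1]
  | succ s ih =>
    rcases W.step w s with h | h | h
    · rw [h.2.2.1, h.2.2.1]
    · rw [h.2.2.1, ih]
    · rw [h.2.2.1, ih]

theorem inc_ini {w s : ℕ} (hw : w ≤ s) (h : ini fi inc rnd w s) : inc w (s + 1) = s + 1 := by
  rw [W.incS, ITE_pos hw, ITE_pos h]

theorem rnd_fire {w s : ℕ} (h : fire fi inc w s) : rnd w (s + 1) = s + 1 := by
  rw [W.rndS, ITE_pos h.1, ITE_pos (Or.inr h)]

theorem fire_bound (y : ℕ) : ∃ U, ∀ w t, fire fi inc w t → rnd w t ≤ y → t < U := by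
  have h1 : ∀ w < y + 1, ∃ U, ∀ t, fire fi inc w t → rnd w t ≤ y → t < U := by
    intro w _
    by_cases h : ∃ t, y ≤ t ∧ fire fi inc w t
    · obtain ⟨t0, h2, h3⟩ := h
      refine ⟨t0 + 1, fun t _ h5 => ?_⟩
      by_contra h6
      have := (W.mono w (show t0 + 1 ≤ t by omega)).2
      rw [W.rnd_fire h3] at this
      omega
    · push Not at h
      refine ⟨y, fun t h4 _ => ?_⟩
      by_contra h6
      exact h t (by omega) h4
  obtain ⟨b, hb⟩ := exists_bound _ _ h1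
  refine ⟨b, fun w t h2 h3 => ?_⟩
  have := W.bounds w t
  obtain ⟨u, h4, h5⟩ := hb w (by omega)
  have := h5 t h2 h3
  omega

theorem quiet {m : ℕ} (hfi : ∀ n, ∃ T, ∀ s, fi m n s → s < T) (w : ℕ) (hw : blk w = m) :
    ∀ᶠ s in atTop, ¬ ini fi inc rnd w s ∧ ¬ fire fi inc w s := by
  induction w using Nat.strong_induction_on with
  | _ w ih =>
    have h1 : ∀ᶠ s in atTop, ¬ hi fi inc w s := by
      have : ∀ v < w, ∀ᶠ s in atTop, ¬ (blk v = blk w ∧ fire fi inc v s) := by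
        intro v hv
        by_cases h : blk v = blk w
        · filter_upwards [ih v hv (h.trans hw)] with s hs h' using hs.2 h'.2
        · exact Eventually.of_forall fun s h' => h h'.1
      filter_upwards [ev_ball w this] with s hs
      rintro ⟨v, hv, h⟩
      exact hs v hv h
    obtain ⟨S, hS⟩ := eventually_atTop.1 h1
    obtain ⟨U, hU⟩ := W.fire_bound (S + blk w)
    have h2 : ∀ s ≥ S + U, ¬ ini fi inc rnd w s := by
      rintro s hs (h | ⟨x, _, _, h3, h4⟩)
      · exact hS s (by omega) h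
      · have : rnd x s ≤ S + blk w := by
          rcases h4 with h4 | ⟨t, _, h4, h5⟩
          · omega
          · by_contra h6
            exact hS t (by omega) h5
        have := hU x s h3 this
        omega
    have h3 : ∀ s ≥ S + U, inc w s = inc w (S + U) := by
      intro s hs
      induction hs with
      | refl => rfl
      | @step s hs ih =>
        rcases W.step w s with h | h | h
        · exact absurd h.2.1 (h2 s hs)
        · rw [← ih]; exact h.2.2.1
        · rw [← ih]; exact h.2.2.1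
    obtain ⟨T, hT⟩ := hfi (Nat.pair w (inc w (S + U)))
    filter_upwards [eventually_ge_atTop (S + U), eventually_ge_atTop T] with s h4 h5
    refine ⟨h2 s h4, fun h => ?_⟩
    have := h.2
    rw [hw, h3 s h4] at this
    have := hT s this
    omega

theorem settle {m : ℕ} (hfi : ∀ n, ∃ T, ∀ s, fi m n s → s < T) (w : ℕ) (hw : blk w = m) :
    ∃ i r, ∀ᶠ s in atTop, inc w s = i ∧ rnd w s = r := by
  obtain ⟨S, hS⟩ := eventually_atTop.1 (W.quiet hfi w hw)
  refine ⟨inc w S, rnd w S, eventually_atTop.2 ⟨S, fun s hs => ?_⟩⟩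
  induction hs with
  | refl => simp
  | @step s hs ih =>
    rcases W.step w s with h | h | h
    · exact absurd h.2.1 (hS s hs).1
    · exact absurd h.2.1 (hS s hs).2
    · exact ⟨h.2.2.1.trans ih.1, h.2.2.2.trans ih.2⟩

end WorkSpec

end Pool.Agent.Lib.MP_774a52_lc
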